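import Pool.Agent.OM247.Defs

namespace Pool.Agent.OM247

open Function

variable {E : Type} {r : ℕ}

/-- the alternating property alone -/
def Alt (χ : (Fin r → E) → SignType) : Prop :=
  ∀ (x : Fin r → E) (i j : Fin r), i ≠ j → χ (x ∘ Equiv.swap i j) = -χ x

lemma sign_eq_neg_self {a : SignType} (h : a = -a) : a = 0 := by
  revert h; cases a <;> decide

lemma Alt.zero_of_eq {χ : (Fin r → E) → SignType} (h : Alt χ) {x : Fin r → E} {i j : Fin r}
    (hij : i ≠ j) (hx : x i = x j) : χ x = 0 := by
  have h1 := h x i j hij
  have h2 : x ∘ Equiv.swap i j = x := by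
    funext k
    simp only [comp_apply]
    by_cases hki : k = i
    · subst hki; simp [hx]
    · by_cases hkj : k = j
      · subst hkj; simp [hx]
      · rw [Equiv.swap_apply_of_ne_of_ne hki hkj]
  rw [h2] at h1
  exact sign_eq_neg_self h1

lemma Alt.injective_of_ne {χ : (Fin r → E) → SignType} (h : Alt χ) {x : Fin r → E}
    (hx : χ x ≠ 0) : Injective x := by
  intro i j hij
  by_contra hne
  exact hx (h.zero_of_eq hne hij)

/-- permuting the entries changes the value at most by a sign -/
lemma Alt.perm {χ : (Fin r → E) → SignType} (h : Alt χ) (σ : Equiv.Perm (Fin r)) :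
    ∀ x : Fin r → E, χ (x ∘ σ) = χ x ∨ χ (x ∘ σ) = -χ x := by
  refine Equiv.Perm.swap_induction_on σ ?_ ?_
  · intro x; left; rfl
  · intro f i j hij ih x
    have : x ∘ (Equiv.swap i j * f : Equiv.Perm (Fin r)) = (x ∘ Equiv.swap i j) ∘ f := by
      funext k; simp
    rw [this]
    rcases ih (x ∘ Equiv.swap i j) with h1 | h1 <;> rw [h1, h x i j hij] <;> simp

lemma update_update_swap (y : Fin r → E) {i j : Fin r} (hij : i ≠ j) (v : E) :
    update (update y i v) j (y i) = (update y j v) ∘ Equiv.swap i j := by
  funext k
  simp only [comp_apply]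
  by_cases hki : k = i
  · subst hki
    rw [update_of_ne hij, update_self, Equiv.swap_apply_left, update_self]
  · by_cases hkj : k = j
    · subst hkj
      rw [update_self, Equiv.swap_apply_right, update_of_ne hij]
    · rw [Equiv.swap_apply_of_ne_of_ne hki hkj, update_of_ne hkj, update_of_ne hki,
        update_of_ne hkj]

/-- The balanced form of the exchange axiom. -/
lemma exchange_bal {χ : (Fin r → E) → SignType} (h : IsChirotope χ) (x y : Fin r → E)
    (k i : Fin r) {s : SignType} (hs : s ≠ 0)
    (hi : χ (update x k (y i)) * χ (update y i (x k)) = s) :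
    χ x * χ y = s ∨ ∃ j, j ≠ i ∧ χ (update x k (y j)) * χ (update y j (x k)) = -s := by
  obtain ⟨j, hj⟩ := h.exchange (update x k (y i)) (update y i (x k)) k (by rw [hi]; exact hs)
  rw [hi] at hj
  rw [update_idem, update_self] at hj
  by_cases hji : j = i
  · subst hji
    left
    rw [update_self, update_idem, update_eq_self, update_eq_self] at hj
    exact hj
  · right
    refine ⟨j, hji, ?_⟩
    rw [update_of_ne hji, update_update_swap y (Ne.symm hji) (x k),
      h.alternating _ i j (Ne.symm hji)] at hj
    rw [← hj]; simp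

/-- The balanced form of the tope condition. -/
lemma tope_bal {χ : (Fin r → E) → SignType} (h : IsChirotope χ) {u : E → SignType}
    (hu : IsTope χ u) (w : Fin r → E) (e : E) (i : Fin r) {s : SignType} (hs : s ≠ 0)
    (hi : χ (update w i e) * u (w i) = s) :
    χ w * u e = s ∨ ∃ j, j ≠ i ∧ χ (update w j e) * u (w j) = -s := by
  have hne : χ (update w i e) ≠ 0 := by
    intro h0; rw [h0, zero_mul] at hi; exact hs hi.symm
  obtain ⟨j, hj⟩ := hu.2 (update w i e) (w i) hne
  rw [hi] at hj
  by_cases hji : j = i
  · subst hji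
    left
    rw [update_self, update_idem, update_eq_self] at hj
    exact hj
  · right
    refine ⟨j, hji, ?_⟩
    rw [update_of_ne hji, update_update_swap w (Ne.symm hji) e,
      h.alternating _ i j (Ne.symm hji)] at hj
    rw [← hj]; simp

end Pool.Agent.OM247
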