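import Pool.Agent.OM247.RealBlock

/-!
Biquadratic final polynomials: a list of three term relations whose dominant terms give
inequalities `|D1| |D2| > |D3| |D4|` with the same product on both sides.
-/

namespace Pool.Agent.OM247

/-- the literal `enc a b c d (!m)` is among the false literals `F` -/
noncomputable def known (F a b c d : ℕ) (m : Bool) : Bool :=
  Nat.beq (Nat.land (Nat.shiftRight F (enc a b c d (not m))) (nat_lit 1)) (nat_lit 1)

/-- index of a quadruple, in any order -/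
noncomputable def qi (a b c d : ℕ) : ℕ := Nat.shiftRight (enc a b c d false) (nat_lit 1)

/-- A step `(x, y, a, b, c, d)`, with signs `s, m0, m1, m2`: the products `xyab.xycd` and
`xyac.xybd` have the sign `s`, and `xyad.xybc` has the sign `-s`. -/
noncomputable def stepOK' (F x y a b c d : ℕ) (s m0 m1 m2 : Bool) : Bool :=
  an (Nat.ble (nat_lit 8) x) <| an (Nat.ble (nat_lit 8) y) <| an (Nat.ble (nat_lit 8) a) <|
  an (Nat.ble (nat_lit 8) b) <| an (Nat.ble (nat_lit 8) c) <| an (Nat.ble (nat_lit 8) d) <|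
  an (dist x y) <| an (dist x a) <| an (dist x b) <| an (dist x c) <|
  an (dist x d) <| an (dist y a) <| an (dist y b) <| an (dist y c) <| an (dist y d) <|
  an (dist a b) <| an (dist a c) <| an (dist a d) <| an (dist b c) <| an (dist b d) <|
  an (dist c d) <|
  an (known F x y a b m0) <| an (known F x y c d (xor m0 s)) <|
  an (known F x y a c m1) <| an (known F x y b d (xor m1 s)) <|
  an (known F x y a d m2) (known F x y b c (not (xor m2 s)))

noncomputable def stepOK (F S : ℕ) : Bool :=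
  stepOK' F (fld S 0) (fld S 4) (fld S 8) (fld S 12) (fld S 16) (fld S 20)
    (bitb S 24) (bitb S 25) (bitb S 26) (bitb S 27)

/-- the larger product of a step -/
noncomputable def big (S : ℕ) : List ℕ :=
  [qi (fld S 0) (fld S 4) (fld S 8) (fld S 12), qi (fld S 0) (fld S 4) (fld S 16) (fld S 20)]

/-- the smaller product of a step: bit 28 chooses between the two candidates -/
noncomputable def small (S : ℕ) : List ℕ :=
  @Bool.rec (fun _ => List ℕ)
    [qi (fld S 0) (fld S 4) (fld S 8) (fld S 16), qi (fld S 0) (fld S 4) (fld S 12) (fld S 20)]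
    [qi (fld S 0) (fld S 4) (fld S 8) (fld S 20), qi (fld S 0) (fld S 4) (fld S 12) (fld S 16)]
    (bitb S 28)

lemma known_spec {P : ℕ → ℕ → ℕ → ℕ → SignType} {F a b c d : ℕ} {m : Bool}
    (hF : FInv (litT P) F) (hP : Alt4 P) (hab : a ≠ b) (hac : a ≠ c) (hbc : b ≠ c)
    (had : a ≠ d) (hbd : b ≠ d) (hcd : c ≠ d) (ha : a < 16) (hb : b < 16) (hc : c < 16)
    (hd : d < 16) (hne : P a b c d ≠ 0) (h : known F a b c d m = true) :
    P a b c d = sg m := by
  unfold known at h
  have h1 : F.testBit (enc a b c d (not m)) = true := by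
    have h2 : bitb F (enc a b c d (not m)) = true := h
    rwa [bitb_eq] at h2
  have h3 := hF _ h1
  rw [enc_spec hP hab hac hbc had hbd hcd ha hb hc hd] at h3
  exact sg_of_ne hne h3

/-- logarithm of the absolute value of `D` at the quadruple of index `i` -/
noncomputable def lg (D : ℕ → ℕ → ℕ → ℕ → ℝ) (i : ℕ) : ℝ :=
  Real.log |D (dec i % 16) (dec i / 16 % 16) (dec i / 256 % 16) (dec i / 4096 % 16)|

lemma lg_enc0 (D : ℕ → ℕ → ℕ → ℕ → ℝ) {a b c d : ℕ} (h1 : a < b) (h2 : b < c)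
    (h3 : c < d) (h4 : d < 16) (t : Bool) :
    lg D (Nat.shiftRight (enc0 a b c d t) 1) = Real.log |D a b c d| := by
  have he : Nat.shiftLeft (idx a b c d) 1 = 2 * idx a b c d := by
    show idx a b c d <<< 1 = 2 * idx a b c d
    rw [Nat.shiftLeft_eq]; omega
  have h5 : Nat.shiftRight (enc0 a b c d t) 1 = idx a b c d := by
    show enc0 a b c d t >>> 1 = idx a b c d
    rw [Nat.shiftRight_eq_div_pow]
    cases t
    · have : enc0 a b c d false = 2 * idx a b c d := he
      rw [this]; omega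
    · have : enc0 a b c d true = 2 * idx a b c d + 1 := by
        show Nat.shiftLeft (idx a b c d) 1 + 1 = _
        rw [he]
      rw [this]; omega
  rw [h5]
  unfold lg
  rw [dec_idx h1 h2 h3 h4]
  have e1 : (a + 16 * b + 256 * c + 4096 * d) % 16 = a := by omega
  have e2 : (a + 16 * b + 256 * c + 4096 * d) / 16 % 16 = b := by omega
  have e3 : (a + 16 * b + 256 * c + 4096 * d) / 256 % 16 = c := by omega
  have e4 : (a + 16 * b + 256 * c + 4096 * d) / 4096 % 16 = d := by omega
  rw [e1, e2, e3, e4]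

section
variable {D : ℕ → ℕ → ℕ → ℕ → ℝ} (hD : RD D)
include hD

lemma abs01 (a b c d : ℕ) : |D b a c d| = |D a b c d| := by rw [hD.s01, abs_neg]
lemma abs12 (a b c d : ℕ) : |D a c b d| = |D a b c d| := by rw [hD.s12, abs_neg]
lemma abs23 (a b c d : ℕ) : |D a b d c| = |D a b c d| := by rw [hD.s23, abs_neg]

lemma lg_st1 {a b c d : ℕ} (hab : a ≠ b) (hac : a < c) (hbc : b < c) (hcd : c < d)
    (hd : d < 16) (t : Bool) :
    lg D (Nat.shiftRight (st1 a b c d t) 1) = Real.log |D a b c d| := by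
  unfold st1
  rcases Nat.lt_or_gt_of_ne hab with h | h
  · rw [cs_le h.le]
    exact lg_enc0 D h hbc hcd hd t
  · rw [cs_gt h, lg_enc0 D h hac hcd hd, abs01 hD]

lemma lg_st2 {a b c d : ℕ} (hab : a < b) (hac : a ≠ c) (hbc : b ≠ c) (had : a < d)
    (hbd : b < d) (hcd : c < d) (hd : d < 16) (t : Bool) :
    lg D (Nat.shiftRight (st2 a b c d t) 1) = Real.log |D a b c d| := by
  unfold st2
  rcases Nat.lt_or_gt_of_ne hbc with h | h
  · rw [cs_le h.le]
    exact lg_st1 hD (by omega) (by omega) h hcd hd t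
  · rw [cs_gt h, lg_st1 hD (by omega) (by omega) h hbd hd, abs12 hD]

lemma lg_st3 {a b c d : ℕ} (hab : a ≠ b) (hac : a ≠ c) (hbc : b ≠ c) (had : a < d)
    (hbd : b < d) (hcd : c < d) (hd : d < 16) (t : Bool) :
    lg D (Nat.shiftRight (st3 a b c d t) 1) = Real.log |D a b c d| := by
  unfold st3
  rcases Nat.lt_or_gt_of_ne hab with h | h
  · rw [cs_le h.le]
    exact lg_st2 hD h hac hbc had hbd hcd hd t
  · rw [cs_gt h, lg_st2 hD h hbc hac hbd had hcd hd, abs01 hD]

lemma lg_st4 {a b c d : ℕ} (hab : a ≠ b) (hac : a < c) (hbc : b < c) (had : a ≠ d)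
    (hbd : b ≠ d) (hcd : c ≠ d) (hc : c < 16) (hd : d < 16) (t : Bool) :
    lg D (Nat.shiftRight (st4 a b c d t) 1) = Real.log |D a b c d| := by
  unfold st4
  rcases Nat.lt_or_gt_of_ne hcd with h | h
  · rw [cs_le h.le]
    exact lg_st3 hD hab (by omega) (by omega) (by omega) (by omega) h hd t
  · rw [cs_gt h, lg_st3 hD hab had hbd hac hbc h hc, abs23 hD]

lemma lg_st5 {a b c d : ℕ} (hab : a < b) (hac : a ≠ c) (hbc : b ≠ c) (had : a ≠ d)
    (hbd : b ≠ d) (hcd : c ≠ d) (hb : b < 16) (hc : c < 16) (hd : d < 16) (t : Bool) :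
    lg D (Nat.shiftRight (st5 a b c d t) 1) = Real.log |D a b c d| := by
  unfold st5
  rcases Nat.lt_or_gt_of_ne hbc with h | h
  · rw [cs_le h.le]
    exact lg_st4 hD (by omega) (by omega) h had hbd hcd hc hd t
  · rw [cs_gt h, lg_st4 hD hac hab h had hcd hbd hb hd, abs12 hD]

lemma lg_qi {a b c d : ℕ} (hab : a ≠ b) (hac : a ≠ c) (hbc : b ≠ c) (had : a ≠ d)
    (hbd : b ≠ d) (hcd : c ≠ d) (ha : a < 16) (hb : b < 16) (hc : c < 16) (hd : d < 16) :
    lg D (qi a b c d) = Real.log |D a b c d| := by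
  unfold qi enc
  rcases Nat.lt_or_gt_of_ne hab with h | h
  · rw [cs_le h.le]
    exact lg_st5 hD h hac hbc had hbd hcd hb hc hd _
  · rw [cs_gt h, lg_st5 hD h hbc hac hbd had hcd ha hc hd, abs01 hD]

end

lemma abs_of_sg {x : ℝ} {m : Bool} (h : SignType.sign x = sg m) : x = sgR m * |x| := by
  cases m
  · have h1 : 0 < x := sign_eq_one_iff.mp h
    show x = 1 * |x|
    rw [abs_of_pos h1, one_mul]
  · have h1 : x < 0 := sign_eq_neg_one_iff.mp h
    show x = -1 * |x|
    rw [abs_of_neg h1]; ring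

lemma ineq_aux (s m0 m1 m2 : Bool) (p p' q q' r r' : ℝ) (hq : 0 < q * q') (hr : 0 < r * r')
    (h : (sgR m0 * p) * (sgR (xor m0 s) * p') - (sgR m1 * q) * (sgR (xor m1 s) * q') +
      (sgR m2 * r) * (sgR (not (xor m2 s)) * r') = 0) :
    q * q' < p * p' ∧ r * r' < p * p' := by
  have e : ∀ t : Bool, sgR t * sgR t = 1 := by
    intro t
    cases t
    · show (1 : ℝ) * 1 = 1
      norm_num
    · show (-1 : ℝ) * -1 = 1
      norm_num
  have ex : ∀ t u : Bool, sgR (xor t u) = sgR t * sgR u := by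
    intro t u
    cases t <;> cases u <;> simp [sgR]
  have en : ∀ t : Bool, sgR (not t) = - sgR t := by
    intro t
    cases t <;> simp [sgR]
  rw [en, ex, ex, ex] at h
  have h2 : sgR s * ((sgR m0 * sgR m0) * (p * p') - (sgR m1 * sgR m1) * (q * q') -
      (sgR m2 * sgR m2) * (r * r')) = 0 := by
    rw [← h]; ring
  rw [e, e, e] at h2
  rcases mul_eq_zero.mp h2 with h3 | h3
  · exact absurd h3 (sgR_ne s)
  · constructor <;> linarith

lemma stepOK_sound {D : ℕ → ℕ → ℕ → ℕ → ℝ} (hD : RD D) {F S : ℕ}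
    (hF : FInv (litT (sD D)) F) (h : stepOK F S = true) :
    ((small S).map (lg D)).sum < ((big S).map (lg D)).sum := by
  have hx := fld_lt S 0
  have hy := fld_lt S 4
  have ha := fld_lt S 8
  have hb := fld_lt S 12
  have hc := fld_lt S 16
  have hd := fld_lt S 20
  unfold stepOK at h
  unfold small big
  generalize fld S 0 = x at h hx ⊢
  generalize fld S 4 = y at h hy ⊢
  generalize fld S 8 = a at h ha ⊢
  generalize fld S 12 = b at h hb ⊢
  generalize fld S 16 = c at h hc ⊢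
  generalize fld S 20 = d at h hd ⊢
  generalize bitb S 24 = s at h
  generalize bitb S 25 = m0 at h
  generalize bitb S 26 = m1 at h
  generalize bitb S 27 = m2 at h
  unfold stepOK' at h
  obtain ⟨px, h⟩ := an_spec h
  obtain ⟨py, h⟩ := an_spec h
  obtain ⟨pa, h⟩ := an_spec h
  obtain ⟨pb, h⟩ := an_spec h
  obtain ⟨pc, h⟩ := an_spec h
  obtain ⟨pd, h⟩ := an_spec h
  obtain ⟨g7, h⟩ := an_spec h
  obtain ⟨g8, h⟩ := an_spec h
  obtain ⟨g9, h⟩ := an_spec h
  obtain ⟨g10, h⟩ := an_spec h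
  obtain ⟨g11, h⟩ := an_spec h
  obtain ⟨g12, h⟩ := an_spec h
  obtain ⟨g13, h⟩ := an_spec h
  obtain ⟨g14, h⟩ := an_spec h
  obtain ⟨g15, h⟩ := an_spec h
  obtain ⟨g16, h⟩ := an_spec h
  obtain ⟨g17, h⟩ := an_spec h
  obtain ⟨g18, h⟩ := an_spec h
  obtain ⟨g19, h⟩ := an_spec h
  obtain ⟨g20, h⟩ := an_spec h
  obtain ⟨g21, h⟩ := an_spec h
  obtain ⟨k1, h⟩ := an_spec h
  obtain ⟨k2, h⟩ := an_spec h
  obtain ⟨k3, h⟩ := an_spec h
  obtain ⟨k4, h⟩ := an_spec h
  obtain ⟨k5, k6⟩ := an_spec h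
  replace px : 8 ≤ x := Nat.le_of_ble_eq_true px
  replace py : 8 ≤ y := Nat.le_of_ble_eq_true py
  replace pa : 8 ≤ a := Nat.le_of_ble_eq_true pa
  replace pb : 8 ≤ b := Nat.le_of_ble_eq_true pb
  replace pc : 8 ≤ c := Nat.le_of_ble_eq_true pc
  replace pd : 8 ≤ d := Nat.le_of_ble_eq_true pd
  have xy := dist_spec g7
  have xa := dist_spec g8
  have xb := dist_spec g9
  have xc := dist_spec g10
  have xd := dist_spec g11
  have ya := dist_spec g12
  have yb := dist_spec g13
  have yc := dist_spec g14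
  have yd := dist_spec g15
  have ab := dist_spec g16
  have ac := dist_spec g17
  have ad := dist_spec g18
  have bc := dist_spec g19
  have bd := dist_spec g20
  have cd := dist_spec g21
  have hA := sD_alt hD
  have nz := hD.nz
  have n1 := nz x y a b px py pa pb hx hy ha hb xy xa xb ya yb ab
  have n2 := nz x y c d px py pc pd hx hy hc hd xy xc xd yc yd cd
  have n3 := nz x y a c px py pa pc hx hy ha hc xy xa xc ya yc ac
  have n4 := nz x y b d px py pb pd hx hy hb hd xy xb xd yb yd bd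
  have n5 := nz x y a d px py pa pd hx hy ha hd xy xa xd ya yd ad
  have n6 := nz x y b c px py pb pc hx hy hb hc xy xb xc yb yc bc
  have s1 := abs_of_sg (known_spec hF hA xy xa ya xb yb ab hx hy ha hb (sign_ne_zero' n1) k1)
  have s2 := abs_of_sg (known_spec hF hA xy xc yc xd yd cd hx hy hc hd (sign_ne_zero' n2) k2)
  have s3 := abs_of_sg (known_spec hF hA xy xa ya xc yc ac hx hy ha hc (sign_ne_zero' n3) k3)
  have s4 := abs_of_sg (known_spec hF hA xy xb yb xd yd bd hx hy hb hd (sign_ne_zero' n4) k4)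
  have s5 := abs_of_sg (known_spec hF hA xy xa ya xd yd ad hx hy ha hd (sign_ne_zero' n5) k5)
  have s6 := abs_of_sg (known_spec hF hA xy xb yb xc yc bc hx hy hb hc (sign_ne_zero' n6) k6)
  have hgp := hD.gp x y a b c d
  rw [s1, s2, s3, s4, s5, s6] at hgp
  have a1 := abs_pos.mpr n1
  have a2 := abs_pos.mpr n2
  have a3 := abs_pos.mpr n3
  have a4 := abs_pos.mpr n4
  have a5 := abs_pos.mpr n5
  have a6 := abs_pos.mpr n6
  obtain ⟨i1, i2⟩ := ineq_aux s m0 m1 m2 _ _ _ _ _ _ (mul_pos a3 a4) (mul_pos a5 a6) hgp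
  have l1 := Real.log_lt_log (mul_pos a3 a4) i1
  have l2 := Real.log_lt_log (mul_pos a5 a6) i2
  rw [Real.log_mul a3.ne' a4.ne', Real.log_mul a1.ne' a2.ne'] at l1
  rw [Real.log_mul a5.ne' a6.ne', Real.log_mul a1.ne' a2.ne'] at l2
  cases bitb S 28
  · show ([qi x y a c, qi x y b d].map (lg D)).sum < ([qi x y a b, qi x y c d].map (lg D)).sum
    simp only [List.map_cons, List.map_nil, List.sum_cons, List.sum_nil, add_zero]
    rw [lg_qi hD xy xa ya xc yc ac hx hy ha hc, lg_qi hD xy xb yb xd yd bd hx hy hb hd,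
      lg_qi hD xy xa ya xb yb ab hx hy ha hb, lg_qi hD xy xc yc xd yd cd hx hy hc hd]
    exact l1
  · show ([qi x y a d, qi x y b c].map (lg D)).sum < ([qi x y a b, qi x y c d].map (lg D)).sum
    simp only [List.map_cons, List.map_nil, List.sum_cons, List.sum_nil, add_zero]
    rw [lg_qi hD xy xa ya xd yd ad hx hy ha hd, lg_qi hD xy xb yb xc yc bc hx hy hb hc,
      lg_qi hD xy xa ya xb yb ab hx hy ha hb, lg_qi hD xy xc yc xd yd cd hx hy hc hd]
    exact l2

/-- all steps are correct -/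
noncomputable def stepsOK (F : ℕ) (L : List ℕ) : Bool :=
  @List.rec ℕ (fun _ => Bool) true (fun S _ ih => an (stepOK F S) ih) L

noncomputable def bigs (L : List ℕ) : List ℕ :=
  @List.rec ℕ (fun _ => List ℕ) [] (fun S _ ih => big S ++ ih) L

noncomputable def smalls (L : List ℕ) : List ℕ :=
  @List.rec ℕ (fun _ => List ℕ) [] (fun S _ ih => small S ++ ih) L

lemma steps_sound {D : ℕ → ℕ → ℕ → ℕ → ℝ} (hD : RD D) {F : ℕ}
    (hF : FInv (litT (sD D)) F) : ∀ L : List ℕ, stepsOK F L = true →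
    ((smalls L).map (lg D)).sum ≤ ((bigs L).map (lg D)).sum ∧
      (L ≠ [] → ((smalls L).map (lg D)).sum < ((bigs L).map (lg D)).sum) := by
  intro L
  induction L with
  | nil => intro _; exact ⟨le_refl _, fun h => absurd rfl h⟩
  | cons S L ih =>
    intro h
    have h' : an (stepOK F S) (stepsOK F L) = true := h
    obtain ⟨h1, h2⟩ := an_spec h'
    have h3 := stepOK_sound hD hF h1
    obtain ⟨h4, _⟩ := ih h2
    have e1 : smalls (S :: L) = small S ++ smalls L := rfl
    have e2 : bigs (S :: L) = big S ++ bigs L := rfl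
    have h5 : ((smalls (S :: L)).map (lg D)).sum < ((bigs (S :: L)).map (lg D)).sum := by
      rw [e1, e2, List.map_append, List.map_append, List.sum_append, List.sum_append]
      linarith
    exact ⟨h5.le, fun _ => h5⟩

theorem bfp_false {D : ℕ → ℕ → ℕ → ℕ → ℝ} (hD : RD D) {F : ℕ}
    (hF : FInv (litT (sD D)) F) (L : List ℕ) (h0 : L ≠ []) (h1 : stepsOK F L = true)
    (h2 : (smalls L).Perm (bigs L)) : False := by
  have h3 := (steps_sound hD hF L h1).2 h0
  rw [((h2.map (lg D)).sum_eq)] at h3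
  exact lt_irrefl _ h3

end Pool.Agent.OM247
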