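import Pool.Agent.OM247.Bfp

/-!
The seven reference sign patterns are not realizable.
-/

namespace Pool.Agent.OM247

def steps0 : List ℕ := [65862568, 419350713, 331016648, 131901673, 486394857, 165279978, 249207035, 162445821]

theorem nonreal0 {D : ℕ → ℕ → ℕ → ℕ → ℝ} (hD : RD D) :
    ¬ FInv (litT (sD D)) (seedF quads (rep 0)) := fun hF =>
  bfp_false hD hF steps0 (by decide) (by decide +kernel) (by decide +kernel)

def steps1 : List ℕ := [79678104, 215808424, 419285177, 183302872, 436128729, 399112429]

theorem nonreal1 {D : ℕ → ℕ → ℕ → ℕ → ℝ} (hD : RD D) :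
    ¬ FInv (litT (sD D)) (seedF quads (rep 1)) := fun hF =>
  bfp_false hD hF steps1 (by decide) (by decide +kernel) (by decide +kernel)

def steps2 : List ℕ := [65862568, 419350713, 331016648, 232564969, 436063209, 98171114, 249207035, 78559741]

theorem nonreal2 {D : ℕ → ℕ → ℕ → ℕ → ℝ} (hD : RD D) :
    ¬ FInv (litT (sD D)) (seedF quads (rep 2)) := fun hF =>
  bfp_false hD hF steps2 (by decide) (by decide +kernel) (by decide +kernel)

def steps3 : List ℕ := [467466409, 114219193, 147564761, 368883946, 248158443, 113895674]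

theorem nonreal3 {D : ℕ → ℕ → ℕ → ℕ → ℝ} (hD : RD D) :
    ¬ FInv (litT (sD D)) (seedF quads (rep 3)) := fun hF =>
  bfp_false hD hF steps3 (by decide) (by decide +kernel) (by decide +kernel)

def steps4 : List ℕ := [467658921, 150919353, 183216600, 14465512, 313510121, 201107693, 30333945, 497994237]

theorem nonreal4 {D : ℕ → ℕ → ℕ → ℕ → ℝ} (hD : RD D) :
    ¬ FInv (litT (sD D)) (seedF quads (rep 4)) := fun hF =>
  bfp_false hD hF steps4 (by decide) (by decide +kernel) (by decide +kernel)

def steps5 : List ℕ := [100518057, 30333113, 230353097, 249297609, 184265176, 167557608, 282913784, 43821309]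

theorem nonreal5 {D : ℕ → ℕ → ℕ → ℕ → ℝ} (hD : RD D) :
    ¬ FInv (litT (sD D)) (seedF quads (rep 5)) := fun hF =>
  bfp_false hD hF steps5 (by decide) (by decide +kernel) (by decide +kernel)

def steps6 : List ℕ := [297650840, 315615401, 216902072, 67029209, 530561258, 150706413, 249359099, 62577148]

theorem nonreal6 {D : ℕ → ℕ → ℕ → ℕ → ℝ} (hD : RD D) :
    ¬ FInv (litT (sD D)) (seedF quads (rep 6)) := fun hF =>
  bfp_false hD hF steps6 (by decide) (by decide +kernel) (by decide +kernel)

theorem nonreal {D : ℕ → ℕ → ℕ → ℕ → ℝ} (hD : RD D) (j : ℕ) (hj : j ≤ 6) :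
    ¬ FInv (litT (sD D)) (seedF quads (rep j)) := by
  interval_cases j
  · exact nonreal0 hD
  · exact nonreal1 hD
  · exact nonreal2 hD
  · exact nonreal3 hD
  · exact nonreal4 hD
  · exact nonreal5 hD
  · exact nonreal6 hD

end Pool.Agent.OM247
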