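import Pool.Agent.OM247.TransDefs

/-!
The seven reference sign patterns on the affine points `8, ..., 15`, and the clauses saying that
`P` is not the transform of one of them.
-/

namespace Pool.Agent.OM247

/-- the 70 quadruples `8 ≤ a < b < c < d ≤ 15`, packed -/
def quads : List ℕ := [47768, 51864, 52120, 52136, 52137, 55960, 56216, 56232, 56233, 56472, 56488, 56489, 56504, 56505, 56506, 60056, 60312, 60328, 60329, 60568, 60584, 60585, 60600, 60601, 60602, 60824, 60840, 60841, 60856, 60857, 60858, 60872, 60873, 60874, 60875, 64152, 64408, 64424, 64425, 64664, 64680, 64681, 64696, 64697, 64698, 64920, 64936, 64937, 64952, 64953, 64954, 64968, 64969, 64970, 64971, 65176, 65192, 65193, 65208, 65209, 65210, 65224, 65225, 65226, 65227, 65240, 65241, 65242, 65243, 65244]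

/-- sign patterns of the seven references (bit `i`: sign `-` at the `i`-th quadruple) -/
def rep (j : ℕ) : ℕ :=
  Nat.land (Nat.shiftRight (nat_lit 645556591243992660620981247844725199320308058207024979154734365343791141432559654672359544930631640020547510154645818226597815501592206783430709745936) (Nat.mul (nat_lit 72) j)) (nat_lit 1180591620717411303423)

/-- literals of the clause: `P` is not the transform of the pattern `R` -/
noncomputable def blockLits (c0 c1 c2 c3 w : ℕ) (s : Bool) (qs : List ℕ) : ℕ → List ℕ :=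
  @List.rec ℕ (fun _ => ℕ → List ℕ) (fun _ => [])
    (fun q _ ih R =>
      enc (glin c0 c1 c2 c3 (fld q (nat_lit 0))) (glin c0 c1 c2 c3 (fld q (nat_lit 4)))
        (glin c0 c1 c2 c3 (fld q (nat_lit 8))) (glin c0 c1 c2 c3 (fld q (nat_lit 12)))
        (not (xor (bitb R (nat_lit 0)) (xor s (par4 (Nat.land w
          (Nat.xor (Nat.xor (fld q (nat_lit 0)) (fld q (nat_lit 4)))
            (Nat.xor (fld q (nat_lit 8)) (fld q (nat_lit 12)))))))))
        :: ih (Nat.shiftRight R (nat_lit 1))) qs

/-- false literals, when the pattern on the quadruples `qs` is `R` -/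
noncomputable def seedF (qs : List ℕ) : ℕ → ℕ :=
  @List.rec ℕ (fun _ => ℕ → ℕ) (fun _ => nat_lit 0)
    (fun q _ ih R => Nat.lor (Nat.shiftLeft (nat_lit 1)
      (enc (fld q (nat_lit 0)) (fld q (nat_lit 4)) (fld q (nat_lit 8)) (fld q (nat_lit 12))
        (not (bitb R (nat_lit 0))))) (ih (Nat.shiftRight R (nat_lit 1)))) qs

/-- a packed quadruple of distinct points between `1` and `15` -/
def quadOK (q : ℕ) : Bool :=
  an (dist (fld q 0) (fld q 4)) <| an (dist (fld q 0) (fld q 8)) <|
  an (dist (fld q 4) (fld q 8)) <| an (dist (fld q 0) (fld q 12)) <|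
  an (dist (fld q 4) (fld q 12)) <| an (dist (fld q 8) (fld q 12)) <|
  an (dist (fld q 0) 0) <| an (dist (fld q 4) 0) <| an (dist (fld q 8) 0) (dist (fld q 12) 0)

lemma quads_ok : ∀ q ∈ quads, quadOK q = true := by decide +kernel

/-- all nonzero points have nonzero image -/
noncomputable def nzOK (c0 c1 c2 c3 : ℕ) (n : ℕ) : Bool :=
  @Nat.rec (fun _ => Bool) true
    (fun k ih => an (dist (glin c0 c1 c2 c3 (Nat.succ k)) (nat_lit 0)) ih) n

lemma nzOK_spec (c0 c1 c2 c3 : ℕ) : ∀ n, nzOK c0 c1 c2 c3 n = true →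
    ∀ x, 0 < x → x ≤ n → glin c0 c1 c2 c3 x ≠ 0 := by
  intro n
  induction n with
  | zero => intro _ x h1 h2; omega
  | succ n ih =>
    intro h x h1 h2
    have hdef : nzOK c0 c1 c2 c3 (n + 1) =
      an (dist (glin c0 c1 c2 c3 (Nat.succ n)) 0) (nzOK c0 c1 c2 c3 n) := rfl
    rw [hdef] at h
    obtain ⟨g1, g2⟩ := an_spec h
    by_cases hx : x = n + 1
    · rw [hx]; exact dist_spec g1
    · exact ih g2 x h1 (by omega)

/-- check of a blocking clause with descriptor `D` -/
noncomputable def blockOK (D d' : ℕ) : Bool :=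
  an (nzOK (fld D 0) (fld D 4) (fld D 8) (fld D 12) (nat_lit 15)) <|
  an (Nat.ble (fld D 24) (nat_lit 6)) <|
  matchToks (blockLits (fld D 0) (fld D 4) (fld D 8) (fld D 12) (fld D 16) (bitb D 20) quads
    (rep (fld D 24))) d'

lemma blockLits_false {P : ℕ → ℕ → ℕ → ℕ → SignType} (hP : Good P) {c0 c1 c2 c3 w : ℕ}
    {s : Bool} (hlt : ∀ x, x < 16 → glin c0 c1 c2 c3 x < 16)
    (hinj : ∀ x y, x < 16 → y < 16 → x ≠ y → glin c0 c1 c2 c3 x ≠ glin c0 c1 c2 c3 y)
    (hnz : ∀ x, 0 < x → x < 16 → glin c0 c1 c2 c3 x ≠ 0) :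
    ∀ (qs : List ℕ) (R : ℕ), (∀ q ∈ qs, quadOK q = true) →
      (∀ l ∈ blockLits c0 c1 c2 c3 w s qs R, ¬ litT P l) →
      Alt4 (trans c0 c1 c2 c3 w s P) → FInv (litT (trans c0 c1 c2 c3 w s P)) (seedF qs R) := by
  intro qs
  induction qs with
  | nil =>
    intro R _ _ _ l hl
    exfalso
    have : seedF [] R = 0 := rfl
    rw [this] at hl
    simp at hl
  | cons q qs ih =>
    intro R hq hall hT l hl
    have hdef : seedF (q :: qs) R = Nat.lor (Nat.shiftLeft 1
      (enc (fld q 0) (fld q 4) (fld q 8) (fld q 12) (not (bitb R 0))))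
        (seedF qs (Nat.shiftRight R 1)) := rfl
    have hdef2 : blockLits c0 c1 c2 c3 w s (q :: qs) R =
      enc (glin c0 c1 c2 c3 (fld q 0)) (glin c0 c1 c2 c3 (fld q 4))
        (glin c0 c1 c2 c3 (fld q 8)) (glin c0 c1 c2 c3 (fld q 12))
        (not (xor (bitb R 0) (xor s (par4 (Nat.land w
          (Nat.xor (Nat.xor (fld q 0) (fld q 4))
            (Nat.xor (fld q 8) (fld q 12)))))))) ::
      blockLits c0 c1 c2 c3 w s qs (Nat.shiftRight R 1) := rfl
    rw [hdef] at hl
    rw [hdef2] at hall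
    have hl' : (seedF qs (Nat.shiftRight R 1) ||| (1 <<< (enc (fld q 0) (fld q 4) (fld q 8)
        (fld q 12) (not (bitb R 0))))).testBit l = true := by
      rw [Nat.lor_comm]; exact hl
    rcases testBit_lor_shift _ _ _ hl' with h1 | h1
    · exact ih _ (fun q' hq' => hq q' (List.mem_cons_of_mem _ hq'))
        (fun l' hl' => hall l' (List.mem_cons_of_mem _ hl')) hT l h1
    · rw [h1]
      have hqq := hq q List.mem_cons_self
      unfold quadOK at hqq
      obtain ⟨g1, hqq⟩ := an_spec hqq
      obtain ⟨g2, hqq⟩ := an_spec hqq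
      obtain ⟨g3, hqq⟩ := an_spec hqq
      obtain ⟨g4, hqq⟩ := an_spec hqq
      obtain ⟨g5, hqq⟩ := an_spec hqq
      obtain ⟨g6, hqq⟩ := an_spec hqq
      obtain ⟨g7, hqq⟩ := an_spec hqq
      obtain ⟨g8, hqq⟩ := an_spec hqq
      obtain ⟨g9, g10⟩ := an_spec hqq
      have ab := dist_spec g1
      have ac := dist_spec g2
      have bc := dist_spec g3
      have ad := dist_spec g4
      have bd := dist_spec g5
      have cd := dist_spec g6
      have a0 := Nat.pos_of_ne_zero (dist_spec g7)
      have b0 := Nat.pos_of_ne_zero (dist_spec g8)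
      have c0' := Nat.pos_of_ne_zero (dist_spec g9)
      have d0 := Nat.pos_of_ne_zero (dist_spec g10)
      have ha := fld_lt q 0
      have hb := fld_lt q 4
      have hc := fld_lt q 8
      have hd := fld_lt q 12
      rw [enc_spec hT ab ac bc ad bd cd ha hb hc hd]
      have h2 := hall _ List.mem_cons_self
      rw [enc_spec hP.toAlt4 (hinj _ _ ha hb ab) (hinj _ _ ha hc ac) (hinj _ _ hb hc bc)
        (hinj _ _ ha hd ad) (hinj _ _ hb hd bd) (hinj _ _ hc hd cd) (hlt _ ha) (hlt _ hb)
        (hlt _ hc) (hlt _ hd)] at h2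
      have hne : P (glin c0 c1 c2 c3 (fld q 0)) (glin c0 c1 c2 c3 (fld q 4))
        (glin c0 c1 c2 c3 (fld q 8)) (glin c0 c1 c2 c3 (fld q 12)) ≠ 0 := by
        apply hP.nz
        · exact Nat.pos_of_ne_zero (hnz _ a0 ha)
        · exact Nat.pos_of_ne_zero (hnz _ b0 hb)
        · exact Nat.pos_of_ne_zero (hnz _ c0' hc)
        · exact Nat.pos_of_ne_zero (hnz _ d0 hd)
        · exact hlt _ ha
        · exact hlt _ hb
        · exact hlt _ hc
        · exact hlt _ hd
        · exact hinj _ _ ha hb ab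
        · exact hinj _ _ ha hc ac
        · exact hinj _ _ ha hd ad
        · exact hinj _ _ hb hc bc
        · exact hinj _ _ hb hd bd
        · exact hinj _ _ hc hd cd
      have h3 := sg_of_ne hne h2
      unfold trans
      rw [h3, sg_mul]
      generalize par4 (Nat.land w (Nat.xor (Nat.xor (fld q 0) (fld q 4))
        (Nat.xor (fld q 8) (fld q 12)))) = t
      generalize bitb R 0 = r
      cases s <;> cases t <;> cases r <;> decide

end Pool.Agent.OM247
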