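import Pool.Agent.OM247.Orig
import Pool.Agent.OM247.Block

namespace Pool.Agent.OM247

/-- check of an input clause of the classification -/
noncomputable def origOKB (D d' : ℕ) : Bool :=
  @Bool.rec (fun _ => Bool) (origOK D d') (blockOK D d') (bitb D (nat_lit 29))

/-- check the input clauses `lo, ..., lo + cnt - 1` -/
noncomputable def okOrigB (t dt : Tr) (lo cnt : ℕ) : Bool :=
  @Nat.rec (fun _ => Bool) true
    (fun k ih => @Bool.rec (fun _ => Bool) false ih
      (origOKB (dt.get (Nat.add lo k)) (t.get (Nat.add lo k)))) cnt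

lemma okOrigB_spec (t dt : Tr) (lo : ℕ) : ∀ cnt, okOrigB t dt lo cnt = true →
    ∀ i, lo ≤ i → i < lo + cnt → origOKB (dt.get i) (t.get i) = true := by
  intro cnt
  induction cnt with
  | zero => intro _ i h1 h2; omega
  | succ k ih =>
    intro h i h1 h2
    have hdef : okOrigB t dt lo (k + 1) =
      @Bool.rec (fun _ => Bool) false (okOrigB t dt lo k)
        (origOKB (dt.get (lo + k)) (t.get (lo + k))) := rfl
    rw [hdef] at h
    by_cases h3 : origOKB (dt.get (lo + k)) (t.get (lo + k)) = true
    · rw [h3] at h
      by_cases h4 : i = lo + k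
      · rw [h4]; exact h3
      · exact ih h i h1 (by omega)
    · rw [Bool.not_eq_true] at h3
      rw [h3] at h
      exact absurd h (by show ¬ (false = true); decide)

/-- the literals `P 8 9 10 11 = -1`, ... of the four gauge quadruples -/
noncomputable def gaugeF : ℕ :=
  Nat.lor (Nat.lor (Nat.shiftLeft (nat_lit 1) (enc (nat_lit 8) (nat_lit 9) (nat_lit 10)
    (nat_lit 11) true)) (Nat.shiftLeft (nat_lit 1) (enc (nat_lit 8) (nat_lit 9) (nat_lit 10)
    (nat_lit 12) true))) (Nat.lor (Nat.shiftLeft (nat_lit 1) (enc (nat_lit 8) (nat_lit 9)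
    (nat_lit 11) (nat_lit 12) true)) (Nat.shiftLeft (nat_lit 1) (enc (nat_lit 8) (nat_lit 10)
    (nat_lit 11) (nat_lit 12) true)))

lemma gaugeF_inv {P : ℕ → ℕ → ℕ → ℕ → SignType} (hP : Alt4 P) (h1 : P 8 9 10 11 = 1)
    (h2 : P 8 9 10 12 = 1) (h3 : P 8 9 11 12 = 1) (h4 : P 8 10 11 12 = 1) :
    FInv (litT P) gaugeF := by
  intro l hl
  have hl' : ((((1 <<< (enc 8 9 10 11 true)) ||| (1 <<< (enc 8 9 10 12 true))) |||
    ((1 <<< (enc 8 9 11 12 true)) ||| (1 <<< (enc 8 10 11 12 true)))) : ℕ).testBit l = true := hl
  have key : ∀ m : ℕ, (1 <<< m : ℕ).testBit l = true → l = m := by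
    intro m hm
    have := testBit_lor_shift 0 m l (by
      show (0 ||| (1 <<< m)).testBit l = true
      simpa using hm)
    rcases this with h | h
    · simp at h
    · exact h
  rw [Nat.testBit_or, Nat.testBit_or, Nat.testBit_or, Bool.or_eq_true, Bool.or_eq_true,
    Bool.or_eq_true] at hl'
  rcases hl' with (h | h) | (h | h)
  · rw [key _ h, enc_spec hP (by decide) (by decide) (by decide) (by decide) (by decide)
      (by decide) (by decide) (by decide) (by decide) (by decide), h1]
    decide
  · rw [key _ h, enc_spec hP (by decide) (by decide) (by decide) (by decide) (by decide)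
      (by decide) (by decide) (by decide) (by decide) (by decide), h2]
    decide
  · rw [key _ h, enc_spec hP (by decide) (by decide) (by decide) (by decide) (by decide)
      (by decide) (by decide) (by decide) (by decide) (by decide), h3]
    decide
  · rw [key _ h, enc_spec hP (by decide) (by decide) (by decide) (by decide) (by decide)
      (by decide) (by decide) (by decide) (by decide) (by decide), h4]
    decide

end Pool.Agent.OM247
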