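import Pool.Agent.OM247.GoodTrans
import Pool.Agent.OM247.OrigB

namespace Pool.Agent.OM247

lemma blockLits_length (c0 c1 c2 c3 w : ℕ) (s : Bool) : ∀ (qs : List ℕ) (R : ℕ),
    (blockLits c0 c1 c2 c3 w s qs R).length = qs.length := by
  intro qs
  induction qs with
  | nil => intro R; rfl
  | cons q qs ih =>
    intro R
    have h : blockLits c0 c1 c2 c3 w s (q :: qs) R =
      enc (glin c0 c1 c2 c3 (fld q 0)) (glin c0 c1 c2 c3 (fld q 4))
        (glin c0 c1 c2 c3 (fld q 8)) (glin c0 c1 c2 c3 (fld q 12))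
        (not (xor (bitb R 0) (xor s (par4 (Nat.land w
          (Nat.xor (Nat.xor (fld q 0) (fld q 4))
            (Nat.xor (fld q 8) (fld q 12)))))))) ::
      blockLits c0 c1 c2 c3 w s qs (Nat.shiftRight R 1) := rfl
    rw [h, List.length_cons, List.length_cons, ih]

lemma quads_length : quads.length = 70 := by decide +kernel

theorem blockOK_sound {P : ℕ → ℕ → ℕ → ℕ → SignType} (hP : Good P)
    (H : ∀ P', Good P' → ∀ j, j ≤ 6 → ¬ FInv (litT P') (seedF quads (rep j))) {D d' : ℕ}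
    (h : blockOK D d' = true) : ClauseT (litT P) d' := by
  unfold blockOK at h
  obtain ⟨g1, h⟩ := an_spec h
  obtain ⟨g2, h⟩ := an_spec h
  have hnz : ∀ x, 0 < x → x < 16 → glin (fld D 0) (fld D 4) (fld D 8) (fld D 12) x ≠ 0 :=
    fun x h1 h2 => nzOK_spec _ _ _ _ 15 g1 x h1 (by omega)
  have hG := good_trans hP (fld_lt D 0) (fld_lt D 4) (fld_lt D 8) (fld_lt D 12) (fld_lt D 16)
    (bitb D 20) hnz
  by_contra hcon
  apply H _ hG (fld D 24) (Nat.le_of_ble_eq_true g2)
  apply blockLits_false hP (fun x _ => glin_lt' (fld_lt D 0) (fld_lt D 4) (fld_lt D 8)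
    (fld_lt D 12) x) (fun x y hx hy hxy => glin_inj' hnz hx hy hxy) hnz quads _ quads_ok ?_
    hG.toAlt4
  intro l hl hT
  apply hcon
  refine ⟨l, ?_, hT⟩
  rw [matchToks_spec _ d' 100 (by rw [blockLits_length, quads_length]; decide) h]
  exact hl

theorem origOKB_sound {P : ℕ → ℕ → ℕ → ℕ → SignType} (hP : Good P)
    (H : ∀ P', Good P' → ∀ j, j ≤ 6 → ¬ FInv (litT P') (seedF quads (rep j))) {D d' : ℕ}
    (h : origOKB D d' = true) : ClauseT (litT P) d' := by
  unfold origOKB at h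
  cases hb : bitb D 29
  · rw [hb] at h
    exact origOK_sound hP h
  · rw [hb] at h
    exact blockOK_sound hP H h

end Pool.Agent.OM247
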