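import Pool.Agent.OM247.Defs

/-!
A small clausal proof checker, evaluated by the kernel.
Literals `l`: variable `l / 2`, sign `l % 2`.  A clause is a packed list of 12 bit tokens
`l + 1`, ended by a zero token.
-/

namespace Pool.Agent.OM247

/-- binary tree of chunks; a chunk holds 32 entries, at the bit offsets given by the 20 bit
fields of `off` inside `dat` -/
inductive Tr where
  | lf (off dat : ℕ)
  | nd (l r : Tr)

/-- entry `s` (`s < 32`) of the chunk number `i` -/
noncomputable def Tr.fetch (t : Tr) : ℕ → ℕ → ℕ :=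
  @Tr.rec (fun _ => ℕ → ℕ → ℕ)
    (fun off dat _ s =>
      Nat.shiftRight dat (Nat.land (Nat.shiftRight off (Nat.mul s (nat_lit 20)))
        (nat_lit 1048575)))
    (fun _ _ gl gr i s =>
      @Bool.rec (fun _ => ℕ) (gr (Nat.shiftRight i (nat_lit 1)) s)
        (gl (Nat.shiftRight i (nat_lit 1)) s)
        (Nat.beq (Nat.land i (nat_lit 1)) (nat_lit 0))) t

/-- entry number `i` of the table -/
noncomputable def Tr.get (t : Tr) (i : ℕ) : ℕ :=
  t.fetch (Nat.shiftRight i (nat_lit 5)) (Nat.land i (nat_lit 31))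

/-- the literals of a packed clause, at most `k` -/
noncomputable def toks (k : ℕ) : ℕ → List ℕ :=
  @Nat.rec (fun _ => ℕ → List ℕ) (fun _ => [])
    (fun _ ih d => @Bool.rec (fun _ => List ℕ)
      (Nat.sub (Nat.land d (nat_lit 4095)) (nat_lit 1) :: ih (Nat.shiftRight d (nat_lit 12)))
      [] (Nat.beq (Nat.land d (nat_lit 4095)) (nat_lit 0))) k

/-- Scan a clause under the set `F` of false literals: `0` if all are false, `l + 2` if exactly
`l` is not false, `1` otherwise. -/
noncomputable def scan (k : ℕ) : ℕ → ℕ → ℕ → ℕ :=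
  @Nat.rec (fun _ => ℕ → ℕ → ℕ → ℕ) (fun _ _ _ => nat_lit 1)
    (fun _ ih d F acc =>
      @Bool.rec (fun _ => ℕ)
        (@Bool.rec (fun _ => ℕ)
          (ih (Nat.shiftRight d (nat_lit 12)) F acc)
          (@Bool.rec (fun _ => ℕ) (nat_lit 1)
            (ih (Nat.shiftRight d (nat_lit 12)) F (Nat.succ (Nat.land d (nat_lit 4095))))
            (Nat.beq acc (nat_lit 0)))
          (Nat.beq (Nat.land (Nat.shiftRight F (Nat.sub (Nat.land d (nat_lit 4095)) (nat_lit 1)))
            (nat_lit 1)) (nat_lit 0)))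
        acc (Nat.beq (Nat.land d (nat_lit 4095)) (nat_lit 0))) k

/-- add the literals of the clause `d` to `F` -/
noncomputable def addNeg (k : ℕ) : ℕ → ℕ → ℕ :=
  @Nat.rec (fun _ => ℕ → ℕ → ℕ) (fun _ F => F)
    (fun _ ih d F =>
      @Bool.rec (fun _ => ℕ)
        (ih (Nat.shiftRight d (nat_lit 12))
          (Nat.lor F (Nat.shiftLeft (nat_lit 1)
            (Nat.sub (Nat.land d (nat_lit 4095)) (nat_lit 1)))))
        F (Nat.beq (Nat.land d (nat_lit 4095)) (nat_lit 0))) k

/-- propagate along the hints `H` (16 bit fields `index + 1`) -/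
noncomputable def loop (t : Tr) (i : ℕ) (k : ℕ) : ℕ → ℕ → Bool :=
  @Nat.rec (fun _ => ℕ → ℕ → Bool) (fun _ _ => false)
    (fun _ ih H F =>
      @Bool.rec (fun _ => Bool)
        (@Bool.rec (fun _ => Bool) false
          (@Nat.rec (fun _ => Bool) true
            (fun m _ => @Nat.rec (fun _ => Bool) false
              (fun l _ => ih (Nat.shiftRight H (nat_lit 16))
                (Nat.lor F (Nat.shiftLeft (nat_lit 1) (Nat.xor l (nat_lit 1))))) m)
            (scan (nat_lit 100) (t.get (Nat.sub (Nat.land H (nat_lit 65535)) (nat_lit 1))) F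
              (nat_lit 0)))
          (Nat.ble (Nat.land H (nat_lit 65535)) i))
        false (Nat.beq (Nat.land H (nat_lit 65535)) (nat_lit 0))) k

/-- check entry `i` of the table from the earlier ones -/
noncomputable def checkLemma (t ht : Tr) (F0 n0 i : ℕ) : Bool :=
  loop t i (nat_lit 3000) (ht.get (Nat.sub i n0)) (addNeg (nat_lit 100) (t.get i) F0)

/-- check the entries `lo, ..., lo + cnt - 1` -/
noncomputable def okRange (t ht : Tr) (F0 n0 lo : ℕ) (cnt : ℕ) : Bool :=
  @Nat.rec (fun _ => Bool) true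
    (fun k ih => @Bool.rec (fun _ => Bool) false ih (checkLemma t ht F0 n0 (Nat.add lo k))) cnt

end Pool.Agent.OM247
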