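import Mathlib

/-!
Oriented matroids through chirotopes, topes, and the Sylvester Hadamard rows.
-/

namespace Pool.Agent.OM247

/-- `χ` is a chirotope of rank `r` on the ground set `E`: it is not identically zero, it is
alternating, and it has the basis exchange property (B2') of oriented matroids.  An oriented
matroid of rank `r` on `E` is given by such a `χ`, up to a global sign. -/
structure IsChirotope {E : Type} {r : ℕ} (χ : (Fin r → E) → SignType) : Prop where
  nonzero : ∃ x, χ x ≠ 0
  alternating : ∀ (x : Fin r → E) (i j : Fin r), i ≠ j → χ (x ∘ Equiv.swap i j) = -χ x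
  exchange : ∀ (x y : Fin r → E) (k : Fin r), χ x * χ y ≠ 0 →
    ∃ i : Fin r, χ (Function.update x k (y i)) * χ (Function.update y i (x k)) = χ x * χ y

/-- `u` is a nowhere zero sign vector orthogonal to all signed circuits of the oriented matroid
with chirotope `χ`.  The signed circuit of the basis `w` and the element `e` is
`C e = χ w`, `C (w i) = - χ (update w i e)`. -/
def IsTope {E : Type} {r : ℕ} (χ : (Fin r → E) → SignType) (u : E → SignType) : Prop :=
  (∀ e, u e ≠ 0) ∧ ∀ (w : Fin r → E) (e : E), χ w ≠ 0 →
    ∃ i : Fin r, χ (Function.update w i e) * u (w i) = χ w * u e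

/-- Row `a` of the Sylvester Hadamard matrix of order `2 ^ n`, as a sign vector indexed by the
points `x` of `(ZMod 2)^n`: the entry is the sign of `(-1)^(a ⬝ x)`. -/
def hadRow (n : ℕ) (a x : Fin n → ZMod 2) : SignType := if ∑ i, a i * x i = 0 then 1 else -1

/-- There is an oriented matroid of rank `r` on the `2 ^ n` points having all rows of the
Sylvester Hadamard matrix among its topes. -/
def Completes (n r : ℕ) : Prop :=
  ∃ χ : (Fin r → (Fin n → ZMod 2)) → SignType,
    IsChirotope χ ∧ ∀ a : Fin n → ZMod 2, IsTope χ (hadRow n a)

end Pool.Agent.OM247
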