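import Pool.Agent.OM247.Defs

/-!
Uniform chirotopes from the three term relations.
-/

set_option autoImplicit false

open Function

namespace Pool.Agent.OM247.TT

variable {E : Type}

/-- alternating -/
def Alt {r : ℕ} (χ : (Fin r → E) → SignType) : Prop :=
  ∀ (x : Fin r → E) (i j : Fin r), i ≠ j → χ (x ∘ Equiv.swap i j) = -χ x

lemma st_neg_ne {a : SignType} (h : a ≠ 0) : -a ≠ 0 := by
  revert a; decide

lemma st_sq {a : SignType} (h : a ≠ 0) : a * a = 1 := by
  revert a; decide

lemma st_cancel {ε a b : SignType} (h : ε ≠ 0) (h1 : ε * a = ε * b) : a = b := by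
  revert ε a b; decide

lemma st_eq_neg {a : SignType} (h : a = -a) : a = 0 := by
  revert a; decide

lemma Alt.perm {r : ℕ} {χ : (Fin r → E) → SignType} (h : Alt χ) (σ : Equiv.Perm (Fin r)) :
    ∃ ε : SignType, ε ≠ 0 ∧ ∀ x, χ (x ∘ σ) = ε * χ x := by
  induction σ using Equiv.Perm.swap_induction_on with
  | one => exact ⟨1, by decide, fun x => by simp⟩
  | swap_mul f i j hij ih =>
    obtain ⟨ε, h1, h2⟩ := ih
    refine ⟨-ε, st_neg_ne h1, fun x => ?_⟩
    have h3 : x ∘ (Equiv.swap i j * f : Equiv.Perm (Fin r)) = (x ∘ Equiv.swap i j) ∘ f := rfl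
    rw [h3, h2, h _ _ _ hij, mul_neg, neg_mul]

lemma Alt.zero {r : ℕ} {χ : (Fin r → E) → SignType} (h : Alt χ) {x : Fin r → E} {i j : Fin r}
    (hij : i ≠ j) (hx : x i = x j) : χ x = 0 := by
  apply st_eq_neg
  rw [← h x i j hij]
  congr 1
  funext l
  simp only [comp_apply, Equiv.swap_apply_def]
  split_ifs with h1 h2
  · rw [h1, hx]
  · rw [h2, hx]
  · rfl

lemma Alt.inj {r : ℕ} {χ : (Fin r → E) → SignType} (h : Alt χ) {x : Fin r → E} (hx : χ x ≠ 0) :
    Injective x := by
  intro i j hij
  by_contra hne
  exact hx (h.zero hne hij)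

/-- the signs of the circuit on the `r + 1` points `z` -/
def cc {r : ℕ} (χ : (Fin r → E) → SignType) (z : Fin (r + 1) → E) : Fin (r + 1) → SignType :=
  Fin.cases (χ (Fin.tail z)) (fun i => -χ (update (Fin.tail z) i (z 0)))

@[simp] lemma cc_zero {r : ℕ} (χ : (Fin r → E) → SignType) (z : Fin (r + 1) → E) :
    cc χ z 0 = χ (Fin.tail z) := rfl

@[simp] lemma cc_succ {r : ℕ} (χ : (Fin r → E) → SignType) (z : Fin (r + 1) → E) (i : Fin r) :
    cc χ z i.succ = -χ (update (Fin.tail z) i (z 0)) := rfl

lemma cc_swap0 {r : ℕ} {χ : (Fin r → E) → SignType} (h : Alt χ) (z : Fin (r + 1) → E)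
    (j : Fin r) (l : Fin (r + 1)) :
    cc χ (z ∘ Equiv.swap 0 j.succ) l = -cc χ z (Equiv.swap 0 j.succ l) := by
  have h1 : Fin.tail (z ∘ Equiv.swap 0 j.succ) = update (Fin.tail z) j (z 0) := by
    funext p
    by_cases hp : p = j
    · subst hp; simp [Fin.tail]
    · rw [update_of_ne hp]
      simp only [Fin.tail, comp_apply]
      rw [Equiv.swap_apply_of_ne_of_ne (Fin.succ_ne_zero p) (by simpa using hp)]
  have h2 : (z ∘ Equiv.swap 0 j.succ) 0 = z j.succ := by simp
  refine Fin.cases ?_ (fun l => ?_) l
  · rw [cc_zero, h1, Equiv.swap_apply_left, cc_succ, neg_neg]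
  · rw [cc_succ, h1, h2]
    by_cases hl : l = j
    · subst hl
      rw [update_idem, Equiv.swap_apply_right, cc_zero]
      congr 2
      exact update_eq_self l (Fin.tail z)
    · rw [Equiv.swap_apply_of_ne_of_ne (Fin.succ_ne_zero l) (by simpa using hl), cc_succ,
        ← h _ l j hl, neg_neg]
      congr 1
      funext p
      by_cases hp : p = l
      · subst hp
        simp [Ne.symm hl]
      · by_cases hp' : p = j
        · subst hp'
          simp [Fin.tail, Ne.symm hl]
        · simp [update_of_ne, hp, hp', Equiv.swap_apply_of_ne_of_ne]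

lemma cc_swap {r : ℕ} {χ : (Fin r → E) → SignType} (h : Alt χ) (z : Fin (r + 1) → E)
    (i j l : Fin (r + 1)) (hij : i ≠ j) :
    cc χ (z ∘ Equiv.swap i j) l = -cc χ z (Equiv.swap i j l) := by
  revert hij l
  refine Fin.cases ?_ (fun i => ?_) i
  · refine Fin.cases ?_ (fun j => ?_) j
    · intro l h0; exact absurd rfl h0
    · intro l _; exact cc_swap0 h z j l
  · refine Fin.cases ?_ (fun j => ?_) j
    · intro l _
      rw [Equiv.swap_comm]
      exact cc_swap0 h z i l
    · intro l hij
      have hij' : i ≠ j := fun h => hij (by rw [h])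
      have h1 : Fin.tail (z ∘ Equiv.swap i.succ j.succ) = Fin.tail z ∘ Equiv.swap i j := by
        funext p
        simp only [Fin.tail, comp_apply, Equiv.swap_apply_def, Fin.succ_inj]
        split_ifs <;> rfl
      have h2 : (z ∘ Equiv.swap i.succ j.succ) 0 = z 0 := by
        rw [comp_apply, Equiv.swap_apply_of_ne_of_ne (Fin.succ_ne_zero i).symm
          (Fin.succ_ne_zero j).symm]
      refine Fin.cases ?_ (fun l => ?_) l
      · rw [cc_zero, h1, h _ _ _ hij', Equiv.swap_apply_of_ne_of_ne (Fin.succ_ne_zero i).symm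
          (Fin.succ_ne_zero j).symm, cc_zero]
      · have h3 : Equiv.swap i.succ j.succ l.succ = (Equiv.swap i j l).succ := by
          simp only [Equiv.swap_apply_def, Fin.succ_inj]
          split_ifs <;> rfl
        rw [cc_succ, h1, h2, h3, cc_succ, neg_inj, ← h _ i j hij']
        congr 1
        funext p
        rw [comp_apply]
        by_cases hp : p = l
        · subst hp; simp
        · rw [update_of_ne hp, update_of_ne (by simpa using hp), comp_apply]

lemma cc_perm {r : ℕ} {χ : (Fin r → E) → SignType} (h : Alt χ) (σ : Equiv.Perm (Fin (r + 1))) :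
    ∃ ε : SignType, ε ≠ 0 ∧ ∀ z l, cc χ (z ∘ σ) l = ε * cc χ z (σ l) := by
  induction σ using Equiv.Perm.swap_induction_on with
  | one => exact ⟨1, by decide, fun z l => by simp⟩
  | swap_mul f i j hij ih =>
    obtain ⟨ε, h1, h2⟩ := ih
    refine ⟨-ε, st_neg_ne h1, fun z l => ?_⟩
    have h3 : z ∘ (Equiv.swap i j * f : Equiv.Perm (Fin (r + 1))) =
      (z ∘ Equiv.swap i j) ∘ f := rfl
    rw [h3, h2, cc_swap h _ _ _ _ hij, mul_neg, neg_mul]
    rfl

lemma cc_update_self {r : ℕ} (χ : (Fin r → E) → SignType) (h : Alt χ) (z : Fin (r + 1) → E)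
    (i : Fin (r + 1)) (y : E) : cc χ (update z i y) i = cc χ z i := by
  have key : ∀ z : Fin (r + 1) → E, cc χ (update z 0 y) 0 = cc χ z 0 := by
    intro z
    rw [cc_zero, cc_zero, Fin.tail_update_zero]
  obtain ⟨ε, h1, h2⟩ := cc_perm h (Equiv.swap 0 i)
  have h3 : update z i y ∘ Equiv.swap 0 i = update (z ∘ Equiv.swap 0 i) 0 y := by
    rw [update_comp_equiv]
    simp
  have h4 := h2 (update z i y) 0
  have h5 := h2 z 0
  rw [h3, key, Equiv.swap_apply_left] at h4
  rw [Equiv.swap_apply_left] at h5
  rw [h5] at h4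
  exact (st_cancel h1 h4).symm

lemma cc_update_comm {r : ℕ} (χ : (Fin r → E) → SignType) (h : Alt χ) (z : Fin (r + 1) → E)
    (i j : Fin (r + 1)) (hij : i ≠ j) (y : E) :
    cc χ (update z i y) j = -cc χ (update z j y) i := by
  have h1 : update z i y ∘ Equiv.swap i j = update (update z j y) i (z j) := by
    funext p
    rw [comp_apply]
    by_cases hp : p = i
    · subst hp
      rw [Equiv.swap_apply_left, update_of_ne hij.symm, update_self]
    · by_cases hp' : p = j
      · subst hp'
        rw [Equiv.swap_apply_right, update_self, update_of_ne hij.symm, update_self]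
      · rw [Equiv.swap_apply_of_ne_of_ne hp hp', update_of_ne hp, update_of_ne hp,
          update_of_ne hp']
  have h2 := cc_swap h (update z i y) i j i hij
  rw [h1, cc_update_self χ h, Equiv.swap_apply_left] at h2
  rw [h2, neg_neg]

lemma exists_perm_extend {α : Type} [Fintype α] [DecidableEq α] (s : Finset α) (f : α → α)
    (hf : Set.InjOn f s) : ∃ σ : Equiv.Perm α, ∀ i ∈ s, σ i = f i := by
  obtain ⟨g, hg⟩ := Finset.exists_equiv_extend_of_card_eq (α := α) (t := (Finset.univ : Finset α))
    (by simp) (s := s) (f := f) (by simp) hf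
  refine ⟨g.trans (Equiv.subtypeUnivEquiv (fun x => Finset.mem_univ x)), fun i hi => ?_⟩
  exact hg i hi

/-- the three term relations -/
def Three {r : ℕ} (χ : (Fin (r + 2) → E) → SignType) : Prop :=
  ∀ (v : Fin r → E) (a b c d : E),
    Injective (Fin.cons a (Fin.cons b (Fin.cons c (Fin.cons d v))) : Fin (r + 4) → E) →
    ∀ s : SignType, s ≠ 0 →
    ¬ (χ (Fin.cons a (Fin.cons b v)) * χ (Fin.cons c (Fin.cons d v)) = s ∧
      -(χ (Fin.cons a (Fin.cons c v)) * χ (Fin.cons b (Fin.cons d v))) = s ∧
      χ (Fin.cons a (Fin.cons d v)) * χ (Fin.cons b (Fin.cons c v)) = s)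

lemma cc_c0 {r : ℕ} (χ : (Fin (r + 2) → E) → SignType) (v : Fin r → E) (a b c : E) :
    cc χ (Fin.cons a (Fin.cons b (Fin.cons c v))) 0 = χ (Fin.cons b (Fin.cons c v)) := rfl

lemma cc_c1 {r : ℕ} (χ : (Fin (r + 2) → E) → SignType) (v : Fin r → E) (a b c : E) :
    cc χ (Fin.cons a (Fin.cons b (Fin.cons c v))) 1 = -χ (Fin.cons a (Fin.cons c v)) := by
  have h1 : (1 : Fin (r + 3)) = (0 : Fin (r + 2)).succ := rfl
  rw [h1, cc_succ]
  congr 2
  funext p
  refine Fin.cases ?_ (fun p => ?_) p
  · rfl
  · rw [update_of_ne (Fin.succ_ne_zero p)]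
    rfl

lemma cc_c2 {r : ℕ} (χ : (Fin (r + 2) → E) → SignType) (v : Fin r → E) (a b c : E) :
    cc χ (Fin.cons a (Fin.cons b (Fin.cons c v))) 2 = -χ (Fin.cons b (Fin.cons a v)) := by
  have h1 : (2 : Fin (r + 3)) = (1 : Fin (r + 2)).succ := rfl
  rw [h1, cc_succ]
  congr 2
  funext p
  refine Fin.cases ?_ (fun p => ?_) p
  · rw [update_of_ne (by simp)]
    rfl
  · refine Fin.cases ?_ (fun p => ?_) p
    · have h2 : (Fin.succ 0 : Fin (r + 2)) = 1 := rfl
      rw [h2, update_self]
      rfl
    · rw [update_of_ne]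
      · rfl
      · intro h
        have := congrArg Fin.val h
        simp at this

lemma nc0 {r : ℕ} {χ : (Fin (r + 2) → E) → SignType} (h : Alt χ) (h3 : Three χ)
    (v : Fin r → E) (z0 z1 z2 y : E)
    (hin : Injective (Fin.cons z1 (Fin.cons z2 (Fin.cons y (Fin.cons z0 v))) : Fin (r + 4) → E))
    (s : SignType) (hs : s ≠ 0) :
    ¬ (cc χ (Fin.cons z0 (Fin.cons z1 (Fin.cons z2 v))) 0 *
        cc χ (Fin.cons z0 (Fin.cons y (Fin.cons z2 v))) 2 = s ∧
      -(cc χ (Fin.cons z0 (Fin.cons z1 (Fin.cons z2 v))) 1 *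
        cc χ (Fin.cons y (Fin.cons z1 (Fin.cons z2 v))) 2) = s ∧
      cc χ (Fin.cons z0 (Fin.cons z1 (Fin.cons z2 v))) 2 *
        cc χ (Fin.cons y (Fin.cons z1 (Fin.cons z2 v))) 1 = s) := by
  have hsw : ∀ a b : E, χ (Fin.cons a (Fin.cons b v)) = -χ (Fin.cons b (Fin.cons a v)) := by
    intro a b
    rw [← h _ 0 1 (by simp)]
    congr 1
    funext p
    refine Fin.cases ?_ (fun p => ?_) p
    · simp
    · refine Fin.cases ?_ (fun p => ?_) p
      · have h2 : (Fin.succ 0 : Fin (r + 2)) = 1 := rfl
        rw [h2]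
        simp
      · rw [comp_apply, Equiv.swap_apply_of_ne_of_ne]
        · rfl
        · simp
        · intro h
          have := congrArg Fin.val h
          simp at this
  have h4 := h3 v z1 z2 y z0 hin (-s) (st_neg_ne hs)
  simp only [cc_c0, cc_c1, cc_c2]
  rintro ⟨g1, g2, g3⟩
  apply h4
  refine ⟨?_, ?_, ?_⟩
  · rw [← g1, mul_neg, neg_neg]
  · rw [← g2, hsw z2 z0, neg_mul_neg, mul_neg, neg_neg, neg_neg, mul_comm]
  · rw [← g3, hsw z2 y, neg_mul_neg, mul_neg]

lemma cc_ne_zero {r : ℕ} {χ : (Fin r → E) → SignType}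
    (nz : ∀ x, Injective x → χ x ≠ 0) (z : Fin (r + 1) → E) (hz : Injective z)
    (i : Fin (r + 1)) : cc χ z i ≠ 0 := by
  have ht : Injective (Fin.tail z) := fun a b hab => Fin.succ_injective _ (hz hab)
  refine Fin.cases ?_ (fun i => ?_) i
  · exact nz _ ht
  · rw [cc_succ]
    apply st_neg_ne
    apply nz
    intro a b hab
    by_cases ha : a = i
    · by_cases hb : b = i
      · rw [ha, hb]
      · exfalso
        rw [ha, update_self, update_of_ne hb] at hab
        exact Fin.succ_ne_zero b (hz hab).symm
    · by_cases hb : b = i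
      · exfalso
        rw [hb, update_self, update_of_ne ha] at hab
        exact Fin.succ_ne_zero a (hz hab)
      · rw [update_of_ne ha, update_of_ne hb] at hab
        exact ht hab

lemma update_inj {α : Type} [DecidableEq α] {z : α → E} (hz : Injective z) {i : α} {y : E}
    (hy : ∀ j, j ≠ i → z j ≠ y) : Injective (update z i y) := by
  intro a b hab
  by_cases ha : a = i
  · by_cases hb : b = i
    · rw [ha, hb]
    · exfalso
      rw [ha, update_self, update_of_ne hb] at hab
      exact hy b hb hab.symm
  · by_cases hb : b = i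
    · exfalso
      rw [hb, update_self, update_of_ne ha] at hab
      exact hy a ha hab
    · rw [update_of_ne ha, update_of_ne hb] at hab
      exact hz hab

lemma nc {r : ℕ} {χ : (Fin (r + 2) → E) → SignType} (h : Alt χ) (h3 : Three χ)
    (z : Fin (r + 3) → E) (hz : Injective z) (y : E) (hy : ∀ j, z j ≠ y)
    (i j l : Fin (r + 3)) (hij : i ≠ j) (hil : i ≠ l) (hjl : j ≠ l)
    (s : SignType) (hs : s ≠ 0) :
    ¬ (cc χ z i * cc χ (update z j y) l = s ∧ -(cc χ z j * cc χ (update z i y) l) = s ∧
      cc χ z l * cc χ (update z i y) j = s) := by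
  have h01 : (0 : Fin (r + 3)) ≠ 1 := by simp
  have h02 : (0 : Fin (r + 3)) ≠ 2 := by
    intro h
    have := congrArg Fin.val h
    rw [Fin.val_two] at this
    simp at this
  have h12 : (1 : Fin (r + 3)) ≠ 2 := by
    intro h
    have := congrArg Fin.val h
    rw [Fin.val_two] at this
    simp at this
  obtain ⟨σ, hσ⟩ := exists_perm_extend ({0, 1, 2} : Finset (Fin (r + 3)))
    (fun p => if p = 0 then i else if p = 1 then j else l) (by
      intro p hp q hq hpq
      simp only [Finset.coe_insert, Finset.coe_singleton, Set.mem_insert_iff,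
        Set.mem_singleton_iff] at hp hq
      rcases hp with rfl | rfl | rfl <;> rcases hq with rfl | rfl | rfl <;>
        simp [h01.symm, h02.symm, h12.symm, hij, hil, hjl, hij.symm, hil.symm, hjl.symm] at hpq ⊢)
  have hσ0 : σ 0 = i := by rw [hσ 0 (by simp)]; simp
  have hσ1 : σ 1 = j := by rw [hσ 1 (by simp)]; simp
  have hσ2 : σ 2 = l := by rw [hσ 2 (by simp)]; simp [h02.symm, h12.symm]
  obtain ⟨ε, hε, hε2⟩ := cc_perm h σ
  set z' := z ∘ σ with hz'
  have hz'i : Injective z' := hz.comp σ.injective
  let v : Fin r → E := fun p => z' p.succ.succ.succ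
  have hzc : z' = Fin.cons (z' 0) (Fin.cons (z' 1) (Fin.cons (z' 2) v)) := by
    funext p
    refine Fin.cases rfl (fun p => ?_) p
    refine Fin.cases rfl (fun p => ?_) p
    refine Fin.cases rfl (fun p => rfl) p
  have hu0 : update z i y ∘ σ = Fin.cons y (Fin.cons (z' 1) (Fin.cons (z' 2) v)) := by
    rw [update_comp_equiv, ← hσ0, Equiv.symm_apply_apply, ← hz', hzc]
    funext p
    refine Fin.cases ?_ (fun p => ?_) p
    · rw [update_self]; rfl
    · rw [update_of_ne (Fin.succ_ne_zero p)]
      rfl
  have hu1 : update z j y ∘ σ = Fin.cons (z' 0) (Fin.cons y (Fin.cons (z' 2) v)) := by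
    rw [update_comp_equiv, ← hσ1, Equiv.symm_apply_apply, ← hz', hzc]
    funext p
    refine Fin.cases ?_ (fun p => ?_) p
    · rw [update_of_ne h01]; rfl
    · refine Fin.cases ?_ (fun p => ?_) p
      · have h2 : (Fin.succ 0 : Fin (r + 3)) = 1 := rfl
        rw [h2, update_self]
        rfl
      · rw [update_of_ne]
        · rfl
        · intro h
          have := congrArg Fin.val h
          simp at this
  have hin : Injective (Fin.cons (z' 1) (Fin.cons (z' 2) (Fin.cons y (Fin.cons (z' 0) v))) :
      Fin (r + 4) → E) := by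
    have hyy : ∀ p, z' p ≠ y := fun p => hy _
    have h0v : ∀ q : Fin r, z' 0 ≠ v q := fun q hq => Fin.succ_ne_zero _ (hz'i hq).symm
    have h1v : ∀ q : Fin r, z' 1 ≠ v q := fun q hq => by
      have := congrArg Fin.val (hz'i hq)
      simp at this
    have h2v : ∀ q : Fin r, z' 2 ≠ v q := fun q hq => by
      have := congrArg Fin.val (hz'i hq)
      rw [Fin.val_two] at this
      simp at this
    have hvv : Injective v := fun a b hab => by
      have := hz'i hab
      simpa using this
    have h01' : z' 0 ≠ z' 1 := fun h => h01 (hz'i h)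
    have h02' : z' 0 ≠ z' 2 := fun h => h02 (hz'i h)
    have h12' : z' 1 ≠ z' 2 := fun h => h12 (hz'i h)
    have hyv : ∀ q : Fin r, v q ≠ y := fun q => hyy _
    simp only [Fin.cons_injective_iff, Set.mem_range, not_exists]
    refine ⟨?_, ?_, ?_, ?_, hvv⟩
    · refine Fin.cases ?_ (fun p => ?_)
      · exact h12'.symm
      · refine Fin.cases ?_ (fun p => ?_) p
        · exact (hyy 1).symm
        · refine Fin.cases ?_ (fun p => ?_) p
          · exact h01'
          · exact (h1v p).symm
    · refine Fin.cases ?_ (fun p => ?_)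
      · exact (hyy 2).symm
      · refine Fin.cases ?_ (fun p => ?_) p
        · exact h02'
        · exact (h2v p).symm
    · refine Fin.cases ?_ (fun p => ?_)
      · exact hyy 0
      · exact hyv p
    · exact fun p => (h0v p).symm
  have hεε : ε * ε = 1 := st_sq hε
  have hmul : ∀ a b : SignType, (ε * a) * (ε * b) = a * b := by
    intro a b
    rw [mul_mul_mul_comm, hεε, one_mul]
  have key := nc0 h h3 v (z' 0) (z' 1) (z' 2) y hin s hs
  rw [← hzc, ← hu0, ← hu1] at key
  rw [hz'] at key
  simp only [hε2, hmul, hσ0, hσ1, hσ2] at key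
  exact key

/-- a tournament without cyclic triangles has a source -/
lemma exists_source {α : Type} [DecidableEq α] (nu : α → α → SignType) (J : Finset α)
    (hnz : ∀ i ∈ J, ∀ j ∈ J, i ≠ j → nu i j ≠ 0)
    (hanti : ∀ i ∈ J, ∀ j ∈ J, i ≠ j → nu i j = -nu j i)
    (htr : ∀ i ∈ J, ∀ j ∈ J, ∀ l ∈ J, i ≠ j → i ≠ l → j ≠ l → nu i j = 1 → nu j l = 1 →
      nu i l = 1) (hJ : J.Nonempty) : ∃ i ∈ J, ∀ j ∈ J, j ≠ i → nu i j = 1 := by
  have key : ∀ S : Finset α, S ⊆ J → S.Nonempty → ∃ i ∈ S, ∀ j ∈ S, j ≠ i → nu i j = 1 := by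
    intro S
    induction S using Finset.induction_on with
    | empty => intro _ h; exact absurd h (by simp)
    | insert a S haS ih =>
      intro hS _
      by_cases hne : S.Nonempty
      · obtain ⟨i, hi, hi2⟩ := ih ((Finset.subset_insert _ _).trans hS) hne
        have haJ : a ∈ J := hS (Finset.mem_insert_self _ _)
        have hiJ : i ∈ J := hS (Finset.mem_insert_of_mem hi)
        have hai : a ≠ i := fun h => haS (h ▸ hi)
        have h1 := hnz a haJ i hiJ hai
        rcases SignType.trichotomy (nu a i) with h2 | h2 | h2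
        · refine ⟨i, Finset.mem_insert_of_mem hi, ?_⟩
          intro j hj hji
          rcases Finset.mem_insert.mp hj with rfl | hj
          · rw [hanti i hiJ j haJ hji.symm, h2]; rfl
          · exact hi2 j hj hji
        · exact absurd h2 h1
        · refine ⟨a, Finset.mem_insert_self _ _, ?_⟩
          intro j hj hja
          rcases Finset.mem_insert.mp hj with rfl | hj
          · exact absurd rfl hja
          · by_cases hji : j = i
            · rw [hji]; exact h2
            · exact htr a haJ i hiJ j (hS (Finset.mem_insert_of_mem hj)) hai hja.symm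
                (fun h => hji h.symm) h2 (hi2 j hj hji)
      · rw [Finset.not_nonempty_iff_eq_empty] at hne
        subst hne
        refine ⟨a, Finset.mem_insert_self _ _, ?_⟩
        intro j hj hja
        rw [Finset.mem_insert] at hj
        rcases hj with rfl | hj
        · exact absurd rfl hja
        · exact absurd hj (Finset.notMem_empty _)
  exact key J (Finset.Subset.refl _) hJ

lemma st_one {a b c : SignType} (h : a * b * c = 1) : c = a * b ∧ c * b = a := by
  revert a b c; decide

lemma st_s {c d s : SignType} (hd : d ≠ 0) (h : c * d = s) : c = s * d := by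
  revert c d s; decide

lemma circuit_cocircuit {r : ℕ} {χ : (Fin (r + 2) → E) → SignType} (h : Alt χ)
    (nz : ∀ x, Injective x → χ x ≠ 0) (h3 : Three χ) (x : Fin (r + 2) → E) (hx : Injective x)
    (k : Fin (r + 2)) : ∀ (t : ℕ) (z : Fin (r + 3) → E), Injective z →
      ∀ T : Finset (Fin (r + 2)), (∀ q, q ∈ T ↔ q ≠ k ∧ ∀ j, z j ≠ x q) → T.card = t →
      ∀ s : SignType, s ≠ 0 →
      ¬ ∀ j, χ (update x k (z j)) ≠ 0 → cc χ z j * χ (update x k (z j)) = s := by
  classical
  intro t
  induction t using Nat.strong_induction_on with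
  | _ t ih =>
  intro z hz T hT htT s hs hall
  by_cases hT0 : T = ∅
  · -- base case
    have h1 : ∀ q : Fin (r + 2), ∃ j, q ≠ k → z j = x q := by
      intro q
      by_cases hq : q = k
      · exact ⟨0, fun h => absurd hq h⟩
      · have h2 : q ∉ T := by rw [hT0]; exact Finset.notMem_empty _
        rw [hT] at h2
        push Not at h2
        obtain ⟨j, hj⟩ := h2 hq
        exact ⟨j, fun _ => hj⟩
    choose f hf using h1
    obtain ⟨σ, hσ⟩ := exists_perm_extend
      (Finset.univ.filter fun p : Fin (r + 3) => ∃ q : Fin (r + 2), q ≠ k ∧ p = q.succ)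
      (Fin.cases (motive := fun _ => Fin (r + 3)) 0 f) (by
        intro p hp p' hp' hpp
        simp only [Finset.coe_filter, Finset.mem_univ, true_and, Set.mem_ofPred_eq] at hp hp'
        obtain ⟨q, hq, rfl⟩ := hp
        obtain ⟨q', hq', rfl⟩ := hp'
        simp only [Fin.cases_succ] at hpp
        have h4 : x q = x q' := by rw [← hf q hq, ← hf q' hq', hpp]
        rw [hx h4])
    have hσ' : ∀ q : Fin (r + 2), q ≠ k → z (σ q.succ) = x q := by
      intro q hq
      rw [hσ q.succ (by
        simp only [Finset.mem_filter, Finset.mem_univ, true_and]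
        exact ⟨q, hq, rfl⟩), Fin.cases_succ]
      exact hf q hq
    obtain ⟨ε, hε, hε2⟩ := cc_perm h σ
    have h4 : Fin.tail (z ∘ σ) = update x k (z (σ k.succ)) := by
      funext q
      by_cases hq : q = k
      · rw [hq, update_self]; rfl
      · rw [update_of_ne hq]
        exact hσ' q hq
    have h5 := hε2 z 0
    have h6 := hε2 z k.succ
    rw [cc_zero, h4] at h5
    rw [cc_succ, h4, update_idem] at h6
    have h7 : (z ∘ σ) 0 = z (σ 0) := rfl
    rw [h7] at h6
    have hn1 : χ (update x k (z (σ 0))) ≠ 0 := by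
      apply nz
      apply update_inj hx
      intro q hq hq2
      rw [← hσ' q hq] at hq2
      exact Fin.succ_ne_zero q (σ.injective (hz hq2))
    have hn2 : χ (update x k (z (σ k.succ))) ≠ 0 := by
      apply nz
      apply update_inj hx
      intro q hq hq2
      rw [← hσ' q hq] at hq2
      exact hq (Fin.succ_injective _ (σ.injective (hz hq2)))
    have g1 := hall (σ 0) hn1
    have g2 := hall (σ k.succ) hn2
    have g3 : ε * s = χ (update x k (z (σ k.succ))) * χ (update x k (z (σ 0))) := by
      rw [← g1, h5, mul_assoc]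
    have g4 : ε * s = -(χ (update x k (z (σ 0))) * χ (update x k (z (σ k.succ)))) := by
      rw [← g2, ← neg_mul, h6, mul_assoc]
    rw [g3, mul_comm] at g4
    exact mul_ne_zero hn1 hn2 (st_eq_neg g4)
  · -- the step
    obtain ⟨q0, hq0⟩ := Finset.nonempty_iff_ne_empty.mpr hT0
    obtain ⟨hq0k, hq0z⟩ := (hT q0).mp hq0
    set y := x q0 with hy
    set D : Fin (r + 3) → SignType := fun j => χ (update x k (z j)) with hD
    have hDX : ∀ q, q ≠ k → χ (update x k (x q)) = 0 := by
      intro q hq
      apply h.zero hq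
      rw [update_of_ne hq, update_self]
    have hDn : ∀ j, D j = 0 → ∃ q, q ≠ k ∧ x q = z j := by
      intro j hj
      by_contra hcon
      push Not at hcon
      exact nz _ (update_inj hx hcon) hj
    let J : Finset (Fin (r + 3)) := Finset.univ.filter fun j => D j ≠ 0
    have hJm : ∀ j, j ∈ J ↔ D j ≠ 0 := fun j => by simp [J]
    have hJ : J.Nonempty := by
      by_contra hcon
      rw [Finset.not_nonempty_iff_eq_empty] at hcon
      have h1 : ∀ j, ∃ q, q ≠ k ∧ x q = z j := by
        intro j
        apply hDn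
        by_contra hne
        have : j ∈ J := (hJm j).mpr hne
        rw [hcon] at this
        exact Finset.notMem_empty _ this
      choose g hg using h1
      have hgi : Injective g := by
        intro a b hab
        apply hz
        rw [← (hg a).2, ← (hg b).2, hab]
      have := Fintype.card_le_of_injective g hgi
      simp at this
    have hnu := exists_source (fun i j => D i * D j * cc χ (update z i y) j) J ?_ ?_ ?_ hJ
    · obtain ⟨i, hiJ, hi⟩ := hnu
      have hDi : D i ≠ 0 := (hJm i).mp hiJ
      have hzi : Injective (update z i y) := update_inj hz (fun j _ => hq0z j)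
      let T' : Finset (Fin (r + 2)) :=
        Finset.univ.filter fun q => q ≠ k ∧ ∀ j, update z i y j ≠ x q
      have hT' : ∀ q, q ∈ T' ↔ q ≠ k ∧ ∀ j, update z i y j ≠ x q := fun q => by simp [T']
      have hlt : T'.card < t := by
        rw [← htT]
        apply Finset.card_lt_card
        rw [Finset.ssubset_iff_of_subset]
        · refine ⟨q0, hq0, ?_⟩
          rw [hT']
          rintro ⟨_, h2⟩
          exact h2 i (by rw [update_self])
        · intro q hq
          rw [hT'] at hq
          rw [hT]
          refine ⟨hq.1, fun j hj => ?_⟩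
          by_cases hji : j = i
          · rw [hji] at hj
            apply hDi
            show χ (update x k (z i)) = 0
            rw [hj]
            exact hDX q hq.1
          · apply hq.2 j
            rw [update_of_ne hji, hj]
      refine ih _ hlt (update z i y) hzi T' hT' rfl (D i) hDi ?_
      intro j hj
      by_cases hji : j = i
      · exfalso
        rw [hji, update_self] at hj
        exact hj (hDX q0 hq0k)
      · rw [update_of_ne hji] at hj ⊢
        have h2 := hi j ((hJm j).mpr hj) hji
        exact (st_one h2).2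
    · intro i hi j hj hij
      refine mul_ne_zero (mul_ne_zero ((hJm i).mp hi) ((hJm j).mp hj)) ?_
      exact cc_ne_zero nz _ (update_inj hz (fun j _ => hq0z j)) _
    · intro i hi j hj hij
      show D i * D j * cc χ (update z i y) j = -(D j * D i * cc χ (update z j y) i)
      rw [cc_update_comm χ h z i j hij, mul_neg, mul_comm (D i)]
    · intro i hi j hj l hl hij hil hjl h1 h2
      have hDi : D i ≠ 0 := (hJm i).mp hi
      have hDj : D j ≠ 0 := (hJm j).mp hj
      have hDl : D l ≠ 0 := (hJm l).mp hl
      by_contra hcon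
      have h4 : cc χ (update z i y) l = -(D i * D l) := by
        have h5 : cc χ (update z i y) l ≠ 0 :=
          cc_ne_zero nz _ (update_inj hz (fun j _ => hq0z j)) _
        revert hcon h5 hDi hDl
        generalize D i = a
        generalize D l = b
        generalize cc χ (update z i y) l = c
        revert a b c
        decide
      have e1 := st_s hDi (hall i hDi)
      have e2 := st_s hDj (hall j hDj)
      have e3 := st_s hDl (hall l hDl)
      have e4 := (st_one h1).1
      have e5 := (st_one h2).1
      refine nc h h3 z hz y hq0z i j l hij hil hjl (s * D i * D j * D l)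
        (mul_ne_zero (mul_ne_zero (mul_ne_zero hs hDi) hDj) hDl) ⟨?_, ?_, ?_⟩
      · rw [e1, e5]
        ac_rfl
      · rw [e2, h4, mul_neg, neg_neg]
        ac_rfl
      · rw [e3, e4]
        ac_rfl

theorem isChirotope_of_three {r : ℕ} {χ : (Fin (r + 2) → E) → SignType} (h : Alt χ)
    (nz : ∀ x, Injective x → χ x ≠ 0) (ex : ∃ x : Fin (r + 2) → E, Injective x)
    (h3 : Three χ) : IsChirotope χ := by
  classical
  refine ⟨?_, h, ?_⟩
  · obtain ⟨x, hx⟩ := ex
    exact ⟨x, nz x hx⟩
  · intro x y k hxy
    have hxn : χ x ≠ 0 := left_ne_zero_of_mul hxy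
    have hyn : χ y ≠ 0 := right_ne_zero_of_mul hxy
    have hxi := h.inj hxn
    have hyi := h.inj hyn
    by_cases hmem : ∃ i, y i = x k
    · obtain ⟨i, hi⟩ := hmem
      refine ⟨i, ?_⟩
      rw [hi, update_eq_self, ← hi, update_eq_self]
    · push Not at hmem
      by_contra hcon
      push Not at hcon
      let z : Fin (r + 3) → E := Fin.cons (x k) y
      have hz : Injective z := by
        rw [Fin.cons_injective_iff]
        exact ⟨fun ⟨i, hi⟩ => hmem i hi, hyi⟩
      refine circuit_cocircuit h nz h3 x hxi k _ z hz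
        (Finset.univ.filter fun q => q ≠ k ∧ ∀ j, z j ≠ x q) (by simp) rfl (χ x * χ y) hxy ?_
      intro j
      refine Fin.cases ?_ (fun i => ?_) j
      · intro _
        show χ y * χ (update x k (x k)) = _
        rw [update_eq_self, mul_comm]
      · intro h1
        have h2 : cc χ z i.succ ≠ 0 := cc_ne_zero nz z hz _
        have h4 := hcon i
        rw [cc_succ] at h2 ⊢
        have h5 : Fin.tail z = y := rfl
        have h6 : z 0 = x k := rfl
        have h7 : z i.succ = y i := rfl
        rw [h5, h6] at h2 ⊢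
        rw [h7] at h1 ⊢
        revert hxy h1 h2 h4
        generalize χ x * χ y = s
        generalize χ (update x k (y i)) = a
        generalize χ (update y i (x k)) = b
        revert s a b
        decide

end Pool.Agent.OM247.TT

namespace Pool.Agent.OM247

open TT

variable {E : Type}

/-- **The three term relations suffice** for a uniform chirotope. -/
theorem isChirotope_of_threeTerm {r : ℕ} (χ : (Fin r → E) → SignType)
    (alt : ∀ (x : Fin r → E) (i j : Fin r), i ≠ j → χ (x ∘ Equiv.swap i j) = -χ x)
    (nz : ∀ x, Injective x → χ x ≠ 0) (ex : ∃ x : Fin r → E, Injective x)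
    (h3 : ∀ (w : Fin r → E) (i j : Fin r), i ≠ j → ∀ a b c d : E,
      Injective (update (update w i a) j b) → Injective (update (update w i c) j d) →
      Injective (update (update w i a) j c) → Injective (update (update w i b) j d) →
      Injective (update (update w i a) j d) → Injective (update (update w i b) j c) →
      ∀ s : SignType, s ≠ 0 →
      ¬ (χ (update (update w i a) j b) * χ (update (update w i c) j d) = s ∧
        -(χ (update (update w i a) j c) * χ (update (update w i b) j d)) = s ∧
        χ (update (update w i a) j d) * χ (update (update w i b) j c) = s)) :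
    IsChirotope χ := by
  match r, χ, alt, nz, ex, h3 with
  | 0, χ, alt, nz, ex, _ =>
    obtain ⟨x, hx⟩ := ex
    exact ⟨⟨x, nz x hx⟩, alt, fun _ _ k => k.elim0⟩
  | 1, χ, alt, nz, ex, _ =>
    obtain ⟨x, hx⟩ := ex
    refine ⟨⟨x, nz x hx⟩, alt, fun x y k _ => ⟨0, ?_⟩⟩
    have h1 : update x k (y 0) = y := by
      funext i
      rw [Subsingleton.elim k i, update_self, Subsingleton.elim i 0]
    have h2 : update y 0 (x k) = x := by
      funext i
      rw [Subsingleton.elim i 0, update_self, Subsingleton.elim k 0]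
    rw [h1, h2, mul_comm]
  | r + 2, χ, alt, nz, ex, h3 =>
    refine isChirotope_of_three alt nz ex ?_
    intro v a b c d hin s hs
    have hu : ∀ x y : E, update (update (Fin.cons a (Fin.cons b v) : Fin (r + 2) → E) 0 x) 1 y =
        Fin.cons x (Fin.cons y v) := by
      intro x y
      funext p
      refine Fin.cases ?_ (fun p => ?_) p
      · rw [update_of_ne (by simp), update_self]
        rfl
      · refine Fin.cases ?_ (fun p => ?_) p
        · have h2 : (Fin.succ 0 : Fin (r + 2)) = 1 := rfl
          rw [h2, update_self]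
          rfl
        · rw [update_of_ne, update_of_ne (Fin.succ_ne_zero _)]
          · rfl
          · intro h
            have := congrArg Fin.val h
            simp at this
    simp only [Fin.cons_injective_iff, Set.mem_range, not_exists] at hin
    obtain ⟨ha, hb, hc, hd, hv⟩ := hin
    have hab : a ≠ b := fun h => ha 0 h.symm
    have hac : a ≠ c := fun h => ha 1 h.symm
    have had : a ≠ d := fun h => ha (Fin.succ (Fin.succ 0)) h.symm
    have hav : ∀ q, v q ≠ a := fun q => ha q.succ.succ.succ
    have hbc : b ≠ c := fun h => hb 0 h.symm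
    have hbd : b ≠ d := fun h => hb (Fin.succ 0) h.symm
    have hbv : ∀ q, v q ≠ b := fun q => hb q.succ.succ
    have hcd : c ≠ d := fun h => hc 0 h.symm
    have hcv : ∀ q, v q ≠ c := fun q => hc q.succ
    have key : ∀ x y : E, x ≠ y → (∀ q, v q ≠ x) → (∀ q, v q ≠ y) →
        Injective (Fin.cons x (Fin.cons y v) : Fin (r + 2) → E) := by
      intro x y hxy hx hy
      simp only [Fin.cons_injective_iff, Set.mem_range, not_exists]
      refine ⟨?_, hy, hv⟩
      refine Fin.cases ?_ (fun p => ?_)
      · exact hxy.symm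
      · exact hx p
    have h4 := h3 (Fin.cons a (Fin.cons b v)) 0 1 (by simp) a b c d
    simp only [hu] at h4
    exact h4 (key _ _ hab hav hbv) (key _ _ hcd hcv hd) (key _ _ hac hav hcv)
      (key _ _ hbd hbv hd) (key _ _ had hav hd) (key _ _ hbc hbv hcv) s hs

end Pool.Agent.OM247
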