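import Pool.Agent.OM247.ExistData
import Pool.Agent.OM247.ThreeTerm

/-!
From the certificates to `Completes n r`.
-/

namespace Pool.Agent.OM247.Exist

open Finset

/-- Number of a point. -/
def cd {n : ℕ} (x : Fin n → ZMod 2) : ℕ := ((finFunctionFinEquiv (m := 2) x : Fin (2 ^ n)) : ℕ)

theorem cd_lt {n : ℕ} (x : Fin n → ZMod 2) : cd x < 2 ^ n := Fin.is_lt _

theorem cd_inj {n : ℕ} : Function.Injective (cd : (Fin n → ZMod 2) → ℕ) := by
  intro x y h
  exact finFunctionFinEquiv.injective (Fin.val_injective h)

/-- The chirotope given by a table. -/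
noncomputable def chE (B n r : ℕ) (w : Fin r → (Fin n → ZMod 2)) : SignType := chi B (cd ∘ w)

theorem chE_alt (B n r : ℕ) (x : Fin r → (Fin n → ZMod 2)) (i j : Fin r) (h : i ≠ j) :
    chE B n r (x ∘ Equiv.swap i j) = - chE B n r x := by
  unfold chE
  rw [← Function.comp_assoc]
  exact chi_swap _ h

theorem chE_nz (B n r : ℕ) (x : Fin r → (Fin n → ZMod 2)) (h : Function.Injective x) :
    chE B n r x ≠ 0 := chi_ne.2 (cd_inj.comp h)

theorem chE_ex {n r : ℕ} (h : r ≤ 2 ^ n) :
    ∃ x : Fin r → (Fin n → ZMod 2), Function.Injective x := by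
  refine ⟨fun i => finFunctionFinEquiv.symm (Fin.castLE h i), ?_⟩
  intro a b hab
  exact Fin.castLE_injective h (finFunctionFinEquiv.symm.injective hab)

theorem comp_update {E : Type} {r : ℕ} (e : E → ℕ) (w : Fin r → E) (i : Fin r) (y : E) :
    e ∘ Function.update w i y = Function.update (e ∘ w) i (e y) := by
  funext k
  by_cases hk : k = i
  · subst hk; simp
  · simp [Function.update_of_ne hk]

theorem chE_three {B n r : ℕ}
    (h : check1 B (lay (2 ^ n) r) (lay (2 ^ n) (r + 4)) (2 ^ n) = true)
    (w : Fin (r + 2) → (Fin n → ZMod 2)) (i j : Fin (r + 2)) (hij : i ≠ j)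
    (a b c d : Fin n → ZMod 2) (s : SignType) (hs : s ≠ 0) :
    ¬ (chE B n (r + 2) (Function.update (Function.update w i a) j b) *
          chE B n (r + 2) (Function.update (Function.update w i c) j d) = s ∧
        -(chE B n (r + 2) (Function.update (Function.update w i a) j c) *
          chE B n (r + 2) (Function.update (Function.update w i b) j d)) = s ∧
        chE B n (r + 2) (Function.update (Function.update w i a) j d) *
          chE B n (r + 2) (Function.update (Function.update w i b) j c) = s) := by
  unfold chE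
  simp only [comp_update]
  exact three_term h (cd ∘ w) (fun k => cd_lt _) hij (cd_lt a) (cd_lt b) (cd_lt c) (cd_lt d) s hs

theorem completes_of_check {n r : ℕ} (B : ℕ) (R : List ℕ) (hr : r + 2 ≤ 2 ^ n)
    (h1 : check1 B (lay (2 ^ n) r) (lay (2 ^ n) (r + 4)) (2 ^ n) = true)
    (h2 : allB (2 ^ n) (fun j => check2 B (lay (2 ^ n) (r + 3)) (2 ^ n) (R.getD j 0)) = true)
    (h3 : ∀ a x : Fin n → ZMod 2, hadRow n a x = sg ((R.getD (cd a) 0).testBit (cd x))) :
    Completes n (r + 2) := by
  refine ⟨chE B n (r + 2), isChirotope_of_threeTerm _ (chE_alt B n (r + 2))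
    (chE_nz B n (r + 2)) (chE_ex hr) ?_, fun a => ?_⟩
  · intro w i j hij a b c d _ _ _ _ _ _ s hs
    exact chE_three h1 w i j hij a b c d s hs
  · exact isTope_of_check cd cd_lt (allB_spec h2 _ (cd_lt a)) _ (h3 a)

end Exist

/-- Rank 2 for the Hadamard matrix of order 2. -/
theorem completes_one : Completes 1 2 :=
  Exist.completes_of_check (n := 1) (r := 0) 0 [0, 2] (by decide) (by decide +kernel)
    (by decide +kernel) (by decide +kernel)

/-- Rank 3 for the Sylvester Hadamard matrix of order 4. -/
theorem completes_two : Completes 2 3 :=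
  Exist.completes_of_check (n := 2) (r := 1) 0x80 [0, 10, 12, 6] (by decide) (by decide +kernel)
    (by decide +kernel) (by decide +kernel)

/-- Rank 4 for the Sylvester Hadamard matrix of order 8. -/
theorem completes_three : Completes 3 4 :=
  Exist.completes_of_check (n := 3) (r := 2) Exist.tab8 Exist.rws8 (by decide) Exist.check1_8
    Exist.check2_8 (by decide +kernel)

/-- Rank 6 for the Sylvester Hadamard matrix of order 16. -/
theorem completes_four : Completes 4 6 :=
  Exist.completes_of_check (n := 4) (r := 4) Exist.tab16 Exist.rws16 (by decide) Exist.check1_16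
    Exist.check2_16 (by decide +kernel)

end Pool.Agent.OM247
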