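import Pool.Agent.OM247.Defs

/-!
Bit-parallel certificates for uniform oriented matroids: general part.
-/

namespace Pool.Agent.OM247.Exist

open Finset

/-- The bitmask of a finite set. -/
def msk (S : Finset ℕ) : ℕ := ∑ x ∈ S, 2 ^ x

/-- Bit vector of length `2 ^ n`: the bit number `msk S` is set iff `S` has `k` elements. -/
def lay : ℕ → ℕ → ℕ
  | 0, 0 => 1
  | 0, _ + 1 => 0
  | n + 1, 0 => lay n 0
  | n + 1, k + 1 => lay n (k + 1) ||| (lay n k <<< 2 ^ n)

/-- Bit vector of length `2 ^ n`: the bit number `msk S` is the parity of the number of elements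
of `S` below `x`. -/
def par : ℕ → ℕ → ℕ
  | 0, _ => 0
  | n + 1, x => par n x ||| ((par n x ^^^ (if n < x then 2 ^ 2 ^ n - 1 else 0)) <<< 2 ^ n)

theorem msk_lt {n : ℕ} {S : Finset ℕ} (h : S ⊆ range n) : msk S < 2 ^ n :=
  Nat.geomSum_lt le_rfl (fun _ hk => mem_range.1 (h hk))

theorem msk_insert {a : ℕ} {S : Finset ℕ} (h : a ∉ S) : msk (insert a S) = 2 ^ a + msk S :=
  sum_insert h

theorem sub_range_of {n : ℕ} {S : Finset ℕ} (h : S ⊆ range (n + 1)) (hn : n ∉ S) :
    S ⊆ range n := by
  intro x hx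
  have h1 := mem_range.1 (h hx)
  have h2 : x ≠ n := fun h3 => hn (h3 ▸ hx)
  exact mem_range.2 (by omega)

theorem lay_testBit : ∀ (n k : ℕ) (S : Finset ℕ), S ⊆ range n → S.card = k →
    (lay n k).testBit (msk S) = true
  | 0, k, S, hS, hk => by
    have : S = ∅ := by simpa using hS
    subst this
    simp only [card_empty] at hk
    subst hk
    simp [lay, msk]
  | n + 1, k, S, hS, hk => by
    by_cases hn : n ∈ S
    · have h1 : S = insert n (S.erase n) := (insert_erase hn).symm
      have h2 : S.erase n ⊆ range n :=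
        sub_range_of ((erase_subset _ _).trans hS) (notMem_erase _ _)
      have h3 : (S.erase n).card = k - 1 := by rw [card_erase_of_mem hn, hk]
      have hk0 : 0 < k := by rw [← hk]; exact card_pos.2 ⟨n, hn⟩
      obtain ⟨k', rfl⟩ : ∃ k', k = k' + 1 := ⟨k - 1, by omega⟩
      have h4 := lay_testBit n k' (S.erase n) h2 (by rw [h3]; rfl)
      rw [h1, msk_insert (notMem_erase _ _), lay]
      simp only [Nat.testBit_or, Nat.testBit_shiftLeft]
      rw [Nat.add_sub_cancel_left, h4]
      simp
    · have h2 : S ⊆ range n := sub_range_of hS hn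
      cases k with
      | zero => simpa [lay] using lay_testBit n 0 S h2 hk
      | succ k' =>
        have h4 := lay_testBit n (k' + 1) S h2 hk
        rw [lay]
        simp [Nat.testBit_or, h4]

theorem two_pow_sub_one_lt (n : ℕ) : 2 ^ 2 ^ n - 1 < 2 ^ 2 ^ n :=
  Nat.sub_lt (by positivity) one_pos

theorem par_lt : ∀ (n x : ℕ), par n x < 2 ^ 2 ^ n
  | 0, x => by simp [par]
  | n + 1, x => by
    rw [par]
    have h1 := par_lt n x
    have h2 : (if n < x then 2 ^ 2 ^ n - 1 else 0) < 2 ^ 2 ^ n := by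
      split_ifs
      · exact two_pow_sub_one_lt n
      · positivity
    have h3 : par n x ^^^ (if n < x then 2 ^ 2 ^ n - 1 else 0) < 2 ^ 2 ^ n :=
      Nat.xor_lt_two_pow h1 h2
    have h4 : (2 : ℕ) ^ 2 ^ (n + 1) = 2 ^ 2 ^ n * 2 ^ 2 ^ n := by
      rw [← pow_add]; congr 1; rw [pow_succ]; ring
    apply Nat.or_lt_two_pow
    · rw [h4]
      exact lt_of_lt_of_le h1 (Nat.le_mul_of_pos_left _ (by positivity))
    · rw [Nat.shiftLeft_eq, h4]
      exact Nat.mul_lt_mul_of_pos_right h3 (by positivity)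

theorem par_testBit : ∀ (n x : ℕ) (S : Finset ℕ), S ⊆ range n →
    (par n x).testBit (msk S) = decide ((S.filter (· < x)).card % 2 = 1)
  | 0, x, S, hS => by
    have : S = ∅ := by simpa using hS
    subst this
    simp [par]
  | n + 1, x, S, hS => by
    by_cases hn : n ∈ S
    · have h1 : S = insert n (S.erase n) := (insert_erase hn).symm
      have h2 : S.erase n ⊆ range n :=
        sub_range_of ((erase_subset _ _).trans hS) (notMem_erase _ _)
      have h4 := par_testBit n x (S.erase n) h2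
      have h5 := msk_lt h2
      have h6 : (par n x).testBit (2 ^ n + msk (S.erase n)) = false := by
        apply Nat.testBit_eq_false_of_lt
        exact lt_of_lt_of_le (par_lt n x) (Nat.pow_le_pow_right (by norm_num) (by omega))
      rw [h1, msk_insert (notMem_erase _ _), par]
      simp only [Nat.testBit_or, Nat.testBit_shiftLeft, Nat.testBit_xor]
      rw [Nat.add_sub_cancel_left, h4, h6]
      rw [filter_insert]
      by_cases hx : n < x
      · rw [if_pos hx, if_pos hx, card_insert_of_notMem (by simp)]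
        rw [Nat.testBit_two_pow_sub_one]
        simp only [Bool.false_or, ge_iff_le, le_add_iff_nonneg_right, zero_le, decide_true,
          Bool.true_and, h5]
        rcases Nat.mod_two_eq_zero_or_one ((filter (· < x) (S.erase n)).card) with h | h
        · have h' : ((filter (· < x) (S.erase n)).card + 1) % 2 = 1 := by omega
          simp [h, h']
        · have h' : ((filter (· < x) (S.erase n)).card + 1) % 2 = 0 := by omega
          simp [h, h']
      · rw [if_neg hx, if_neg hx]
        simp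
    · have h2 : S ⊆ range n := sub_range_of hS hn
      have h5 := msk_lt h2
      rw [par, Nat.testBit_or, Nat.testBit_shiftLeft, par_testBit n x S h2]
      have : ¬ (msk S ≥ 2 ^ n) := by omega
      simp [this]

/-- `false` is `+`, `true` is `-`. -/
def sg (b : Bool) : SignType := if b then -1 else 1

theorem sg_mul (a b : Bool) : sg a * sg b = sg (a ^^ b) := by cases a <;> cases b <;> decide

theorem sg_ne (a : Bool) : sg a ≠ 0 := by cases a <;> decide

theorem neg_sg (a : Bool) : - sg a = sg (!a) := by cases a <;> decide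

theorem sg_inj {a b : Bool} (h : sg a = sg b) : a = b := by revert h; cases a <;> cases b <;> decide

theorem eq_neg_of_ne {a b : SignType} (ha : a ≠ 0) (hb : b ≠ 0) (h : a ≠ b) : a = -b := by
  revert ha hb h; cases a <;> cases b <;> decide

theorem neg_ne {a : SignType} (h : a ≠ 0) : -a ≠ 0 := by
  revert h; cases a <;> decide

theorem sq_one {a : SignType} (ha : a ≠ 0) : a * a = 1 := by
  revert ha; cases a <;> decide

/-- Vandermonde determinant of a tuple of natural numbers. -/
noncomputable def vd {r : ℕ} (z : Fin r → ℕ) : ℤ :=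
  (Matrix.vandermonde (fun i => (z i : ℤ))).det

theorem vd_perm {r : ℕ} (z : Fin r → ℕ) (σ : Equiv.Perm (Fin r)) :
    vd (z ∘ σ) = (Equiv.Perm.sign σ : ℤ) * vd z := by
  exact Matrix.det_permute σ (Matrix.vandermonde (fun i => (z i : ℤ)))

theorem vd_ne {r : ℕ} {z : Fin r → ℕ} : vd z ≠ 0 ↔ Function.Injective z := by
  unfold vd
  rw [Matrix.det_vandermonde_ne_zero_iff]
  constructor
  · intro h a b hab
    exact h (by simp [hab])
  · intro h a b hab
    exact h (by simpa using hab)

theorem vd_cons {r : ℕ} (a : ℕ) (z : Fin r → ℕ) :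
    vd (Fin.cons a z : Fin (r + 1) → ℕ) = (∏ k, ((z k : ℤ) - a)) * vd z := by
  unfold vd
  rw [Matrix.det_vandermonde, Matrix.det_vandermonde, Fin.prod_univ_succ]
  congr 1
  · rw [Fin.prod_Ioi_zero]
    simp
  · apply Finset.prod_congr rfl
    intro i _
    rw [Fin.prod_Ioi_succ]
    simp

theorem sign_prod {r : ℕ} (z : Fin r → ℕ) (y : ℕ) (h : ∀ k, z k ≠ y) :
    SignType.sign (∏ k, ((z k : ℤ) - y)) = sg (decide ((univ.filter (fun k => z k < y)).card % 2 = 1)) := by
  have h1 : SignType.sign (∏ k, ((z k : ℤ) - y)) = ∏ k, SignType.sign ((z k : ℤ) - y) :=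
    map_prod (signHom (α := ℤ)) _ _
  rw [h1]
  have h2 : ∀ k, SignType.sign ((z k : ℤ) - y) = if z k < y then (-1 : SignType) else 1 := by
    intro k
    rcases lt_or_gt_of_ne (h k) with hk | hk
    · rw [if_pos hk, sign_neg (by omega)]
    · rw [if_neg (by omega), sign_pos (by omega)]
  rw [Finset.prod_congr rfl (fun k _ => h2 k), Finset.prod_ite, prod_const, prod_const_one, mul_one]
  rcases Nat.even_or_odd ((univ.filter (fun k => z k < y)).card) with he | ho
  · rw [he.neg_one_pow]
    have := Nat.even_iff.1 he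
    simp [sg, this]
  · rw [ho.neg_one_pow]
    have := Nat.odd_iff.1 ho
    simp [sg, this]

/-- The table `B` gives the sign of every increasing tuple (indexed by the bitmask). -/
noncomputable def chi (B : ℕ) {r : ℕ} (z : Fin r → ℕ) : SignType :=
  SignType.sign (vd z) * sg (B.testBit (∑ i, 2 ^ z i))

theorem chi_ne {B r : ℕ} {z : Fin r → ℕ} : chi B z ≠ 0 ↔ Function.Injective z := by
  unfold chi
  rw [mul_ne_zero_iff]
  constructor
  · rintro ⟨h, -⟩
    exact vd_ne.1 (fun h0 => h (by rw [h0, sign_zero]))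
  · intro h
    exact ⟨fun h0 => vd_ne.2 h (sign_eq_zero_iff.1 h0), sg_ne _⟩

theorem chi_perm {B r : ℕ} (z : Fin r → ℕ) (σ : Equiv.Perm (Fin r)) :
    chi B (z ∘ σ) = SignType.sign (Equiv.Perm.sign σ : ℤ) * chi B z := by
  unfold chi
  rw [vd_perm, sign_mul, mul_assoc]
  congr 3
  exact congrArg _ (Equiv.sum_comp σ (fun i => 2 ^ z i))

theorem chi_swap {B r : ℕ} (z : Fin r → ℕ) {i j : Fin r} (h : i ≠ j) :
    chi B (z ∘ Equiv.swap i j) = - chi B z := by
  rw [chi_perm, Equiv.Perm.sign_swap h]
  simp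

theorem sum_two_pow {r : ℕ} {z : Fin r → ℕ} (h : Function.Injective z) :
    ∑ i, 2 ^ z i = msk (univ.image z) := by
  unfold msk
  rw [sum_image (fun a _ b _ hab => h hab)]


/-! ### The three term relations -/

/-- The three term relation check for `a < b < c < d` and all `(r - 2)`-sets disjoint from it. -/
def chk1 (B L H a b c d : ℕ) : Bool :=
  let M := L &&& (H >>> (2 ^ a + 2 ^ b + 2 ^ c + 2 ^ d))
  let x1 := (B >>> (2 ^ a + 2 ^ b)) ^^^ (B >>> (2 ^ c + 2 ^ d))
  let x2 := (B >>> (2 ^ a + 2 ^ c)) ^^^ (B >>> (2 ^ b + 2 ^ d))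
  let x3 := (B >>> (2 ^ a + 2 ^ d)) ^^^ (B >>> (2 ^ b + 2 ^ c))
  (((x1 ^^^ x2) &&& M) ||| (x1 ^^^ x3)) == (x1 ^^^ x3)

/-- Bounded quantifier. -/
def allB : ℕ → (ℕ → Bool) → Bool
  | 0, _ => true
  | k + 1, p => p k && allB k p

theorem allB_spec {p : ℕ → Bool} : ∀ {k : ℕ}, allB k p = true → ∀ x < k, p x = true
  | 0, _, x, hx => by omega
  | k + 1, h, x, hx => by
    rw [allB, Bool.and_eq_true] at h
    rcases Nat.lt_succ_iff_lt_or_eq.1 hx with h1 | h1
    · exact allB_spec h.2 x h1
    · rw [h1]; exact h.1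

/-- All three term relation checks. -/
def check1 (B L H N : ℕ) : Bool :=
  allB N fun d => allB d fun c => allB c fun b => allB b fun a => chk1 B L H a b c d

theorem check1_spec {B L H N : ℕ} (h : check1 B L H N = true) {a b c d : ℕ} (hab : a < b)
    (hbc : b < c) (hcd : c < d) (hd : d < N) : chk1 B L H a b c d = true :=
  allB_spec (allB_spec (allB_spec (allB_spec h d hd) c hcd) b hbc) a hab

/-- The signs of the rank 2 contraction. -/
noncomputable def qq (B m x y : ℕ) : SignType :=
  SignType.sign ((y : ℤ) - x) * sg (B.testBit (m + 2 ^ x + 2 ^ y))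

theorem qq_symm (B m x y : ℕ) : qq B m y x = - qq B m x y := by
  unfold qq
  have h1 : m + 2 ^ y + 2 ^ x = m + 2 ^ x + 2 ^ y := by ring
  have h2 : (x : ℤ) - y = - ((y : ℤ) - x) := by ring
  rw [h1, h2, Left.sign_neg, neg_mul]

theorem qq_lt {B m x y : ℕ} (h : x < y) : qq B m x y = sg (B.testBit (m + 2 ^ x + 2 ^ y)) := by
  unfold qq
  rw [sign_pos (by omega), one_mul]

/-- The forbidden configuration. -/
def Rel (q : ℕ → ℕ → SignType) (a b c d : ℕ) : Prop :=
  ∃ s : SignType, s ≠ 0 ∧ q a b * q c d = s ∧ -(q a c * q b d) = s ∧ q a d * q b c = s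

theorem rel_swap1 {q : ℕ → ℕ → SignType} (hq : ∀ x y, q y x = - q x y) {a b c d : ℕ}
    (h : Rel q a b c d) : Rel q b a c d := by
  obtain ⟨s, hs, h1, h2, h3⟩ := h
  refine ⟨-s, neg_ne hs, ?_, ?_, ?_⟩
  · rw [hq a b, neg_mul, h1]
  · rw [mul_comm, h3]
  · rw [mul_comm, ← h2, neg_neg]

theorem rel_swap2 {q : ℕ → ℕ → SignType} (hq : ∀ x y, q y x = - q x y) {a b c d : ℕ}
    (h : Rel q a b c d) : Rel q a c b d := by
  obtain ⟨s, hs, h1, h2, h3⟩ := h
  refine ⟨-s, neg_ne hs, ?_, ?_, ?_⟩
  · rw [← h2, neg_neg]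
  · rw [h1]
  · rw [hq b c, mul_neg, h3]

theorem rel_swap3 {q : ℕ → ℕ → SignType} (hq : ∀ x y, q y x = - q x y) {a b c d : ℕ}
    (h : Rel q a b c d) : Rel q a b d c := by
  obtain ⟨s, hs, h1, h2, h3⟩ := h
  refine ⟨-s, neg_ne hs, ?_, ?_, ?_⟩
  · rw [hq c d, mul_neg, h1]
  · rw [h3]
  · rw [← h2, neg_neg]

theorem rel_sort {q : ℕ → ℕ → SignType} (hq : ∀ x y, q y x = - q x y) {P : ℕ → Prop}
    (h0 : ∀ a b c d, a < b → b < c → c < d → P a → P b → P c → P d → ¬ Rel q a b c d)
    {a b c d : ℕ} (pa : P a) (pb : P b) (pc : P c) (pd : P d)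
    (hab : a ≠ b) (hac : a ≠ c) (had : a ≠ d) (hbc : b ≠ c) (hbd : b ≠ d) (hcd : c ≠ d) :
    ¬ Rel q a b c d := by
  -- `a < b`, `c < d`, `a < c`, `b < d`
  have h1 : ∀ a b c d, a < b → c < d → a < c → b < d → b ≠ c → P a → P b → P c → P d →
      ¬ Rel q a b c d := by
    intro a b c d h1 h2 h3 h4 h5 pa pb pc pd hr
    rcases lt_or_gt_of_ne h5 with h | h
    · exact h0 a b c d h1 h h2 pa pb pc pd hr
    · exact h0 a c b d h3 h h4 pa pc pb pd (rel_swap2 hq hr)
  have h2 : ∀ a b c d, a < b → c < d → a < c → b ≠ d → b ≠ c → P a → P b → P c → P d →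
      ¬ Rel q a b c d := by
    intro a b c d h2 h3 h4 h5 h6 pa pb pc pd hr
    rcases lt_or_gt_of_ne h5 with h | h
    · exact h1 a b c d h2 h3 h4 h h6 pa pb pc pd hr
    · -- swap `b` and `d`
      have hr' : Rel q a d c b := rel_swap2 hq (rel_swap3 hq (rel_swap2 hq hr))
      exact h1 a d c b (h4.trans h3) (h3.trans h) h4 h (by omega) pa pd pc pb hr'
  have h3 : ∀ a b c d, a < b → c < d → a ≠ c → b ≠ d → b ≠ c → a ≠ d → P a → P b → P c → P d →
      ¬ Rel q a b c d := by
    intro a b c d h3 h4 h5 h6 h7 h8 pa pb pc pd hr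
    rcases lt_or_gt_of_ne h5 with h | h
    · exact h2 a b c d h3 h4 h h6 h7 pa pb pc pd hr
    · have hr' : Rel q c d a b :=
        rel_swap2 hq (rel_swap3 hq (rel_swap1 hq (rel_swap2 hq hr)))
      exact h2 c d a b h4 h3 h h6.symm (by omega) pc pd pa pb hr'
  intro hr
  rcases lt_or_gt_of_ne hab with h | h <;> rcases lt_or_gt_of_ne hcd with h' | h'
  · exact h3 a b c d h h' hac hbd hbc had pa pb pc pd hr
  · exact h3 a b d c h h' had hbc hbd hac pa pb pd pc (rel_swap3 hq hr)
  · exact h3 b a c d h h' hbc had hac hbd pb pa pc pd (rel_swap1 hq hr)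
  · exact h3 b a d c h h' hbd hac had hbc pb pa pd pc (rel_swap1 hq (rel_swap3 hq hr))

theorem not_rel {B N k : ℕ} (h : check1 B (lay N k) (lay N (k + 4)) N = true)
    {W : Finset ℕ} (hW : W ⊆ range N) (hk : W.card = k) {a b c d : ℕ}
    (ha : a < N) (hb : b < N) (hc : c < N) (hd : d < N)
    (ha' : a ∉ W) (hb' : b ∉ W) (hc' : c ∉ W) (hd' : d ∉ W)
    (hab : a ≠ b) (hac : a ≠ c) (had : a ≠ d) (hbc : b ≠ c) (hbd : b ≠ d) (hcd : c ≠ d) :
    ¬ Rel (qq B (msk W)) a b c d := by
  refine rel_sort (P := fun x => x < N ∧ x ∉ W) (fun x y => qq_symm B (msk W) x y) ?_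
    ⟨ha, ha'⟩ ⟨hb, hb'⟩ ⟨hc, hc'⟩ ⟨hd, hd'⟩ hab hac had hbc hbd hcd
  clear ha hb hc hd ha' hb' hc' hd' hab hac had hbc hbd hcd
  rintro a b c d hab hbc hcd ⟨ha, ha'⟩ ⟨hb, hb'⟩ ⟨hc, hc'⟩ ⟨hd, hd'⟩ ⟨s, hs, h1, h2, h3⟩
  have h4 := check1_spec h hab hbc hcd hd
  rw [qq_lt hab, qq_lt hcd, sg_mul] at h1
  rw [qq_lt (hab.trans hbc), qq_lt (hbc.trans hcd), sg_mul, neg_sg] at h2
  rw [qq_lt ((hab.trans hbc).trans hcd), qq_lt hbc, sg_mul] at h3
  have h12 := sg_inj (h1.trans h2.symm)
  have h13 := sg_inj (h1.trans h3.symm)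
  have hM1 : (lay N k).testBit (msk W) = true := lay_testBit N k W hW hk
  have hM2 : (lay N (k + 4)).testBit (2 ^ a + 2 ^ b + 2 ^ c + 2 ^ d + msk W) = true := by
    have e1 : msk (insert a (insert b (insert c (insert d W)))) =
        2 ^ a + 2 ^ b + 2 ^ c + 2 ^ d + msk W := by
      rw [msk_insert, msk_insert, msk_insert, msk_insert hd']
      · ring
      · simp only [mem_insert, not_or]; exact ⟨by omega, hc'⟩
      · simp only [mem_insert, not_or]; exact ⟨by omega, by omega, hb'⟩
      · simp only [mem_insert, not_or]; exact ⟨by omega, by omega, by omega, ha'⟩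
    rw [← e1]
    apply lay_testBit
    · intro x hx
      simp only [mem_insert] at hx
      rcases hx with rfl | rfl | rfl | rfl | hx
      · exact mem_range.2 ha
      · exact mem_range.2 hb
      · exact mem_range.2 hc
      · exact mem_range.2 hd
      · exact hW hx
    · rw [card_insert_of_notMem, card_insert_of_notMem, card_insert_of_notMem,
        card_insert_of_notMem hd', hk]
      · simp only [mem_insert, not_or]; exact ⟨by omega, hc'⟩
      · simp only [mem_insert, not_or]; exact ⟨by omega, by omega, hb'⟩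
      · simp only [mem_insert, not_or]; exact ⟨by omega, by omega, by omega, ha'⟩
  unfold chk1 at h4
  have h5 := congrArg (fun t => Nat.testBit t (msk W)) (beq_iff_eq.1 h4)
  simp only [Nat.testBit_or, Nat.testBit_and, Nat.testBit_xor, Nat.testBit_shiftRight, hM1,
    hM2, Bool.and_true] at h5
  have e2 : ∀ x y : ℕ, msk W + 2 ^ x + 2 ^ y = 2 ^ x + 2 ^ y + msk W := fun x y => by ring
  simp only [e2] at h12 h13
  rw [h13] at h5 h12
  revert h5 h12
  generalize (B.testBit (2 ^ a + 2 ^ d + msk W) ^^ B.testBit (2 ^ b + 2 ^ c + msk W)) = u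
  generalize (B.testBit (2 ^ a + 2 ^ c + msk W) ^^ B.testBit (2 ^ b + 2 ^ d + msk W)) = v
  cases u <;> cases v <;> decide

/-! ### Tuples -/

theorem exists_perm {r : ℕ} {i j : Fin (r + 2)} (hij : i ≠ j) :
    ∃ σ : Equiv.Perm (Fin (r + 2)), σ 0 = i ∧ σ 1 = j := by
  have h01 : (0 : Fin (r + 2)) ≠ 1 := by simp
  have h1 : (Equiv.swap 0 i) j ≠ 0 := by
    intro h
    have h2 : (Equiv.swap 0 i) ((Equiv.swap 0 i) j) = j := Equiv.swap_apply_self _ _ _
    rw [h, Equiv.swap_apply_left] at h2
    exact hij h2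
  refine ⟨Equiv.swap 0 i * Equiv.swap 1 ((Equiv.swap 0 i) j), ?_, ?_⟩
  · rw [Equiv.Perm.mul_apply, Equiv.swap_apply_of_ne_of_ne h01 h1.symm, Equiv.swap_apply_left]
  · rw [Equiv.Perm.mul_apply, Equiv.swap_apply_left, Equiv.swap_apply_self]

theorem chi_cons_cons {B r : ℕ} (x y : ℕ) (v : Fin r → ℕ) :
    chi B (Fin.cons x (Fin.cons y v : Fin (r + 1) → ℕ) : Fin (r + 2) → ℕ) =
      SignType.sign (∏ k, ((v k : ℤ) - x)) * SignType.sign (∏ k, ((v k : ℤ) - y)) *
        SignType.sign (vd v) * qq B (∑ k, 2 ^ v k) x y := by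
  unfold chi qq
  rw [vd_cons, vd_cons, Fin.prod_univ_succ, Fin.sum_univ_succ, Fin.sum_univ_succ]
  simp only [Fin.cons_zero, Fin.cons_succ, sign_mul]
  have : (2 ^ x + (2 ^ y + ∑ i, 2 ^ v i)) = ∑ i, 2 ^ v i + 2 ^ x + 2 ^ y := by ring
  rw [this]
  ac_rfl

theorem update_comp {r : ℕ} (w : Fin (r + 2) → ℕ) {i j : Fin (r + 2)} (hij : i ≠ j)
    {σ : Equiv.Perm (Fin (r + 2))} (h0 : σ 0 = i) (h1 : σ 1 = j) (x y : ℕ) :
    (Function.update (Function.update w i x) j y) ∘ σ =
      (Fin.cons x (Fin.cons y (fun k : Fin r => w (σ k.succ.succ)) : Fin (r + 1) → ℕ) :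
        Fin (r + 2) → ℕ) := by
  funext k
  refine Fin.cases ?_ (fun k => ?_) k
  · simp only [Function.comp_apply, Fin.cons_zero, h0]
    rw [Function.update_of_ne hij, Function.update_self]
  · refine Fin.cases ?_ (fun k => ?_) k
    · have : σ (Fin.succ (0 : Fin (r + 1))) = j := h1
      simp only [Function.comp_apply, Fin.cons_succ, Fin.cons_zero, this,
        Function.update_self]
    · simp only [Function.comp_apply, Fin.cons_succ]
      have e1 : σ k.succ.succ ≠ j := by
        rw [← h1]; intro h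
        have := σ.injective h
        simp [Fin.ext_iff] at this
      have e0 : σ k.succ.succ ≠ i := by
        rw [← h0]; intro h
        have := σ.injective h
        simp [Fin.ext_iff] at this
      rw [Function.update_of_ne e1, Function.update_of_ne e0]

theorem three_term {B N r : ℕ} (h : check1 B (lay N r) (lay N (r + 4)) N = true)
    (w : Fin (r + 2) → ℕ) (hw : ∀ i, w i < N) {i j : Fin (r + 2)} (hij : i ≠ j)
    {a b c d : ℕ} (ha : a < N) (hb : b < N) (hc : c < N) (hd : d < N) (s : SignType)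
    (hs : s ≠ 0) :
    ¬ (chi B (Function.update (Function.update w i a) j b) *
          chi B (Function.update (Function.update w i c) j d) = s ∧
        -(chi B (Function.update (Function.update w i a) j c) *
          chi B (Function.update (Function.update w i b) j d)) = s ∧
        chi B (Function.update (Function.update w i a) j d) *
          chi B (Function.update (Function.update w i b) j c) = s) := by
  obtain ⟨σ, h0, h1⟩ := exists_perm hij
  set v : Fin r → ℕ := fun k => w (σ k.succ.succ) with hv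
  have key : ∀ x y, chi B (Function.update (Function.update w i x) j y) =
      SignType.sign (Equiv.Perm.sign σ : ℤ) *
        chi B (Fin.cons x (Fin.cons y v : Fin (r + 1) → ℕ) : Fin (r + 2) → ℕ) := by
    intro x y
    rw [← update_comp w hij h0 h1, chi_perm, ← mul_assoc]
    rw [← sign_mul]
    have : (Equiv.Perm.sign σ : ℤ) * (Equiv.Perm.sign σ : ℤ) = 1 := by
      rw [← Units.val_mul, Int.units_mul_self]; rfl
    rw [this, sign_one, one_mul]
  rintro ⟨h2, h3, h4⟩
  -- all six tuples are injective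
  have hne : ∀ {x y z : SignType}, z ≠ 0 → x * y = z → x ≠ 0 ∧ y ≠ 0 := by
    intro x y z hz hxy
    rw [← hxy] at hz
    exact mul_ne_zero_iff.1 hz
  have hs' : -s ≠ 0 := neg_ne hs
  have h3' := neg_eq_iff_eq_neg.1 h3
  have iab := (hne hs h2).1
  have icd := (hne hs h2).2
  have iac := (hne hs' h3').1
  have ibd := (hne hs' h3').2
  have iad := (hne hs h4).1
  have ibc := (hne hs h4).2
  have hinj : ∀ {x y : ℕ}, chi B (Function.update (Function.update w i x) j y) ≠ 0 →
      Function.Injective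
        (Fin.cons x (Fin.cons y v : Fin (r + 1) → ℕ) : Fin (r + 2) → ℕ) := by
    intro x y hxy
    rw [key] at hxy
    exact chi_ne.1 (right_ne_zero_of_mul hxy)
  have hfac : ∀ {x y : ℕ}, Function.Injective
        (Fin.cons x (Fin.cons y v : Fin (r + 1) → ℕ) : Fin (r + 2) → ℕ) →
      x ≠ y ∧ (∀ k, v k ≠ x) ∧ (∀ k, v k ≠ y) ∧ Function.Injective v := by
    intro x y hxy
    rw [Fin.cons_injective_iff, Fin.cons_injective_iff] at hxy
    obtain ⟨e1, e2, e3⟩ := hxy
    refine ⟨fun e => e1 ⟨0, by simp [e]⟩, fun k e => e1 ⟨k.succ, by simp [e]⟩,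
      fun k e => e2 ⟨k, e⟩, e3⟩
  obtain ⟨nab, fa, fb, vinj⟩ := hfac (hinj iab)
  obtain ⟨ncd, fc, fd, -⟩ := hfac (hinj icd)
  have nac := (hfac (hinj iac)).1
  have nbd := (hfac (hinj ibd)).1
  have nad := (hfac (hinj iad)).1
  have nbc := (hfac (hinj ibc)).1
  have hW : univ.image v ⊆ range N := by
    intro x hx
    obtain ⟨k, -, rfl⟩ := mem_image.1 hx
    exact mem_range.2 (hw _)
  have hcard : (univ.image v).card = r := by
    rw [card_image_of_injective _ vinj, card_univ, Fintype.card_fin]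
  have hnot : ∀ {x : ℕ}, (∀ k, v k ≠ x) → x ∉ univ.image v := by
    intro x hx hx'
    obtain ⟨k, -, hk⟩ := mem_image.1 hx'
    exact hx k hk
  refine not_rel h hW hcard ha hb hc hd (hnot fa) (hnot fb) (hnot fc) (hnot fd)
    nab nac nad nbc nbd ncd ?_
  -- the common factor
  set A : ℕ → SignType := fun x => SignType.sign (∏ k, ((v k : ℤ) - x)) with hA
  have hAne : ∀ {x : ℕ}, (∀ k, v k ≠ x) → A x ≠ 0 := by
    intro x hx h
    have h' := sign_eq_zero_iff.1 h
    rw [Finset.prod_eq_zero_iff] at h'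
    obtain ⟨k, -, hk⟩ := h'
    exact hx k (by omega)
  have hκ : SignType.sign (vd v) ≠ 0 := fun h => vd_ne.2 vinj (sign_eq_zero_iff.1 h)
  have hε : SignType.sign (Equiv.Perm.sign σ : ℤ) * SignType.sign (Equiv.Perm.sign σ : ℤ) = 1 := by
    rw [← sign_mul]
    have : (Equiv.Perm.sign σ : ℤ) * (Equiv.Perm.sign σ : ℤ) = 1 := by
      rw [← Units.val_mul, Int.units_mul_self]; rfl
    rw [this, sign_one]
  have key2 : ∀ x y, chi B (Function.update (Function.update w i x) j y) =
      SignType.sign (Equiv.Perm.sign σ : ℤ) * (A x * A y * SignType.sign (vd v) *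
        qq B (msk (univ.image v)) x y) := by
    intro x y
    rw [key, chi_cons_cons, ← sum_two_pow vinj]
  have prodeq : ∀ x y z t, chi B (Function.update (Function.update w i x) j y) *
      chi B (Function.update (Function.update w i z) j t) =
      (A x * A y * A z * A t) *
        (qq B (msk (univ.image v)) x y * qq B (msk (univ.image v)) z t) := by
    intro x y z t
    rw [key2, key2]
    calc _ = (SignType.sign (Equiv.Perm.sign σ : ℤ) * SignType.sign (Equiv.Perm.sign σ : ℤ)) *
          (SignType.sign (vd v) * SignType.sign (vd v)) * ((A x * A y * A z * A t) *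
        (qq B (msk (univ.image v)) x y * qq B (msk (univ.image v)) z t)) := by ac_rfl
      _ = _ := by rw [hε, sq_one hκ, one_mul, one_mul]
  rw [prodeq] at h2 h3 h4
  have hAA : A a * A b * A c * A d ≠ 0 :=
    mul_ne_zero (mul_ne_zero (mul_ne_zero (hAne fa) (hAne fb)) (hAne fc)) (hAne fd)
  have e2 : A a * A c * A b * A d = A a * A b * A c * A d := by ac_rfl
  have e3 : A a * A d * A b * A c = A a * A b * A c * A d := by ac_rfl
  rw [e2] at h3
  rw [e3] at h4
  refine ⟨(A a * A b * A c * A d) * s, mul_ne_zero hAA hs, ?_, ?_, ?_⟩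
  · rw [← h2, ← mul_assoc, sq_one hAA, one_mul]
  · rw [← h3, mul_neg, ← mul_assoc, sq_one hAA, one_mul]
  · rw [← h4, ← mul_assoc, sq_one hAA, one_mul]

/-! ### Topes -/

/-- Bitwise or of `f 0, ..., f (k - 1)`. -/
def orB : ℕ → (ℕ → ℕ) → ℕ
  | 0, _ => 0
  | k + 1, f => orB k f ||| f k

theorem orB_spec {f : ℕ → ℕ} {m : ℕ} : ∀ {k : ℕ}, (orB k f).testBit m = true →
    ∃ x < k, (f x).testBit m = true
  | 0, h => by simp [orB] at h
  | k + 1, h => by
    rw [orB, Nat.testBit_or, Bool.or_eq_true] at h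
    rcases h with h | h
    · obtain ⟨x, hx, h1⟩ := orB_spec h
      exact ⟨x, by omega, h1⟩
    · exact ⟨k, by omega, h⟩

/-- The tope check of the sign vector with bitmask `U`. -/
def check2 (B L N U : ℕ) : Bool :=
  let ones := 2 ^ 2 ^ N - 1
  let p := fun x => par N x
  let F := orB N fun x => (p (x + 1) ^^^ p x) &&&
    (((B <<< 2 ^ x) ^^^ p x) ^^^ (if U.testBit x then ones else 0))
  let G := orB N fun x => (p (x + 1) ^^^ p x) &&&
    (((B <<< 2 ^ x) ^^^ p x) ^^^ (if U.testBit x then 0 else ones))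
  (F &&& L == L) && (G &&& L == L)

/-- The circuit sign, up to a global sign. -/
def cc (B : ℕ) (S : Finset ℕ) (x : ℕ) : SignType :=
  sg (decide ((S.filter (· < x)).card % 2 = 1)) * sg (B.testBit (msk S - 2 ^ x))

theorem filter_card_succ {S : Finset ℕ} {x : ℕ} :
    (S.filter (· < x + 1)).card = (S.filter (· < x)).card + if x ∈ S then 1 else 0 := by
  by_cases h : x ∈ S
  · rw [if_pos h]
    have : S.filter (· < x + 1) = insert x (S.filter (· < x)) := by
      ext t
      simp only [mem_filter, mem_insert]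
      constructor
      · rintro ⟨h1, h2⟩
        by_cases ht : t = x
        · exact Or.inl ht
        · exact Or.inr ⟨h1, by omega⟩
      · rintro (rfl | ⟨h1, h2⟩)
        · exact ⟨h, by omega⟩
        · exact ⟨h1, by omega⟩
    rw [this, card_insert_of_notMem (by simp)]
  · rw [if_neg h, add_zero]
    congr 1
    ext t
    simp only [mem_filter, and_congr_right_iff]
    intro ht
    have : t ≠ x := fun e => h (e ▸ ht)
    omega

theorem testBit_par_xor {N x : ℕ} {S : Finset ℕ} (hS : S ⊆ range N) :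
    (par N (x + 1) ^^^ par N x).testBit (msk S) = decide (x ∈ S) := by
  rw [Nat.testBit_xor, par_testBit N _ S hS, par_testBit N _ S hS, filter_card_succ]
  by_cases h : x ∈ S
  · rw [if_pos h]
    rcases Nat.mod_two_eq_zero_or_one ((S.filter (· < x)).card) with h1 | h1
    · have h2 : ((S.filter (· < x)).card + 1) % 2 = 1 := by omega
      simp [h, h1, h2]
    · have h2 : ((S.filter (· < x)).card + 1) % 2 = 0 := by omega
      simp [h, h1, h2]
  · simp [h]

theorem check2_spec {B N k U : ℕ} (h : check2 B (lay N k) N U = true) {S : Finset ℕ}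
    (hS : S ⊆ range N) (hk : S.card = k) :
    (∃ x ∈ S, cc B S x * sg (U.testBit x) = -1) ∧ (∃ x ∈ S, cc B S x * sg (U.testBit x) = 1) := by
  have hL := lay_testBit N k S hS hk
  have hm := msk_lt hS
  unfold check2 at h
  rw [Bool.and_eq_true] at h
  obtain ⟨h1, h2⟩ := h
  have h1' := congrArg (fun t => Nat.testBit t (msk S)) (beq_iff_eq.1 h1)
  have h2' := congrArg (fun t => Nat.testBit t (msk S)) (beq_iff_eq.1 h2)
  simp only [Nat.testBit_and, hL, Bool.and_true] at h1' h2'
  obtain ⟨x, hx, hx'⟩ := orB_spec h1'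
  obtain ⟨y, hy, hy'⟩ := orB_spec h2'
  have hpow : ∀ {x}, x ∈ S → 2 ^ x ≤ msk S := fun {x} hx =>
    single_le_sum (f := fun x => 2 ^ x) (fun _ _ => Nat.zero_le _) hx
  have h3 : (2 ^ 2 ^ N - 1).testBit (msk S) = true := by
    rw [Nat.testBit_two_pow_sub_one]; simp [hm]
  refine ⟨⟨x, ?_⟩, ⟨y, ?_⟩⟩
  · rw [Nat.testBit_and, testBit_par_xor hS, Bool.and_eq_true] at hx'
    obtain ⟨hxS, hx2⟩ := hx'
    have hxS' : x ∈ S := by simpa using hxS
    refine ⟨hxS', ?_⟩
    rw [Nat.testBit_xor, Nat.testBit_xor, Nat.testBit_shiftLeft, par_testBit N _ S hS] at hx2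
    have h4 : (if U.testBit x then 2 ^ 2 ^ N - 1 else 0 : ℕ).testBit (msk S) = U.testBit x := by
      split_ifs with hu
      · rw [h3, hu]
      · simp [hu]
    rw [h4] at hx2
    simp only [ge_iff_le, hpow hxS', decide_true, Bool.true_and] at hx2
    rw [cc, sg_mul, sg_mul]
    have : (-1 : SignType) = sg true := rfl
    rw [this]
    congr 1
    rw [← hx2]
    generalize decide ((S.filter (· < x)).card % 2 = 1) = u
    generalize (B.testBit (msk S - 2 ^ x)) = v
    generalize U.testBit x = t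
    cases u <;> cases v <;> cases t <;> decide
  · rw [Nat.testBit_and, testBit_par_xor hS, Bool.and_eq_true] at hy'
    obtain ⟨hyS, hy2⟩ := hy'
    have hyS' : y ∈ S := by simpa using hyS
    refine ⟨hyS', ?_⟩
    rw [Nat.testBit_xor, Nat.testBit_xor, Nat.testBit_shiftLeft, par_testBit N _ S hS] at hy2
    have h4 : (if U.testBit y then 0 else 2 ^ 2 ^ N - 1 : ℕ).testBit (msk S) = !U.testBit y := by
      split_ifs with hu
      · simp [hu]
      · rw [h3]; simp [hu]
    rw [h4] at hy2
    simp only [ge_iff_le, hpow hyS', decide_true, Bool.true_and] at hy2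
    rw [cc, sg_mul, sg_mul]
    have : (1 : SignType) = sg false := rfl
    rw [this]
    congr 1
    revert hy2
    generalize decide ((S.filter (· < y)).card % 2 = 1) = u
    generalize (B.testBit (msk S - 2 ^ y)) = v
    generalize U.testBit y = t
    cases u <;> cases v <;> cases t <;> decide

theorem cc_eq {B r : ℕ} {z : Fin r → ℕ} {y : ℕ}
    (h : Function.Injective (Fin.cons y z : Fin (r + 1) → ℕ)) :
    cc B (insert y (univ.image z)) y =
      SignType.sign (vd (Fin.cons y z : Fin (r + 1) → ℕ)) * chi B z := by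
  rw [Fin.cons_injective_iff] at h
  obtain ⟨h1, h2⟩ := h
  have h3 : ∀ k, z k ≠ y := fun k e => h1 ⟨k, e⟩
  have h4 : y ∉ univ.image z := by
    intro hy
    obtain ⟨k, -, hk⟩ := mem_image.1 hy
    exact h3 k hk
  have hκ : SignType.sign (vd z) ≠ 0 := fun h => vd_ne.2 h2 (sign_eq_zero_iff.1 h)
  rw [vd_cons, sign_mul, sign_prod z y h3, chi, cc, msk_insert h4, Nat.add_sub_cancel_left,
    sum_two_pow h2]
  have h5 : ((insert y (univ.image z)).filter (· < y)).card =
      (univ.filter (fun k => z k < y)).card := by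
    rw [filter_insert, if_neg (lt_irrefl _), filter_image, card_image_of_injective _ h2]
  rw [h5]
  calc _ = sg (decide ((univ.filter (fun k => z k < y)).card % 2 = 1)) *
        (SignType.sign (vd z) * SignType.sign (vd z)) * sg (B.testBit (msk (univ.image z))) := by
        rw [sq_one hκ, mul_one]
    _ = _ := by ac_rfl

theorem isTope_of_check {E : Type} {B N r U : ℕ} (e : E → ℕ)
    (hN : ∀ x, e x < N) (h : check2 B (lay N (r + 1)) N U = true) (u : E → SignType)
    (hu : ∀ x, u x = sg (U.testBit (e x))) :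
    IsTope (fun w : Fin r → E => chi B (e ∘ w)) u := by
  refine ⟨fun x => by rw [hu]; exact sg_ne _, ?_⟩
  intro w y hw
  by_contra hcon
  push Not at hcon
  have hz := chi_ne.1 hw
  set z := e ∘ w with hzdef
  have hup : ∀ i, e ∘ Function.update w i y = Function.update z i (e y) := by
    intro i
    funext k
    by_cases hk : k = i
    · subst hk; simp
    · simp [Function.update_of_ne hk, hzdef]
  have hy : ∀ k, z k ≠ e y := by
    intro k hk
    apply hcon k
    have h1 : Function.update z k (e y) = z := by rw [← hk]; exact Function.update_eq_self _ _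
    have h2 : u (w k) = u y := by
      rw [hu, hu]; congr 2
    simp only [hup, h1, h2]
  have hinj : Function.Injective (Fin.cons (e y) z : Fin (r + 1) → ℕ) := by
    rw [Fin.cons_injective_iff]
    exact ⟨fun ⟨k, hk⟩ => hy k hk, hz⟩
  set S : Finset ℕ := insert (e y) (univ.image z) with hSdef
  have hS : S ⊆ range N := by
    intro x hx
    rw [hSdef, mem_insert] at hx
    rcases hx with rfl | hx
    · exact mem_range.2 (hN _)
    · obtain ⟨k, -, rfl⟩ := mem_image.1 hx
      exact mem_range.2 (hN _)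
  have hyz : e y ∉ univ.image z := by
    intro h'
    obtain ⟨k, -, hk⟩ := mem_image.1 h'
    exact hy k hk
  have hcard : S.card = r + 1 := by
    rw [hSdef, card_insert_of_notMem hyz, card_image_of_injective _ hz, card_univ,
      Fintype.card_fin]
  set lam := SignType.sign (vd (Fin.cons (e y) z : Fin (r + 1) → ℕ)) with hlam
  have hlam0 : lam ≠ 0 := fun h' => vd_ne.2 hinj (sign_eq_zero_iff.1 h')
  have c0 : cc B S (e y) = lam * chi B z := cc_eq hinj
  have c1 : ∀ i, cc B S (z i) = - (lam * chi B (Function.update z i (e y))) := by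
    intro i
    have e1 : (Fin.cons (z i) (Function.update z i (e y)) : Fin (r + 1) → ℕ) =
        (Fin.cons (e y) z : Fin (r + 1) → ℕ) ∘ Equiv.swap 0 i.succ := by
      funext k
      refine Fin.cases ?_ (fun k => ?_) k
      · simp
      · by_cases hk : k = i
        · subst hk; simp
        · have h1 : k.succ ≠ i.succ := fun h' => hk (Fin.succ_injective _ h')
          simp [Function.update_of_ne hk, Equiv.swap_apply_of_ne_of_ne (Fin.succ_ne_zero k) h1]
    have e2 : Function.Injective (Fin.cons (z i) (Function.update z i (e y)) :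
        Fin (r + 1) → ℕ) := by
      rw [e1]; exact hinj.comp (Equiv.injective _)
    have e3 : S = insert (z i) (univ.image (Function.update z i (e y))) := by
      ext t
      rw [hSdef]
      simp only [mem_insert, mem_image, mem_univ, true_and]
      constructor
      · rintro (rfl | ⟨k, rfl⟩)
        · exact Or.inr ⟨i, by simp⟩
        · by_cases hk : k = i
          · exact Or.inl (by rw [hk])
          · exact Or.inr ⟨k, by simp [Function.update_of_ne hk]⟩
      · rintro (rfl | ⟨k, rfl⟩)
        · exact Or.inr ⟨i, rfl⟩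
        · by_cases hk : k = i
          · subst hk; exact Or.inl (by simp)
          · exact Or.inr ⟨k, by simp [Function.update_of_ne hk]⟩
    rw [e3, cc_eq e2, e1, vd_perm, Equiv.Perm.sign_swap (Fin.succ_ne_zero i).symm, hlam]
    simp [Left.sign_neg]
  have hne1 : ∀ i, chi B (Function.update z i (e y)) ≠ 0 := by
    intro i
    rw [chi_ne]
    intro a b hab
    by_cases ha : a = i
    · by_cases hb : b = i
      · rw [ha, hb]
      · exfalso
        rw [ha, Function.update_self, Function.update_of_ne hb] at hab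
        exact hy b hab.symm
    · by_cases hb : b = i
      · exfalso
        rw [hb, Function.update_self, Function.update_of_ne ha] at hab
        exact hy a hab
      · rw [Function.update_of_ne ha, Function.update_of_ne hb] at hab
        exact hz hab
  have hneg : ∀ i, chi B (Function.update z i (e y)) * sg (U.testBit (z i)) =
      - (chi B z * sg (U.testBit (e y))) := by
    intro i
    have h1 := hcon i
    simp only [hup, hu] at h1
    exact eq_neg_of_ne (mul_ne_zero (hne1 i) (sg_ne _)) (mul_ne_zero hw (sg_ne _)) h1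
  have hall : ∀ x ∈ S, cc B S x * sg (U.testBit x) = lam * (chi B z * sg (U.testBit (e y))) := by
    intro x hx
    rw [hSdef, mem_insert] at hx
    rcases hx with rfl | hx
    · rw [c0, mul_assoc]
    · obtain ⟨i, -, rfl⟩ := mem_image.1 hx
      rw [c1, neg_mul, mul_assoc, hneg, mul_neg, neg_neg]
  obtain ⟨⟨x1, hx1, h1⟩, ⟨x2, hx2, h2⟩⟩ := check2_spec h hS hcard
  rw [hall x1 hx1] at h1
  rw [hall x2 hx2, h1] at h2
  exact absurd h2 (by decide)

end Pool.Agent.OM247.Exist
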