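import Pool.Agent.OM247.Lit

/-!
Rank 4 data on the nonzero vectors of `F_2^4`, and the validity of the input clauses.
-/

namespace Pool.Agent.OM247

/-- The contraction of a uniform oriented matroid of rank 5 on `F_2^4` (topes: the characters)
at the point `0`.  Points are `1, ..., 15`, added by `xor`. -/
structure Good (P : ℕ → ℕ → ℕ → ℕ → SignType) : Prop extends Alt4 P where
  nz : ∀ a b c d, 0 < a → 0 < b → 0 < c → 0 < d → a < 16 → b < 16 → c < 16 → d < 16 →
    a ≠ b → a ≠ c → a ≠ d → b ≠ c → b ≠ d → c ≠ d → P a b c d ≠ 0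
  gp : ∀ x y a b c d, 0 < x → 0 < y → 0 < a → 0 < b → 0 < c → 0 < d →
    x < 16 → y < 16 → a < 16 → b < 16 → c < 16 → d < 16 →
    x ≠ y → x ≠ a → x ≠ b → x ≠ c → x ≠ d → y ≠ a → y ≠ b → y ≠ c → y ≠ d →
    a ≠ b → a ≠ c → a ≠ d → b ≠ c → b ≠ d → c ≠ d →
    ∀ s : SignType, s ≠ 0 → ¬ (P x y a b * P x y c d = s ∧ -(P x y a c * P x y b d) = s ∧
      P x y a d * P x y b c = s)
  par : ∀ a b c e, 0 < a → 0 < b → 0 < c → 0 < e → a < 16 → b < 16 → c < 16 → e < 16 →
    a ≠ b → a ≠ c → b ≠ c → a ^^^ b ≠ c →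
    e ≠ a → e ≠ b → e ≠ c → e ≠ a ^^^ b ^^^ c → e ≠ a ^^^ b → e ≠ a ^^^ c → e ≠ b ^^^ c →
    P b c (a ^^^ b ^^^ c) e * P a c (a ^^^ b ^^^ c) e * P a b (a ^^^ b ^^^ c) e * P a b c e = -1

/-- the packed clause `d` is the list `ls` -/
noncomputable def matchToks (ls : List ℕ) : ℕ → Bool :=
  @List.rec ℕ (fun _ => ℕ → Bool) (fun d => Nat.beq (Nat.land d (nat_lit 4095)) (nat_lit 0))
    (fun l _ ih d => @Bool.rec (fun _ => Bool) false (ih (Nat.shiftRight d (nat_lit 12)))
      (Nat.beq (Nat.land d (nat_lit 4095)) (Nat.succ l))) ls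

lemma matchToks_spec : ∀ (ls : List ℕ) (d k : ℕ), ls.length < k → matchToks ls d = true →
    toks k d = ls := by
  intro ls
  induction ls with
  | nil =>
    intro d k hk h
    obtain ⟨k, rfl⟩ : ∃ k', k = k' + 1 := ⟨k - 1, by simp at hk; omega⟩
    exact toks_succ_zero k d h
  | cons l ls ih =>
    intro d k hk h
    obtain ⟨k, rfl⟩ : ∃ k', k = k' + 1 := ⟨k - 1, by omega⟩
    have hdef : matchToks (l :: ls) d = @Bool.rec (fun _ => Bool) false
      (matchToks ls (Nat.shiftRight d 12)) (Nat.beq (Nat.land d 4095) (Nat.succ l)) := rfl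
    rw [hdef] at h
    by_cases h1 : Nat.beq (Nat.land d 4095) (Nat.succ l) = true
    · rw [h1] at h
      have h2 : Nat.land d 4095 = Nat.succ l := Nat.eq_of_beq_eq_true h1
      have h3 : Nat.beq (Nat.land d 4095) 0 = false := by rw [h2]; rfl
      rw [toks_succ k d h3, h2, ih _ k (by simp at hk; omega) h]
      simp
    · rw [Bool.not_eq_true] at h1
      rw [h1] at h
      exact absurd h (by show ¬ (false = true); decide)

/-- bit `k` of `x` -/
def bitb (x k : ℕ) : Bool := Nat.beq (Nat.land (Nat.shiftRight x k) (nat_lit 1)) (nat_lit 1)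

/-- field of 4 bits -/
def fld (x k : ℕ) : ℕ := Nat.land (Nat.shiftRight x k) (nat_lit 15)

lemma fld_lt (x k : ℕ) : fld x k < 16 := by
  have : fld x k ≤ 15 := Nat.and_le_right
  omega

/-- `a` and `b` are distinct -/
def dist (a b : ℕ) : Bool := not (Nat.beq a b)

lemma dist_spec {a b : ℕ} (h : dist a b = true) : a ≠ b := by
  intro hab
  subst hab
  unfold dist at h
  simp at h

/-- the clause excluding three equal products in a three term Grassmann Plücker relation -/
noncomputable def gpLits (x y a b c d : ℕ) (s m0 m1 m2 : Bool) : List ℕ :=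
  [enc x y a b (not m0), enc x y c d (not (xor m0 s)), enc x y a c (not m1),
    enc x y b d (xor m1 s), enc x y a d (not m2), enc x y b c (not (xor m2 s))]

/-- the clause for an even pattern on an affine plane -/
noncomputable def parLits (a b c d e : ℕ) (m0 m1 m2 : Bool) : List ℕ :=
  [enc b c d e (not m0), enc a c d e (not m1), enc a b d e (not m2),
    enc a b c e (not (xor m0 (xor m1 m2)))]

/-- short circuit conjunction -/
def an (a b : Bool) : Bool := @Bool.rec (fun _ => Bool) false b a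

lemma an_spec {a b : Bool} (h : an a b = true) : a = true ∧ b = true := by
  cases a
  · exact absurd h (by show ¬ (false = true); decide)
  · exact ⟨rfl, h⟩

/-- check of a Grassmann Plücker clause with descriptor `D` -/
noncomputable def gpOK' (x y a b c d D d' : ℕ) : Bool :=
  an (dist x 0) <| an (dist y 0) <| an (dist a 0) <| an (dist b 0) <| an (dist c 0) <|
  an (dist d 0) <| an (dist x y) <| an (dist x a) <| an (dist x b) <| an (dist x c) <|
  an (dist x d) <| an (dist y a) <| an (dist y b) <| an (dist y c) <| an (dist y d) <|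
  an (dist a b) <| an (dist a c) <| an (dist a d) <| an (dist b c) <| an (dist b d) <|
  an (dist c d) <| matchToks (gpLits x y a b c d (bitb D 24) (bitb D 25) (bitb D 26)
    (bitb D 27)) d'

noncomputable def gpOK (D d' : ℕ) : Bool :=
  gpOK' (fld D 0) (fld D 4) (fld D 8) (fld D 12) (fld D 16) (fld D 20) D d'

/-- check of a parity clause with descriptor `D` -/
noncomputable def parOK' (a b c d e D d' : ℕ) : Bool :=
  an (dist a 0) <| an (dist b 0) <| an (dist c 0) <| an (dist e 0) <|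
  an (dist a b) <| an (dist a c) <| an (dist b c) <| an (dist (Nat.xor a b) c) <|
  an (dist e a) <| an (dist e b) <| an (dist e c) <| an (dist e d) <|
  an (dist e (Nat.xor a b)) <| an (dist e (Nat.xor a c)) <| an (dist e (Nat.xor b c)) <|
  matchToks (parLits a b c d e (bitb D 25) (bitb D 26) (bitb D 27)) d'

noncomputable def parOK (D d' : ℕ) : Bool :=
  parOK' (fld D 0) (fld D 4) (fld D 8) (Nat.xor (Nat.xor (fld D 0) (fld D 4)) (fld D 8))
    (fld D 12) D d'

lemma sg_of_ne {v : SignType} (h0 : v ≠ 0) {t : Bool} (h : ¬ v = sg (!t)) : v = sg t := by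
  revert h h0; cases v <;> cases t <;> decide

lemma sg_mul (s t : Bool) : sg s * sg t = sg (xor s t) := by cases s <;> cases t <;> decide

theorem gpOK_sound {P : ℕ → ℕ → ℕ → ℕ → SignType} (hP : Good P) {D d' : ℕ}
    (h : gpOK D d' = true) : ClauseT (litT P) d' := by
  have hx := fld_lt D 0
  have hy := fld_lt D 4
  have ha := fld_lt D 8
  have hb := fld_lt D 12
  have hc := fld_lt D 16
  have hd := fld_lt D 20
  unfold gpOK at h
  generalize fld D 0 = x at h hx
  generalize fld D 4 = y at h hy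
  generalize fld D 8 = a at h ha
  generalize fld D 12 = b at h hb
  generalize fld D 16 = c at h hc
  generalize fld D 20 = d at h hd
  generalize hs : bitb D 24 = s
  generalize hm0 : bitb D 25 = m0
  generalize hm1 : bitb D 26 = m1
  generalize hm2 : bitb D 27 = m2
  unfold gpOK' at h
  rw [hs, hm0, hm1, hm2] at h
  obtain ⟨g1, h⟩ := an_spec h
  obtain ⟨g2, h⟩ := an_spec h
  obtain ⟨g3, h⟩ := an_spec h
  obtain ⟨g4, h⟩ := an_spec h
  obtain ⟨g5, h⟩ := an_spec h
  obtain ⟨g6, h⟩ := an_spec h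
  obtain ⟨g7, h⟩ := an_spec h
  obtain ⟨g8, h⟩ := an_spec h
  obtain ⟨g9, h⟩ := an_spec h
  obtain ⟨g10, h⟩ := an_spec h
  obtain ⟨g11, h⟩ := an_spec h
  obtain ⟨g12, h⟩ := an_spec h
  obtain ⟨g13, h⟩ := an_spec h
  obtain ⟨g14, h⟩ := an_spec h
  obtain ⟨g15, h⟩ := an_spec h
  obtain ⟨g16, h⟩ := an_spec h
  obtain ⟨g17, h⟩ := an_spec h
  obtain ⟨g18, h⟩ := an_spec h
  obtain ⟨g19, h⟩ := an_spec h
  obtain ⟨g20, h⟩ := an_spec h
  obtain ⟨g21, h⟩ := an_spec h
  have x0 := dist_spec g1
  have y0 := dist_spec g2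
  have a0 := dist_spec g3
  have b0 := dist_spec g4
  have c0 := dist_spec g5
  have d0 := dist_spec g6
  have xy := dist_spec g7
  have xa := dist_spec g8
  have xb := dist_spec g9
  have xc := dist_spec g10
  have xd := dist_spec g11
  have ya := dist_spec g12
  have yb := dist_spec g13
  have yc := dist_spec g14
  have yd := dist_spec g15
  have ab := dist_spec g16
  have ac := dist_spec g17
  have ad := dist_spec g18
  have bc := dist_spec g19
  have bd := dist_spec g20
  have cd := dist_spec g21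
  have px : 0 < x := Nat.pos_of_ne_zero x0
  have py : 0 < y := Nat.pos_of_ne_zero y0
  have pa : 0 < a := Nat.pos_of_ne_zero a0
  have pb : 0 < b := Nat.pos_of_ne_zero b0
  have pc : 0 < c := Nat.pos_of_ne_zero c0
  have pd : 0 < d := Nat.pos_of_ne_zero d0
  have htoks := matchToks_spec _ d' 100 (by simp [gpLits]) h
  by_contra hcon
  have hall : ∀ l ∈ gpLits x y a b c d s m0 m1 m2, ¬ litT P l := by
    intro l hl hT
    exact hcon ⟨l, by rw [htoks]; exact hl, hT⟩
  have e1 := hall (enc x y a b (not m0)) (by simp [gpLits])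
  have e2 := hall (enc x y c d (not (xor m0 s))) (by simp [gpLits])
  have e3 := hall (enc x y a c (not m1)) (by simp [gpLits])
  have e4 := hall (enc x y b d (xor m1 s)) (by simp [gpLits])
  have e5 := hall (enc x y a d (not m2)) (by simp [gpLits])
  have e6 := hall (enc x y b c (not (xor m2 s))) (by simp [gpLits])
  rw [enc_spec hP.toAlt4 xy xa ya xb yb ab hx hy ha hb] at e1
  rw [enc_spec hP.toAlt4 xy xc yc xd yd cd hx hy hc hd] at e2
  rw [enc_spec hP.toAlt4 xy xa ya xc yc ac hx hy ha hc] at e3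
  rw [enc_spec hP.toAlt4 xy xb yb xd yd bd hx hy hb hd] at e4
  rw [enc_spec hP.toAlt4 xy xa ya xd yd ad hx hy ha hd] at e5
  rw [enc_spec hP.toAlt4 xy xb yb xc yc bc hx hy hb hc] at e6
  have f1 := sg_of_ne (hP.nz x y a b px py pa pb hx hy ha hb xy xa xb ya yb ab) e1
  have f2 := sg_of_ne (hP.nz x y c d px py pc pd hx hy hc hd xy xc xd yc yd cd) e2
  have f3 := sg_of_ne (hP.nz x y a c px py pa pc hx hy ha hc xy xa xc ya yc ac) e3
  have f4 := sg_of_ne (t := !(xor m1 s))
    (hP.nz x y b d px py pb pd hx hy hb hd xy xb xd yb yd bd) (by rw [Bool.not_not]; exact e4)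
  have f5 := sg_of_ne (hP.nz x y a d px py pa pd hx hy ha hd xy xa xd ya yd ad) e5
  have f6 := sg_of_ne (hP.nz x y b c px py pb pc hx hy hb hc xy xb xc yb yc bc) e6
  apply hP.gp x y a b c d px py pa pb pc pd hx hy ha hb hc hd xy xa xb xc xd ya yb yc yd ab ac
    ad bc bd cd (sg s) (sg_ne_zero s)
  rw [f1, f2, f3, f4, f5, f6]
  refine ⟨?_, ?_, ?_⟩
  · cases m0 <;> cases s <;> decide
  · cases m1 <;> cases s <;> decide
  · cases m2 <;> cases s <;> decide

lemma xor_ne_of_ne {a b c : ℕ} (h : b ≠ c) : a ^^^ b ^^^ c ≠ a := by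
  intro h1
  apply h
  have h2 : a ^^^ (a ^^^ b ^^^ c) = a ^^^ a := by rw [h1]
  rw [Nat.xor_assoc, Nat.xor_xor_cancel_left, Nat.xor_self] at h2
  exact Nat.xor_eq_zero_iff.mp h2

theorem parOK_sound {P : ℕ → ℕ → ℕ → ℕ → SignType} (hP : Good P) {D d' : ℕ}
    (h : parOK D d' = true) : ClauseT (litT P) d' := by
  have ha := fld_lt D 0
  have hb := fld_lt D 4
  have hc := fld_lt D 8
  have he := fld_lt D 12
  unfold parOK at h
  generalize fld D 0 = a at h ha
  generalize fld D 4 = b at h hb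
  generalize fld D 8 = c at h hc
  generalize fld D 12 = e at h he
  generalize hm0 : bitb D 25 = m0
  generalize hm1 : bitb D 26 = m1
  generalize hm2 : bitb D 27 = m2
  unfold parOK' at h
  rw [hm0, hm1, hm2] at h
  obtain ⟨g1, h⟩ := an_spec h
  obtain ⟨g2, h⟩ := an_spec h
  obtain ⟨g3, h⟩ := an_spec h
  obtain ⟨g4, h⟩ := an_spec h
  obtain ⟨g5, h⟩ := an_spec h
  obtain ⟨g6, h⟩ := an_spec h
  obtain ⟨g7, h⟩ := an_spec h
  obtain ⟨g8, h⟩ := an_spec h
  obtain ⟨g9, h⟩ := an_spec h
  obtain ⟨g10, h⟩ := an_spec h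
  obtain ⟨g11, h⟩ := an_spec h
  obtain ⟨g12, h⟩ := an_spec h
  obtain ⟨g13, h⟩ := an_spec h
  obtain ⟨g14, h⟩ := an_spec h
  obtain ⟨g15, h⟩ := an_spec h
  have pa : 0 < a := Nat.pos_of_ne_zero (dist_spec g1)
  have pb : 0 < b := Nat.pos_of_ne_zero (dist_spec g2)
  have pc : 0 < c := Nat.pos_of_ne_zero (dist_spec g3)
  have pe : 0 < e := Nat.pos_of_ne_zero (dist_spec g4)
  have ab := dist_spec g5
  have ac := dist_spec g6
  have bc := dist_spec g7
  have abc : a ^^^ b ≠ c := dist_spec g8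
  have ea := dist_spec g9
  have eb := dist_spec g10
  have ec := dist_spec g11
  have ed : e ≠ a ^^^ b ^^^ c := dist_spec g12
  have eab : e ≠ a ^^^ b := dist_spec g13
  have eac : e ≠ a ^^^ c := dist_spec g14
  have ebc : e ≠ b ^^^ c := dist_spec g15
  have hd' : Nat.xor (Nat.xor a b) c = a ^^^ b ^^^ c := rfl
  rw [hd'] at h
  generalize hdd : a ^^^ b ^^^ c = d at h ed
  have hd : d < 16 := by
    rw [← hdd]
    exact Nat.xor_lt_two_pow (n := 4) (Nat.xor_lt_two_pow (n := 4) ha hb) hc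
  have da : d ≠ a := by rw [← hdd]; exact xor_ne_of_ne bc
  have db : d ≠ b := by
    rw [← hdd, Nat.xor_comm a b]; exact xor_ne_of_ne ac
  have dc : d ≠ c := by
    rw [← hdd, Nat.xor_comm _ c, ← Nat.xor_assoc]
    intro hh
    have := xor_ne_of_ne (a := c) ab
    exact this hh
  have d0 : d ≠ 0 := by
    rw [← hdd]
    intro hh
    exact abc (Nat.xor_eq_zero_iff.mp hh)
  have pd : 0 < d := Nat.pos_of_ne_zero d0
  have htoks := matchToks_spec _ d' 100 (by simp [parLits]) h
  by_contra hcon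
  have hall : ∀ l ∈ parLits a b c d e m0 m1 m2, ¬ litT P l := by
    intro l hl hT
    exact hcon ⟨l, by rw [htoks]; exact hl, hT⟩
  have e1 := hall (enc b c d e (not m0)) (by simp [parLits])
  have e2 := hall (enc a c d e (not m1)) (by simp [parLits])
  have e3 := hall (enc a b d e (not m2)) (by simp [parLits])
  have e4 := hall (enc a b c e (not (xor m0 (xor m1 m2)))) (by simp [parLits])
  rw [enc_spec hP.toAlt4 bc db.symm dc.symm eb.symm ec.symm ed.symm hb hc hd he] at e1
  rw [enc_spec hP.toAlt4 ac da.symm dc.symm ea.symm ec.symm ed.symm ha hc hd he] at e2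
  rw [enc_spec hP.toAlt4 ab da.symm db.symm ea.symm eb.symm ed.symm ha hb hd he] at e3
  rw [enc_spec hP.toAlt4 ab ac bc ea.symm eb.symm ec.symm ha hb hc he] at e4
  have f1 := sg_of_ne (hP.nz b c d e pb pc pd pe hb hc hd he bc db.symm eb.symm dc.symm
    ec.symm ed.symm) e1
  have f2 := sg_of_ne (hP.nz a c d e pa pc pd pe ha hc hd he ac da.symm ea.symm dc.symm
    ec.symm ed.symm) e2
  have f3 := sg_of_ne (hP.nz a b d e pa pb pd pe ha hb hd he ab da.symm ea.symm db.symm
    eb.symm ed.symm) e3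
  have f4 := sg_of_ne (hP.nz a b c e pa pb pc pe ha hb hc he ab ac ea.symm bc
    eb.symm ec.symm) e4
  have hpar := hP.par a b c e pa pb pc pe ha hb hc he ab ac bc abc ea eb ec
    (by rw [hdd]; exact ed) eab eac ebc
  rw [hdd, f1, f2, f3, f4] at hpar
  revert hpar
  cases m0 <;> cases m1 <;> cases m2 <;> decide

end Pool.Agent.OM247
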