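import Pool.Agent.OM247.Lower
import Pool.Agent.OM247.Good

/-!
The contraction at `0` of a uniform rank 5 completion of the Sylvester Hadamard rows of order 16
is a `Good` rank 4 structure.
-/

namespace Pool.Agent.OM247

open Function

namespace FromOM

/-- the point with code `x` -/
def pt (x : ℕ) : Fin 4 → ZMod 2 := fun i => if x.testBit i then 1 else 0

lemma pt_xor (x y : ℕ) : pt (x ^^^ y) = pt x + pt y := by
  funext i
  simp only [pt, Nat.testBit_xor, Pi.add_apply]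
  cases x.testBit i <;> cases y.testBit i <;> decide

lemma pt_zero : pt 0 = 0 := by
  funext i; simp [pt]

lemma pt_inj {x y : ℕ} (hx : x < 16) (hy : y < 16) (h : pt x = pt y) : x = y := by
  apply Nat.eq_of_testBit_eq
  intro i
  by_cases hi : i < 4
  · have h1 := congrFun h ⟨i, hi⟩
    simp only [pt] at h1
    revert h1
    cases x.testBit i <;> cases y.testBit i <;> decide
  · have h2 : (16 : ℕ) ≤ 2 ^ i := by
      calc (16 : ℕ) = 2 ^ 4 := by norm_num
        _ ≤ 2 ^ i := Nat.pow_le_pow_right (by norm_num) (by omega)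
    rw [Nat.testBit_eq_false_of_lt (lt_of_lt_of_le hx h2),
      Nat.testBit_eq_false_of_lt (lt_of_lt_of_le hy h2)]

lemma pt_ne {x y : ℕ} (hx : x < 16) (hy : y < 16) (h : x ≠ y) : pt x ≠ pt y :=
  fun h' => h (pt_inj hx hy h')

lemma zero_ne_pt {x : ℕ} (hx : x < 16) (h : 0 < x) : (0 : Fin 4 → ZMod 2) ≠ pt x := by
  rw [← pt_zero]; exact pt_ne (by norm_num) hx (by omega)

variable {χ : (Fin 5 → (Fin 4 → ZMod 2)) → SignType}

lemma a01 (h : IsChirotope χ) (x0 x1 x2 x3 x4 : Fin 4 → ZMod 2) :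
    χ ![x1, x0, x2, x3, x4] = - χ ![x0, x1, x2, x3, x4] := by
  rw [← h.alternating ![x0, x1, x2, x3, x4] 0 1 (by decide)]
  congr 1; funext k; fin_cases k <;> rfl

lemma a12 (h : IsChirotope χ) (x0 x1 x2 x3 x4 : Fin 4 → ZMod 2) :
    χ ![x0, x2, x1, x3, x4] = - χ ![x0, x1, x2, x3, x4] := by
  rw [← h.alternating ![x0, x1, x2, x3, x4] 1 2 (by decide)]
  congr 1; funext k; fin_cases k <;> rfl

lemma a23 (h : IsChirotope χ) (x0 x1 x2 x3 x4 : Fin 4 → ZMod 2) :
    χ ![x0, x1, x3, x2, x4] = - χ ![x0, x1, x2, x3, x4] := by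
  rw [← h.alternating ![x0, x1, x2, x3, x4] 2 3 (by decide)]
  congr 1; funext k; fin_cases k <;> rfl

lemma a34 (h : IsChirotope χ) (x0 x1 x2 x3 x4 : Fin 4 → ZMod 2) :
    χ ![x0, x1, x2, x4, x3] = - χ ![x0, x1, x2, x3, x4] := by
  rw [← h.alternating ![x0, x1, x2, x3, x4] 3 4 (by decide)]
  congr 1; funext k; fin_cases k <;> rfl

lemma inj5 {x0 x1 x2 x3 x4 : Fin 4 → ZMod 2} (h01 : x0 ≠ x1) (h02 : x0 ≠ x2) (h03 : x0 ≠ x3)
    (h04 : x0 ≠ x4) (h12 : x1 ≠ x2) (h13 : x1 ≠ x3) (h14 : x1 ≠ x4) (h23 : x2 ≠ x3)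
    (h24 : x2 ≠ x4) (h34 : x3 ≠ x4) : Injective ![x0, x1, x2, x3, x4] := by
  intro i j hij
  fin_cases i <;> fin_cases j <;> first
    | rfl
    | exact absurd hij h01
    | exact absurd hij h02
    | exact absurd hij h03
    | exact absurd hij h04
    | exact absurd hij h12
    | exact absurd hij h13
    | exact absurd hij h14
    | exact absurd hij h23
    | exact absurd hij h24
    | exact absurd hij h34
    | exact absurd hij.symm h01
    | exact absurd hij.symm h02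
    | exact absurd hij.symm h03
    | exact absurd hij.symm h04
    | exact absurd hij.symm h12
    | exact absurd hij.symm h13
    | exact absurd hij.symm h14
    | exact absurd hij.symm h23
    | exact absurd hij.symm h24
    | exact absurd hij.symm h34

lemma gp5 (h : IsChirotope χ) (x y a b c d : Fin 4 → ZMod 2) {s : SignType} (hs : s ≠ 0)
    (h1 : χ ![0, x, y, a, b] * χ ![0, x, y, c, d] = s)
    (h2 : -(χ ![0, x, y, a, c] * χ ![0, x, y, b, d]) = s)
    (h3 : χ ![0, x, y, a, d] * χ ![0, x, y, b, c] = s) : False := by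
  have hz : ∀ (t : Fin 5 → (Fin 4 → ZMod 2)) (i j : Fin 5), i ≠ j → t i = t j → χ t = 0 :=
    fun t i j hij ht => (show Alt χ from h.alternating).zero_of_eq hij ht
  obtain ⟨i, hi⟩ := h.exchange ![0, x, y, a, b] ![0, x, y, c, d] 3 (by rw [h1]; exact hs)
  rw [h1] at hi
  have hsn : s ≠ -s := by revert hs; cases s <;> decide
  fin_cases i
  · apply hs
    rw [← hi, hz _ 0 3 (by decide) (by rfl), zero_mul]
  · apply hs
    rw [← hi, hz _ 1 3 (by decide) (by rfl), zero_mul]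
  · apply hs
    rw [← hi, hz _ 2 3 (by decide) (by rfl), zero_mul]
  · have e1 : update ![0, x, y, a, b] 3 ((![0, x, y, c, d] : Fin 5 → (Fin 4 → ZMod 2)) 3) =
        ![0, x, y, c, b] := by funext k; fin_cases k <;> rfl
    have e2 : update ![0, x, y, c, d] 3 ((![0, x, y, a, b] : Fin 5 → (Fin 4 → ZMod 2)) 3) =
        ![0, x, y, a, d] := by funext k; fin_cases k <;> rfl
    have hi' : χ ![0, x, y, c, b] * χ ![0, x, y, a, d] = s := by
      rw [← e1, ← e2]; exact hi
    rw [a34 h, neg_mul, mul_comm, h3] at hi'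
    exact hsn hi'.symm
  · have e1 : update ![0, x, y, a, b] 3 ((![0, x, y, c, d] : Fin 5 → (Fin 4 → ZMod 2)) 4) =
        ![0, x, y, d, b] := by funext k; fin_cases k <;> rfl
    have e2 : update ![0, x, y, c, d] 4 ((![0, x, y, a, b] : Fin 5 → (Fin 4 → ZMod 2)) 3) =
        ![0, x, y, c, a] := by funext k; fin_cases k <;> rfl
    have hi' : χ ![0, x, y, d, b] * χ ![0, x, y, c, a] = s := by
      rw [← e1, ← e2]; exact hi
    rw [a34 h 0 x y b d, a34 h 0 x y a c, neg_mul_neg, mul_comm] at hi'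
    rw [hi'] at h2
    exact hsn h2.symm

/-- dot product -/
def dot (α x : Fin 4 → ZMod 2) : ZMod 2 := ∑ i, α i * x i

lemma dot_add (α x y : Fin 4 → ZMod 2) : dot α (x + y) = dot α x + dot α y := by
  unfold dot
  rw [← Finset.sum_add_distrib]
  apply Finset.sum_congr rfl
  intro i _
  rw [Pi.add_apply, mul_add]

lemma linIndep {a b c e : ℕ} (pa : 0 < a) (pb : 0 < b) (pc : 0 < c) (pe : 0 < e)
    (ha : a < 16) (hb : b < 16) (hc : c < 16) (he : e < 16)
    (ab : a ≠ b) (ac : a ≠ c) (bc : b ≠ c) (abc : a ^^^ b ≠ c)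
    (ea : e ≠ a) (eb : e ≠ b) (ec : e ≠ c) (ed : e ≠ a ^^^ b ^^^ c) (eab : e ≠ a ^^^ b)
    (eac : e ≠ a ^^^ c) (ebc : e ≠ b ^^^ c) :
    LinearIndependent (ZMod 2) ![pt a, pt b, pt c, pt e] := by
  rw [Fintype.linearIndependent_iff]
  intro g hg
  have hsum : g 0 • pt a + g 1 • pt b + g 2 • pt c + g 3 • pt e = 0 := by
    have := hg
    rw [Fin.sum_univ_four] at this
    exact this
  have key : ∀ t : ℕ, t < 16 → 0 < t → pt t ≠ 0 := fun t h1 h2 => (zero_ne_pt h1 h2).symm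
  have lt2 : ∀ {x y : ℕ}, x < 16 → y < 16 → x ^^^ y < 16 :=
    fun hx hy => Nat.xor_lt_two_pow (n := 4) hx hy
  have ne0 : ∀ {x y : ℕ}, x ≠ y → 0 < x ^^^ y := by
    intro x y hxy
    apply Nat.pos_of_ne_zero
    intro h0
    exact hxy (Nat.xor_eq_zero_iff.mp h0)
  have z2 : ∀ t : ZMod 2, t = 0 ∨ t = 1 := by decide
  have e_comm : ∀ {x y : ℕ}, x ≠ y → y ≠ x := fun h => h.symm
  rcases z2 (g 0) with h0 | h0 <;> rcases z2 (g 1) with h1 | h1 <;>
    rcases z2 (g 2) with h2 | h2 <;> rcases z2 (g 3) with h3 | h3 <;>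
    rw [h0, h1, h2, h3] at hsum <;>
    simp only [zero_smul, one_smul, zero_add, add_zero] at hsum
  · intro i; fin_cases i <;> assumption
  · exact absurd hsum (key e he pe)
  · exact absurd hsum (key c hc pc)
  · rw [← pt_xor] at hsum
    exact absurd hsum (key _ (lt2 hc he) (ne0 ec.symm))
  · exact absurd hsum (key b hb pb)
  · rw [← pt_xor] at hsum
    exact absurd hsum (key _ (lt2 hb he) (ne0 eb.symm))
  · rw [← pt_xor] at hsum
    exact absurd hsum (key _ (lt2 hb hc) (ne0 bc))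
  · rw [← pt_xor, ← pt_xor] at hsum
    exact absurd hsum (key _ (lt2 (lt2 hb hc) he) (ne0 ebc.symm))
  · exact absurd hsum (key a ha pa)
  · rw [← pt_xor] at hsum
    exact absurd hsum (key _ (lt2 ha he) (ne0 ea.symm))
  · rw [← pt_xor] at hsum
    exact absurd hsum (key _ (lt2 ha hc) (ne0 ac))
  · rw [← pt_xor, ← pt_xor] at hsum
    exact absurd hsum (key _ (lt2 (lt2 ha hc) he) (ne0 eac.symm))
  · rw [← pt_xor] at hsum
    exact absurd hsum (key _ (lt2 ha hb) (ne0 ab))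
  · rw [← pt_xor, ← pt_xor] at hsum
    exact absurd hsum (key _ (lt2 (lt2 ha hb) he) (ne0 eab.symm))
  · rw [← pt_xor, ← pt_xor] at hsum
    exact absurd hsum (key _ (lt2 (lt2 ha hb) hc) (ne0 abc))
  · rw [← pt_xor, ← pt_xor, ← pt_xor] at hsum
    exact absurd hsum (key _ (lt2 (lt2 (lt2 ha hb) hc) he) (ne0 ed.symm))

lemma exists_functional {v : Fin 4 → (Fin 4 → ZMod 2)} (hv : LinearIndependent (ZMod 2) v)
    (t : Fin 4 → ZMod 2) : ∃ α : Fin 4 → ZMod 2, ∀ i, dot α (v i) = t i := by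
  obtain ⟨B, hB⟩ : ∃ B : Module.Basis (Fin 4) (ZMod 2) (Fin 4 → ZMod 2), ⇑B = v :=
    ⟨basisOfLinearIndependentOfCardEqFinrank hv (by simp),
      coe_basisOfLinearIndependentOfCardEqFinrank hv (by simp)⟩
  obtain ⟨φ, hφ⟩ : ∃ φ : (Fin 4 → ZMod 2) →ₗ[ZMod 2] ZMod 2, ∀ i, φ (v i) = t i := by
    refine ⟨B.constr (ZMod 2) t, fun i => ?_⟩
    rw [← hB]
    exact B.constr_basis (ZMod 2) t i
  refine ⟨fun i => φ (Pi.single i 1), fun i => ?_⟩
  have h1 : φ (v i) = t i := hφ i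
  rw [← h1, LinearMap.pi_apply_eq_sum_univ φ (v i)]
  unfold dot
  apply Finset.sum_congr rfl
  intro j _
  rw [smul_eq_mul, mul_comm]
  have h3 : (Pi.single j 1 : Fin 4 → ZMod 2) = fun k => if j = k then 1 else 0 := by
    funext k
    by_cases hk : j = k
    · subst hk; simp
    · rw [if_neg hk, Pi.single_eq_of_ne (Ne.symm hk)]
  simp only [h3]

/-- the sign of an element of `ZMod 2` -/
def zs (t : ZMod 2) : SignType := if t = 0 then 1 else -1

lemma zs_add (s t : ZMod 2) : zs (s + t) = zs s * zs t := by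
  revert s t; decide

lemma exists_zs {s : SignType} (h : s ≠ 0) : ∃ t, zs t = s := by
  revert h
  cases s
  · intro h; exact absurd rfl h
  · intro _; exact ⟨1, rfl⟩
  · intro _; exact ⟨0, rfl⟩

lemma prod4 (A B C D : SignType) (nA : A ≠ 0) (nB : B ≠ 0) (nC : C ≠ 0) (nD : D ≠ 0)
    (h : ¬ A * B * C * D = -1) : A * B * C * D = 1 := by
  revert nA nB nC nD h
  cases A <;> cases B <;> cases C <;> cases D <;> decide

lemma prod5 (A B C D Z : SignType) (nA : A ≠ 0) (nB : B ≠ 0) (nC : C ≠ 0) (nD : D ≠ 0)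
    (n0 : Z ≠ 0) (h : A * B * C * D = 1) : -(A * Z) * (B * Z) * -(C * Z) = D * Z := by
  revert nA nB nC nD n0 h
  cases A <;> cases B <;> cases C <;> cases D <;> cases Z <;> decide

lemma hadRow_eq (α x : Fin 4 → ZMod 2) : hadRow 4 α x = zs (dot α x) := rfl

end FromOM

open FromOM in
theorem good_of_ucompletes (h : UCompletes 4 5) : ∃ P : ℕ → ℕ → ℕ → ℕ → SignType, Good P := by
  obtain ⟨χ, h1, h2, h3⟩ := h
  refine ⟨fun a b c d => χ ![0, pt a, pt b, pt c, pt d], ⟨?_, ?_, ?_⟩, ?_, ?_, ?_⟩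
  · intro a b c d
    exact a12 h1 _ _ _ _ _
  · intro a b c d
    exact a23 h1 _ _ _ _ _
  · intro a b c d
    exact a34 h1 _ _ _ _ _
  · intro a b c d pa pb pc pd ha hb hc hd ab ac ad bc bd cd
    exact h3 _ (inj5 (zero_ne_pt ha pa) (zero_ne_pt hb pb) (zero_ne_pt hc pc)
      (zero_ne_pt hd pd) (pt_ne ha hb ab) (pt_ne ha hc ac) (pt_ne ha hd ad) (pt_ne hb hc bc)
      (pt_ne hb hd bd) (pt_ne hc hd cd))
  · intro x y a b c d _ _ _ _ _ _ _ _ _ _ _ _ _ _ _ _ _ _ _ _ _ _ _ _ _ _ _ s hs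
    rintro ⟨e1, e2, e3⟩
    exact gp5 h1 _ _ _ _ _ _ hs e1 e2 e3
  · intro a b c e pa pb pc pe ha hb hc he ab ac bc abc ea eb ec ed eab eac ebc
    have hli := linIndep pa pb pc pe ha hb hc he ab ac bc abc ea eb ec ed eab eac ebc
    have lt2 : ∀ {x y : ℕ}, x < 16 → y < 16 → x ^^^ y < 16 :=
      fun hx hy => Nat.xor_lt_two_pow (n := 4) hx hy
    have hd : a ^^^ b ^^^ c < 16 := lt2 (lt2 ha hb) hc
    have dne0 : a ^^^ b ^^^ c ≠ 0 := fun hh => abc (Nat.xor_eq_zero_iff.mp hh)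
    have pd : 0 < a ^^^ b ^^^ c := Nat.pos_of_ne_zero dne0
    have da : a ^^^ b ^^^ c ≠ a := xor_ne_of_ne bc
    have db : a ^^^ b ^^^ c ≠ b := by
      rw [Nat.xor_comm a b]; exact xor_ne_of_ne ac
    have dc : a ^^^ b ^^^ c ≠ c := by
      rw [Nat.xor_comm _ c, ← Nat.xor_assoc]
      exact xor_ne_of_ne ab
    have hptd : pt (a ^^^ b ^^^ c) = pt a + pt b + pt c := by rw [pt_xor, pt_xor]
    generalize a ^^^ b ^^^ c = d at *
    -- the circuit signs
    have nA : χ ![0, pt b, pt c, pt d, pt e] ≠ 0 := h3 _ (inj5 (zero_ne_pt hb pb)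
      (zero_ne_pt hc pc) (zero_ne_pt hd pd) (zero_ne_pt he pe) (pt_ne hb hc bc)
      (pt_ne hb hd db.symm) (pt_ne hb he eb.symm) (pt_ne hc hd dc.symm) (pt_ne hc he ec.symm)
      (pt_ne hd he ed.symm))
    have nB : χ ![0, pt a, pt c, pt d, pt e] ≠ 0 := h3 _ (inj5 (zero_ne_pt ha pa)
      (zero_ne_pt hc pc) (zero_ne_pt hd pd) (zero_ne_pt he pe) (pt_ne ha hc ac)
      (pt_ne ha hd da.symm) (pt_ne ha he ea.symm) (pt_ne hc hd dc.symm) (pt_ne hc he ec.symm)
      (pt_ne hd he ed.symm))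
    have nC : χ ![0, pt a, pt b, pt d, pt e] ≠ 0 := h3 _ (inj5 (zero_ne_pt ha pa)
      (zero_ne_pt hb pb) (zero_ne_pt hd pd) (zero_ne_pt he pe) (pt_ne ha hb ab)
      (pt_ne ha hd da.symm) (pt_ne ha he ea.symm) (pt_ne hb hd db.symm) (pt_ne hb he eb.symm)
      (pt_ne hd he ed.symm))
    have nD : χ ![0, pt a, pt b, pt c, pt e] ≠ 0 := h3 _ (inj5 (zero_ne_pt ha pa)
      (zero_ne_pt hb pb) (zero_ne_pt hc pc) (zero_ne_pt he pe) (pt_ne ha hb ab)
      (pt_ne ha hc ac) (pt_ne ha he ea.symm) (pt_ne hb hc bc) (pt_ne hb he eb.symm)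
      (pt_ne hc he ec.symm))
    have nE : χ ![0, pt a, pt b, pt c, pt d] ≠ 0 := h3 _ (inj5 (zero_ne_pt ha pa)
      (zero_ne_pt hb pb) (zero_ne_pt hc pc) (zero_ne_pt hd pd) (pt_ne ha hb ab)
      (pt_ne ha hc ac) (pt_ne ha hd da.symm) (pt_ne hb hc bc) (pt_ne hb hd db.symm)
      (pt_ne hc hd dc.symm))
    have n0 : χ ![pt a, pt b, pt c, pt d, pt e] ≠ 0 := h3 _ (inj5 (pt_ne ha hb ab)
      (pt_ne ha hc ac) (pt_ne ha hd da.symm) (pt_ne ha he ea.symm) (pt_ne hb hc bc)
      (pt_ne hb hd db.symm) (pt_ne hb he eb.symm) (pt_ne hc hd dc.symm) (pt_ne hc he ec.symm)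
      (pt_ne hd he ed.symm))
    show χ ![0, pt b, pt c, pt d, pt e] * χ ![0, pt a, pt c, pt d, pt e] *
      χ ![0, pt a, pt b, pt d, pt e] * χ ![0, pt a, pt b, pt c, pt e] = -1
    have uA : χ ![pt a, (0 : Fin 4 → ZMod 2), pt c, pt d, pt e] =
        - χ ![0, pt a, pt c, pt d, pt e] := a01 h1 _ _ _ _ _
    have uB : χ ![pt a, pt b, (0 : Fin 4 → ZMod 2), pt d, pt e] =
        χ ![0, pt a, pt b, pt d, pt e] := by
      rw [a12 h1, a01 h1, neg_neg]
    have uC : χ ![pt a, pt b, pt c, (0 : Fin 4 → ZMod 2), pt e] =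
        - χ ![0, pt a, pt b, pt c, pt e] := by
      rw [a23 h1, a12 h1, a01 h1, neg_neg]
    have uD : χ ![pt a, pt b, pt c, pt d, (0 : Fin 4 → ZMod 2)] =
        χ ![0, pt a, pt b, pt c, pt d] := by
      rw [a34 h1, a23 h1, a12 h1, a01 h1, neg_neg, neg_neg]
    have hupd : ∀ i : Fin 5, χ (update ![pt a, pt b, pt c, pt d, pt e] i 0) =
        (![χ ![0, pt b, pt c, pt d, pt e], - χ ![0, pt a, pt c, pt d, pt e],
          χ ![0, pt a, pt b, pt d, pt e], - χ ![0, pt a, pt b, pt c, pt e],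
          χ ![0, pt a, pt b, pt c, pt d]] : Fin 5 → SignType) i := by
      intro i
      fin_cases i
      · show χ (update ![pt a, pt b, pt c, pt d, pt e] 0 0) = χ ![0, pt b, pt c, pt d, pt e]
        congr 1; funext k; fin_cases k <;> rfl
      · show χ (update ![pt a, pt b, pt c, pt d, pt e] 1 0) = - χ ![0, pt a, pt c, pt d, pt e]
        rw [← uA]; congr 1; funext k; fin_cases k <;> rfl
      · show χ (update ![pt a, pt b, pt c, pt d, pt e] 2 0) = χ ![0, pt a, pt b, pt d, pt e]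
        rw [← uB]; congr 1; funext k; fin_cases k <;> rfl
      · show χ (update ![pt a, pt b, pt c, pt d, pt e] 3 0) = - χ ![0, pt a, pt b, pt c, pt e]
        rw [← uC]; congr 1; funext k; fin_cases k <;> rfl
      · show χ (update ![pt a, pt b, pt c, pt d, pt e] 4 0) = χ ![0, pt a, pt b, pt c, pt d]
        rw [← uD]; congr 1; funext k; fin_cases k <;> rfl
    generalize χ ![0, pt b, pt c, pt d, pt e] = A at *
    generalize χ ![0, pt a, pt c, pt d, pt e] = B at *
    generalize χ ![0, pt a, pt b, pt d, pt e] = C at *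
    generalize χ ![0, pt a, pt b, pt c, pt e] = D at *
    generalize χ ![0, pt a, pt b, pt c, pt d] = F at *
    by_contra hcon
    have hn : ∀ {x y : SignType}, x ≠ 0 → y ≠ 0 → x * y ≠ 0 := fun hx hy => mul_ne_zero hx hy
    have hprod : A * B * C * D = 1 := prod4 A B C D nA nB nC nD hcon
    set Z := χ ![pt a, pt b, pt c, pt d, pt e] with hZ
    have negne : ∀ {x : SignType}, x ≠ 0 → -x ≠ 0 := by
      intro x; cases x <;> decide
    obtain ⟨ta, hta⟩ := exists_zs (negne (hn nA n0))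
    obtain ⟨tb, htb⟩ := exists_zs (hn nB n0)
    obtain ⟨tc, htc⟩ := exists_zs (negne (hn nC n0))
    obtain ⟨te, hte⟩ := exists_zs (negne (hn nE n0))
    obtain ⟨α, hα⟩ := exists_functional hli ![ta, tb, tc, te]
    have ra : hadRow 4 α (pt a) = -(A * Z) := by
      rw [hadRow_eq, ← hta]; exact congrArg zs (hα 0)
    have rb : hadRow 4 α (pt b) = B * Z := by
      rw [hadRow_eq, ← htb]; exact congrArg zs (hα 1)
    have rc : hadRow 4 α (pt c) = -(C * Z) := by
      rw [hadRow_eq, ← htc]; exact congrArg zs (hα 2)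
    have re : hadRow 4 α (pt e) = -(F * Z) := by
      rw [hadRow_eq, ← hte]; exact congrArg zs (hα 3)
    have rd : hadRow 4 α (pt d) = D * Z := by
      rw [hptd, hadRow_eq, dot_add, dot_add, zs_add, zs_add, ← hadRow_eq, ← hadRow_eq,
        ← hadRow_eq, ra, rb, rc]
      exact prod5 A B C D Z nA nB nC nD n0 hprod
    obtain ⟨i, hi⟩ := (h2 α).2 ![pt a, pt b, pt c, pt d, pt e] 0 n0
    rw [hadRow_zero, mul_one, ← hZ, hupd] at hi
    clear_value Z
    fin_cases i
    · have hi' : A * hadRow 4 α (pt a) = Z := hi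
      rw [ra] at hi'
      revert hi' nA n0
      clear * -
      revert A Z
      decide
    · have hi' : -B * hadRow 4 α (pt b) = Z := hi
      rw [rb] at hi'
      revert hi' nB n0
      clear * -
      revert B Z
      decide
    · have hi' : C * hadRow 4 α (pt c) = Z := hi
      rw [rc] at hi'
      revert hi' nC n0
      clear * -
      revert C Z
      decide
    · have hi' : -D * hadRow 4 α (pt d) = Z := hi
      rw [rd] at hi'
      revert hi' nD n0
      clear * -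
      revert D Z
      decide
    · have hi' : F * hadRow 4 α (pt e) = Z := hi
      rw [re] at hi'
      revert hi' nE n0
      clear * -
      revert F Z
      decide

end Pool.Agent.OM247
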