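import Pool.Agent.OM247.TransDefs

namespace Pool.Agent.OM247

lemma bitb_eq (x k : ℕ) : bitb x k = x.testBit k := by
  unfold bitb
  have h1 : Nat.land (Nat.shiftRight x k) 1 = (x >>> k) % 2 := by
    show (x >>> k) &&& 1 = (x >>> k) % 2
    exact Nat.and_one_is_mod _
  have h2 : x.testBit k = decide ((x >>> k) % 2 = 1) := by
    rw [Nat.testBit_eq_decide_div_mod_eq, Nat.shiftRight_eq_div_pow]
  have h3 : Nat.beq (Nat.land (Nat.shiftRight x k) 1) 1 = decide ((x >>> k) % 2 = 1) := by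
    rw [h1]
    rcases Nat.mod_two_eq_zero_or_one (x >>> k) with h | h <;> rw [h] <;> rfl
  rw [h2]
  exact h3

lemma bitb_xor (x y k : ℕ) : bitb (x ^^^ y) k = xor (bitb x k) (bitb y k) := by
  rw [bitb_eq, bitb_eq, bitb_eq, Nat.testBit_xor]

lemma sel_xor (a b : Bool) (c : ℕ) : sel (xor a b) c = sel a c ^^^ sel b c := by
  cases a <;> cases b
  · show (0 : ℕ) = 0 ^^^ 0; simp
  · show c = 0 ^^^ c; simp
  · show c = c ^^^ 0; simp
  · show (0 : ℕ) = c ^^^ c; simp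

lemma sel_lt (a : Bool) {c : ℕ} (h : c < 16) : sel a c < 16 := by
  cases a
  · show (0 : ℕ) < 16; decide
  · exact h

lemma glin_eq (c0 c1 c2 c3 x : ℕ) : glin c0 c1 c2 c3 x =
    (sel (bitb x 0) c0 ^^^ sel (bitb x 1) c1) ^^^ (sel (bitb x 2) c2 ^^^ sel (bitb x 3) c3) := rfl

lemma glin_lt' {c0 c1 c2 c3 : ℕ} (h0 : c0 < 16) (h1 : c1 < 16) (h2 : c2 < 16) (h3 : c3 < 16)
    (x : ℕ) : glin c0 c1 c2 c3 x < 16 := by
  rw [glin_eq]
  exact Nat.xor_lt_two_pow (n := 4)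
    (Nat.xor_lt_two_pow (n := 4) (sel_lt _ h0) (sel_lt _ h1))
    (Nat.xor_lt_two_pow (n := 4) (sel_lt _ h2) (sel_lt _ h3))

lemma glin_xor' (c0 c1 c2 c3 x y : ℕ) : glin c0 c1 c2 c3 (x ^^^ y) =
    glin c0 c1 c2 c3 x ^^^ glin c0 c1 c2 c3 y := by
  simp only [glin_eq, bitb_xor, sel_xor]
  ac_rfl

lemma glin_inj' {c0 c1 c2 c3 : ℕ} (hnz : ∀ x, 0 < x → x < 16 → glin c0 c1 c2 c3 x ≠ 0)
    {x y : ℕ} (hx : x < 16) (hy : y < 16) (hxy : x ≠ y) :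
    glin c0 c1 c2 c3 x ≠ glin c0 c1 c2 c3 y := by
  intro h
  have h1 : x ^^^ y ≠ 0 := fun h0 => hxy (Nat.xor_eq_zero_iff.mp h0)
  have h2 : x ^^^ y < 16 := Nat.xor_lt_two_pow (n := 4) hx hy
  apply hnz (x ^^^ y) (Nat.pos_of_ne_zero h1) h2
  rw [glin_xor', h, Nat.xor_self]

end Pool.Agent.OM247
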