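import Pool.Agent.OM247.Glin

namespace Pool.Agent.OM247

/-- the character with mask `w` -/
def chr (w x : ℕ) : SignType := sg (par4 (Nat.land w x))

lemma par4_fin : ∀ u v : Fin 16, par4 (u.1 ^^^ v.1) = xor (par4 u.1) (par4 v.1) := by
  decide +kernel

lemma land_lt {w : ℕ} (hw : w < 16) (x : ℕ) : w &&& x < 16 :=
  lt_of_le_of_lt Nat.and_le_left hw

lemma chr_xor {w : ℕ} (hw : w < 16) (x y : ℕ) : chr w (x ^^^ y) = chr w x * chr w y := by
  unfold chr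
  rw [sg_mul]
  congr 1
  have h1 : Nat.land w (x ^^^ y) = (w &&& x) ^^^ (w &&& y) := Nat.and_xor_distrib_left
  rw [h1]
  exact par4_fin ⟨w &&& x, land_lt hw x⟩ ⟨w &&& y, land_lt hw y⟩

lemma sq_one {v : SignType} (h : v ≠ 0) : v * v = 1 := by revert h; cases v <;> decide

lemma chr_ne (w x : ℕ) : chr w x ≠ 0 := sg_ne_zero _

lemma trans_eq {w : ℕ} (hw : w < 16) (c0 c1 c2 c3 : ℕ) (s : Bool)
    (P : ℕ → ℕ → ℕ → ℕ → SignType) (a b c d : ℕ) :
    trans c0 c1 c2 c3 w s P a b c d = sg s * (chr w a * chr w b * (chr w c * chr w d)) *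
      P (glin c0 c1 c2 c3 a) (glin c0 c1 c2 c3 b) (glin c0 c1 c2 c3 c) (glin c0 c1 c2 c3 d) := by
  unfold trans
  rw [← sg_mul]
  have h : sg (par4 (Nat.land w (Nat.xor (Nat.xor a b) (Nat.xor c d)))) =
      chr w ((a ^^^ b) ^^^ (c ^^^ d)) := rfl
  rw [h, chr_xor hw, chr_xor hw, chr_xor hw]

lemma gp_aux (k e1 e2 ea eb ec ed p q r p' q' r' s : SignType) (hk : k ≠ 0) (h1 : e1 ≠ 0)
    (h2 : e2 ≠ 0) (ha : ea ≠ 0) (hb : eb ≠ 0) (hc : ec ≠ 0) (hd : ed ≠ 0) (hs : s ≠ 0)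
    (H : ∀ s, s ≠ 0 → ¬ (p * p' = s ∧ -(q * q') = s ∧ r * r' = s)) :
    ¬ ((k * (e1 * e2 * (ea * eb)) * p) * (k * (e1 * e2 * (ec * ed)) * p') = s ∧
      -((k * (e1 * e2 * (ea * ec)) * q) * (k * (e1 * e2 * (eb * ed)) * q')) = s ∧
      (k * (e1 * e2 * (ea * ed)) * r) * (k * (e1 * e2 * (eb * ec)) * r') = s) := by
  rintro ⟨g1, g2, g3⟩
  have sk := sq_one hk
  have s1 := sq_one h1
  have s2 := sq_one h2
  have sa := sq_one ha
  have sb := sq_one hb
  have sc := sq_one hc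
  have sd := sq_one hd
  apply H (ea * eb * ec * ed * s)
    (mul_ne_zero (mul_ne_zero (mul_ne_zero (mul_ne_zero ha hb) hc) hd) hs)
  have e1' : (k * (e1 * e2 * (ea * eb)) * p) * (k * (e1 * e2 * (ec * ed)) * p') =
      (k * k) * (e1 * e1) * (e2 * e2) * (ea * eb * ec * ed) * (p * p') := by
    simp only [mul_assoc, mul_comm, mul_left_comm]
  have e2' : (k * (e1 * e2 * (ea * ec)) * q) * (k * (e1 * e2 * (eb * ed)) * q') =
      (k * k) * (e1 * e1) * (e2 * e2) * (ea * eb * ec * ed) * (q * q') := by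
    simp only [mul_assoc, mul_comm, mul_left_comm]
  have e3' : (k * (e1 * e2 * (ea * ed)) * r) * (k * (e1 * e2 * (eb * ec)) * r') =
      (k * k) * (e1 * e1) * (e2 * e2) * (ea * eb * ec * ed) * (r * r') := by
    simp only [mul_assoc, mul_comm, mul_left_comm]
  rw [e1', sk, s1, s2, one_mul, one_mul, one_mul] at g1
  rw [e2', sk, s1, s2, one_mul, one_mul, one_mul] at g2
  rw [e3', sk, s1, s2, one_mul, one_mul, one_mul] at g3
  have hK : ea * eb * ec * ed * (ea * eb * ec * ed) = 1 :=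
    sq_one (mul_ne_zero (mul_ne_zero (mul_ne_zero ha hb) hc) hd)
  refine ⟨?_, ?_, ?_⟩
  · rw [← g1, ← mul_assoc, hK, one_mul]
  · rw [← g2, mul_neg, ← mul_assoc, hK, one_mul]
  · rw [← g3, ← mul_assoc, hK, one_mul]

lemma par_aux (k ea eb ec ee p q r t : SignType) (hk : k ≠ 0)
    (ha : ea ≠ 0) (hb : eb ≠ 0) (hc : ec ≠ 0) (he : ee ≠ 0) :
    (k * (eb * ec * (ea * eb * ec * ee)) * p) * (k * (ea * ec * (ea * eb * ec * ee)) * q) *
      (k * (ea * eb * (ea * eb * ec * ee)) * r) * (k * (ea * eb * (ec * ee)) * t) =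
      p * q * r * t := by
  have sk := sq_one hk
  have sa := sq_one ha
  have sb := sq_one hb
  have sc := sq_one hc
  have se := sq_one he
  have : (k * (eb * ec * (ea * eb * ec * ee)) * p) * (k * (ea * ec * (ea * eb * ec * ee)) * q) *
      (k * (ea * eb * (ea * eb * ec * ee)) * r) * (k * (ea * eb * (ec * ee)) * t) =
      (k * k) * (k * k) * ((ea * ea) * (ea * ea) * (ea * ea)) *
        ((eb * eb) * (eb * eb) * (eb * eb)) * ((ec * ec) * (ec * ec) * (ec * ec)) *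
        ((ee * ee) * (ee * ee)) * (p * q * r * t) := by
    simp only [mul_assoc, mul_comm, mul_left_comm]
  rw [this, sk, sa, sb, sc, se]
  simp

theorem good_trans {P : ℕ → ℕ → ℕ → ℕ → SignType} (hP : Good P) {c0 c1 c2 c3 w : ℕ}
    (h0 : c0 < 16) (h1 : c1 < 16) (h2 : c2 < 16) (h3 : c3 < 16) (hw : w < 16) (s : Bool)
    (hnz : ∀ x, 0 < x → x < 16 → glin c0 c1 c2 c3 x ≠ 0) :
    Good (trans c0 c1 c2 c3 w s P) := by
  have hlt : ∀ x, glin c0 c1 c2 c3 x < 16 := glin_lt' h0 h1 h2 h3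
  have hpos : ∀ x, 0 < x → x < 16 → 0 < glin c0 c1 c2 c3 x := fun x g1 g2 =>
    Nat.pos_of_ne_zero (hnz x g1 g2)
  have hinj : ∀ {x y : ℕ}, x < 16 → y < 16 → x ≠ y → glin c0 c1 c2 c3 x ≠ glin c0 c1 c2 c3 y :=
    fun hx hy hxy => glin_inj' hnz hx hy hxy
  have hs := sg_ne_zero s
  constructor
  · constructor
    · intro a b c d
      rw [trans_eq hw, trans_eq hw, hP.s01, mul_comm (chr w b) (chr w a), mul_neg]
    · intro a b c d
      rw [trans_eq hw, trans_eq hw, hP.s12, mul_neg]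
      congr 2
      simp only [mul_assoc, mul_comm, mul_left_comm]
    · intro a b c d
      rw [trans_eq hw, trans_eq hw, hP.s23, mul_comm (chr w d) (chr w c), mul_neg]
  · intro a b c d pa pb pc pd ha hb hc hd ab ac ad bc bd cd
    rw [trans_eq hw]
    refine mul_ne_zero (mul_ne_zero hs (mul_ne_zero (mul_ne_zero (chr_ne _ _) (chr_ne _ _))
      (mul_ne_zero (chr_ne _ _) (chr_ne _ _)))) ?_
    exact hP.nz _ _ _ _ (hpos _ pa ha) (hpos _ pb hb) (hpos _ pc hc) (hpos _ pd hd) (hlt _)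
      (hlt _) (hlt _) (hlt _) (hinj ha hb ab) (hinj ha hc ac) (hinj ha hd ad) (hinj hb hc bc)
      (hinj hb hd bd) (hinj hc hd cd)
  · intro x y a b c d px py pa pb pc pd hx hy ha hb hc hd xy xa xb xc xd ya yb yc yd ab ac ad
      bc bd cd s' hs'
    simp only [trans_eq hw]
    apply gp_aux _ _ _ _ _ _ _ _ _ _ _ _ _ _ hs (chr_ne w x) (chr_ne w y) (chr_ne w a)
      (chr_ne w b) (chr_ne w c) (chr_ne w d) hs'
    exact hP.gp _ _ _ _ _ _ (hpos _ px hx) (hpos _ py hy) (hpos _ pa ha) (hpos _ pb hb)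
      (hpos _ pc hc) (hpos _ pd hd) (hlt _) (hlt _) (hlt _) (hlt _) (hlt _) (hlt _)
      (hinj hx hy xy) (hinj hx ha xa) (hinj hx hb xb) (hinj hx hc xc) (hinj hx hd xd)
      (hinj hy ha ya) (hinj hy hb yb) (hinj hy hc yc) (hinj hy hd yd) (hinj ha hb ab)
      (hinj ha hc ac) (hinj ha hd ad) (hinj hb hc bc) (hinj hb hd bd) (hinj hc hd cd)
  · intro a b c e pa pb pc pe ha hb hc he ab ac bc abc ea eb ec ed eab eac ebc
    simp only [trans_eq hw]
    have hd16 : a ^^^ b ^^^ c < 16 :=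
      Nat.xor_lt_two_pow (n := 4) (Nat.xor_lt_two_pow (n := 4) ha hb) hc
    have hab16 : a ^^^ b < 16 := Nat.xor_lt_two_pow (n := 4) ha hb
    have hac16 : a ^^^ c < 16 := Nat.xor_lt_two_pow (n := 4) ha hc
    have hbc16 : b ^^^ c < 16 := Nat.xor_lt_two_pow (n := 4) hb hc
    have hchr : chr w (a ^^^ b ^^^ c) = chr w a * chr w b * chr w c := by
      rw [chr_xor hw, chr_xor hw]
    rw [hchr]
    have key := hP.par (glin c0 c1 c2 c3 a) (glin c0 c1 c2 c3 b) (glin c0 c1 c2 c3 c)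
      (glin c0 c1 c2 c3 e) (hpos _ pa ha) (hpos _ pb hb) (hpos _ pc hc) (hpos _ pe he) (hlt _)
      (hlt _) (hlt _) (hlt _) (hinj ha hb ab) (hinj ha hc ac) (hinj hb hc bc)
      (by rw [← glin_xor']; exact hinj hab16 hc abc)
      (hinj he ha ea) (hinj he hb eb) (hinj he hc ec)
      (by rw [← glin_xor', ← glin_xor']; exact hinj he hd16 ed)
      (by rw [← glin_xor']; exact hinj he hab16 eab)
      (by rw [← glin_xor']; exact hinj he hac16 eac)
      (by rw [← glin_xor']; exact hinj he hbc16 ebc)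
    rw [← glin_xor', ← glin_xor'] at key
    rw [← key]
    have := par_aux (sg s) (chr w a) (chr w b) (chr w c) (chr w e)
      (P (glin c0 c1 c2 c3 b) (glin c0 c1 c2 c3 c) (glin c0 c1 c2 c3 (a ^^^ b ^^^ c))
        (glin c0 c1 c2 c3 e))
      (P (glin c0 c1 c2 c3 a) (glin c0 c1 c2 c3 c) (glin c0 c1 c2 c3 (a ^^^ b ^^^ c))
        (glin c0 c1 c2 c3 e))
      (P (glin c0 c1 c2 c3 a) (glin c0 c1 c2 c3 b) (glin c0 c1 c2 c3 (a ^^^ b ^^^ c))
        (glin c0 c1 c2 c3 e))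
      (P (glin c0 c1 c2 c3 a) (glin c0 c1 c2 c3 b) (glin c0 c1 c2 c3 c)
        (glin c0 c1 c2 c3 e)) hs (chr_ne w a) (chr_ne w b) (chr_ne w c) (chr_ne w e)
    exact this

/-- normalisation of four values -/
theorem gauge {P : ℕ → ℕ → ℕ → ℕ → SignType} (hP : Good P) :
    ∃ P', Good P' ∧ P' 8 9 10 11 = 1 ∧ P' 8 9 10 12 = 1 ∧ P' 8 9 11 12 = 1 ∧
      P' 8 10 11 12 = 1 := by
  have hid : ∀ x, x < 16 → glin 1 2 4 8 x = x := by
    intro x hx
    have : ∀ x : Fin 16, glin 1 2 4 8 x.1 = x.1 := by decide +kernel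
    exact this ⟨x, hx⟩
  have hG : ∀ (w : ℕ), w < 16 → ∀ s : Bool, Good (trans 1 2 4 8 w s P) := fun w hw s =>
    good_trans hP (by decide) (by decide) (by decide) (by decide) hw s
      (fun x h1 h2 => by rw [hid x h2]; omega)
  obtain ⟨v1, hv1⟩ : ∃ v, v = P 8 9 10 11 := ⟨_, rfl⟩
  obtain ⟨v2, hv2⟩ : ∃ v, v = P 8 9 10 12 := ⟨_, rfl⟩
  obtain ⟨v3, hv3⟩ : ∃ v, v = P 8 9 11 12 := ⟨_, rfl⟩
  obtain ⟨v4, hv4⟩ : ∃ v, v = P 8 10 11 12 := ⟨_, rfl⟩
  have n1 : v1 ≠ 0 := by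
    rw [hv1]; apply hP.nz <;> decide
  have n2 : v2 ≠ 0 := by
    rw [hv2]; apply hP.nz <;> decide
  have n3 : v3 ≠ 0 := by
    rw [hv3]; apply hP.nz <;> decide
  have n4 : v4 ≠ 0 := by
    rw [hv4]; apply hP.nz <;> decide
  have hex : ∀ v1 v2 v3 v4 : SignType, v1 ≠ 0 → v2 ≠ 0 → v3 ≠ 0 → v4 ≠ 0 →
      ∃ w : Fin 16, ∃ s : Bool,
        sg (xor s (par4 (Nat.land w.1 (Nat.xor (Nat.xor 8 9) (Nat.xor 10 11))))) * v1 = 1 ∧
        sg (xor s (par4 (Nat.land w.1 (Nat.xor (Nat.xor 8 9) (Nat.xor 10 12))))) * v2 = 1 ∧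
        sg (xor s (par4 (Nat.land w.1 (Nat.xor (Nat.xor 8 9) (Nat.xor 11 12))))) * v3 = 1 ∧
        sg (xor s (par4 (Nat.land w.1 (Nat.xor (Nat.xor 8 10) (Nat.xor 11 12))))) * v4 = 1 := by
    decide +kernel
  obtain ⟨w, s, e1, e2, e3, e4⟩ := hex v1 v2 v3 v4 n1 n2 n3 n4
  refine ⟨trans 1 2 4 8 w.1 s P, hG w.1 w.2 s, ?_, ?_, ?_, ?_⟩
  · unfold trans
    rw [hid 8 (by decide), hid 9 (by decide), hid 10 (by decide), hid 11 (by decide), ← hv1]
    exact e1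
  · unfold trans
    rw [hid 8 (by decide), hid 9 (by decide), hid 10 (by decide), hid 12 (by decide), ← hv2]
    exact e2
  · unfold trans
    rw [hid 8 (by decide), hid 9 (by decide), hid 11 (by decide), hid 12 (by decide), ← hv3]
    exact e3
  · unfold trans
    rw [hid 8 (by decide), hid 10 (by decide), hid 11 (by decide), hid 12 (by decide), ← hv4]
    exact e4

end Pool.Agent.OM247
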