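import Pool.Agent.OM247.Uniform

namespace Pool.Agent.OM247

open Function

/-- uniform version of `Completes` -/
def UCompletes (n r : ℕ) : Prop :=
  ∃ χ : (Fin r → (Fin n → ZMod 2)) → SignType,
    IsChirotope χ ∧ (∀ a : Fin n → ZMod 2, IsTope χ (hadRow n a)) ∧
      ∀ t, Injective t → χ t ≠ 0

lemma Completes.uniform {n r : ℕ} (h : Completes n r) : UCompletes n r := by
  obtain ⟨χ, h1, h2⟩ := h
  obtain ⟨χ', h3, h4, h5⟩ := exists_uniform h1 (Set.range (hadRow n))
    (by rintro u ⟨a, rfl⟩; exact h2 a)
  exact ⟨χ', h3, fun a => h4 _ ⟨a, rfl⟩, h5⟩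

/-- the unit vectors -/
lemma hadRow_single (n : ℕ) (a : Fin n → ZMod 2) (i : Fin n) :
    hadRow n a (Pi.single i 1) = if a i = 0 then 1 else -1 := by
  unfold hadRow
  have : ∑ j, a j * (Pi.single i (1 : ZMod 2) : Fin n → ZMod 2) j = a i := by
    rw [Finset.sum_eq_single i]
    · simp
    · intro j _ hj; simp [hj]
    · intro h; exact absurd (Finset.mem_univ i) h
  rw [this]

lemma hadRow_zero (n : ℕ) (a : Fin n → ZMod 2) : hadRow n a 0 = 1 := by
  simp [hadRow]

/-- the rows shatter an affinely independent set, so the rank is at least `n + 1` -/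
lemma UCompletes.lt {n r : ℕ} (h : UCompletes n r) : n < r := by
  by_contra hlt
  push Not at hlt
  obtain ⟨χ, h1, h2, h3⟩ := h
  set w : Fin r → (Fin n → ZMod 2) := fun i => Pi.single (Fin.castLE hlt i) 1 with hw
  have hwinj : Injective w := by
    intro i j hij
    have hh : w i (Fin.castLE hlt i) = w j (Fin.castLE hlt i) := by rw [hij]
    simp only [hw, Pi.single_eq_same] at hh
    by_contra hne
    have : Fin.castLE hlt i ≠ Fin.castLE hlt j := fun hc => hne (Fin.castLE_injective hlt hc)
    rw [Pi.single_eq_of_ne this] at hh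
    exact one_ne_zero hh
  have hw0 : χ w ≠ 0 := h3 w hwinj
  -- choose the row
  set a : Fin n → ZMod 2 := fun j =>
    if hj : j.1 < r then
      (if χ (update w ⟨j.1, hj⟩ 0) = χ w then 1 else 0) else 0 with ha
  obtain ⟨i, hi⟩ := (h2 a).2 w 0 hw0
  rw [hadRow_zero, mul_one] at hi
  have hne : χ (update w i 0) ≠ 0 := by
    apply h3
    intro p q hpq
    by_cases hp : p = i
    · by_cases hq : q = i
      · rw [hp, hq]
      · exfalso
        rw [hp, update_self, update_of_ne hq] at hpq
        have := congrFun hpq (Fin.castLE hlt q)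
        simp [hw] at this
    · by_cases hq : q = i
      · exfalso
        rw [hq, update_self, update_of_ne hp] at hpq
        have := congrFun hpq (Fin.castLE hlt p)
        simp [hw] at this
      · rw [update_of_ne hp, update_of_ne hq] at hpq
        exact hwinj hpq
  have hrow : hadRow n a (w i) = if χ (update w i 0) = χ w then -1 else 1 := by
    rw [hw, hadRow_single]
    have : a (Fin.castLE hlt i) = if χ (update w i 0) = χ w then 1 else 0 := by
      simp [ha]
    rw [this]
    split_ifs with hc h' h'
    · exact absurd h' one_ne_zero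
    · rfl
    · rfl
    · exact absurd rfl h'
  rw [hrow] at hi
  by_cases hc : χ (update w i 0) = χ w
  · rw [if_pos hc, hc] at hi
    have h' : χ w = -χ w := by
      rw [show -χ w = χ w * -1 by simp]; exact hi.symm
    exact hw0 (sign_eq_neg_self h')
  · rw [if_neg hc, mul_one] at hi
    exact hc hi

/-- points of the affine hyperplane `x 0 = 1` -/
def lift1 (n : ℕ) (y : Fin n → ZMod 2) : Fin (n + 1) → ZMod 2 := Fin.cons 1 y

lemma lift1_injective (n : ℕ) : Injective (lift1 n) := by
  intro x y h
  exact Fin.cons_right_injective (α := fun _ => ZMod 2) _ h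

lemma lift1_ne_zero (n : ℕ) (y : Fin n → ZMod 2) : lift1 n y ≠ 0 := by
  intro h
  have := congrFun h 0
  simp [lift1] at this

lemma hadRow_lift1 (n : ℕ) (c : ZMod 2) (a y : Fin n → ZMod 2) :
    hadRow (n + 1) (Fin.cons c a) (lift1 n y) =
      (if c = 0 then 1 else -1) * hadRow n a y := by
  unfold hadRow lift1
  rw [Fin.sum_univ_succ]
  simp only [Fin.cons_zero, Fin.cons_succ, mul_one]
  generalize ∑ i, a i * y i = t
  revert c t; decide

lemma cons_comp_injective {n r : ℕ} {t : Fin r → (Fin n → ZMod 2)} (ht : Injective t) :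
    Injective (Fin.cons 0 (lift1 n ∘ t) : Fin (r + 1) → (Fin (n + 1) → ZMod 2)) := by
  rw [Fin.cons_injective_iff]
  refine ⟨?_, (lift1_injective n).comp ht⟩
  rintro ⟨i, hi⟩
  exact lift1_ne_zero n (t i) hi

/-- contraction at the point `0` and restriction to the hyperplane `x 0 = 1` -/
lemma UCompletes.contract {n r : ℕ} (h : UCompletes (n + 1) (r + 1)) (hr : r ≤ 2 ^ n) :
    UCompletes n r := by
  obtain ⟨χ, h1, h2, h3⟩ := h
  set ψ : (Fin r → (Fin n → ZMod 2)) → SignType := fun t => χ (Fin.cons 0 (lift1 n ∘ t)) with hψ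
  have hup : ∀ (t : Fin r → (Fin n → ZMod 2)) (i : Fin r) (v : Fin n → ZMod 2),
      (Fin.cons 0 (lift1 n ∘ update t i v) : Fin (r + 1) → (Fin (n + 1) → ZMod 2)) =
        update (Fin.cons 0 (lift1 n ∘ t)) i.succ (lift1 n v) := by
    intro t i v
    rw [comp_update, Fin.cons_update]
  have hun : ∀ t, Injective t → ψ t ≠ 0 := fun t ht => h3 _ (cons_comp_injective ht)
  refine ⟨ψ, ⟨?_, ?_, ?_⟩, ?_, hun⟩
  · -- nonzero
    have hcard : r ≤ Fintype.card (Fin n → ZMod 2) := by
      rw [Fintype.card_fun, ZMod.card, Fintype.card_fin]; exact hr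
    obtain ⟨t⟩ : Nonempty (Fin r ↪ (Fin n → ZMod 2)) := by
      apply Function.Embedding.nonempty_of_card_le
      rw [Fintype.card_fin]; exact hcard
    exact ⟨t, hun t t.injective⟩
  · -- alternating
    intro x i j hij
    have : (Fin.cons 0 (lift1 n ∘ (x ∘ Equiv.swap i j)) : Fin (r + 1) → (Fin (n + 1) → ZMod 2)) =
        (Fin.cons 0 (lift1 n ∘ x)) ∘ Equiv.swap i.succ j.succ := by
      funext k
      refine Fin.cases ?_ (fun k => ?_) k
      · rw [comp_apply, Equiv.swap_apply_of_ne_of_ne (Fin.succ_ne_zero i).symm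
          (Fin.succ_ne_zero j).symm]
        rfl
      · simp only [comp_apply, Fin.cons_succ]
        by_cases hki : k = i
        · subst hki; simp
        · by_cases hkj : k = j
          · subst hkj; simp
          · rw [Equiv.swap_apply_of_ne_of_ne hki hkj,
              Equiv.swap_apply_of_ne_of_ne (fun hh => hki (Fin.succ_injective _ hh))
                (fun hh => hkj (Fin.succ_injective _ hh))]
            simp
    simp only [hψ]
    rw [this, h1.alternating _ _ _ (fun hh => hij (Fin.succ_injective _ hh))]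
  · -- exchange
    intro x y k hxy
    obtain ⟨i', hi'⟩ := h1.exchange (Fin.cons 0 (lift1 n ∘ x)) (Fin.cons 0 (lift1 n ∘ y))
      k.succ hxy
    revert hi'
    refine Fin.cases ?_ (fun i => ?_) i'
    · intro hi
      exfalso
      have h0 : χ (update (Fin.cons 0 (lift1 n ∘ x)) k.succ
          ((Fin.cons 0 (lift1 n ∘ y) : Fin (r + 1) → (Fin (n + 1) → ZMod 2)) 0)) = 0 := by
        apply (show Alt χ from h1.alternating).zero_of_eq (Fin.succ_ne_zero k)
        rw [update_self, update_of_ne (Fin.succ_ne_zero k).symm, Fin.cons_zero, Fin.cons_zero]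
      rw [h0, zero_mul] at hi
      exact hxy hi.symm
    · intro hi
      refine ⟨i, ?_⟩
      simp only [hψ]
      rw [hup, hup]
      simpa using hi
  · -- topes
    intro a
    refine ⟨fun e => ?_, ?_⟩
    · unfold hadRow; split_ifs <;> decide
    intro w e hw
    by_contra hcon
    push Not at hcon
    have key : ∀ c : ZMod 2,
        χ (update (Fin.cons 0 (lift1 n ∘ w)) 0 (lift1 n e)) =
          ψ w * ((if c = 0 then 1 else -1) * hadRow n a e) := by
      intro c
      obtain ⟨i', hi'⟩ := (h2 (Fin.cons c a)).2 (Fin.cons 0 (lift1 n ∘ w)) (lift1 n e) hw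
      revert hi'
      refine Fin.cases ?_ (fun i => ?_) i'
      · intro hi
        rw [Fin.cons_zero, hadRow_zero, mul_one, hadRow_lift1] at hi
        exact hi
      · intro hi
        exfalso
        apply hcon i
        rw [← hup, Fin.cons_succ, comp_apply, hadRow_lift1, hadRow_lift1] at hi
        have hi2 : ψ (update w i e) * ((if c = 0 then 1 else -1) * hadRow n a (w i)) =
            ψ w * ((if c = 0 then 1 else -1) * hadRow n a e) := hi
        revert hi2
        by_cases hc : c = 0
        · simp [hc]
        · simp [hc]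
    have k0 := key 0
    have k1 := key 1
    rw [k0] at k1
    have hne : ψ w * hadRow n a e ≠ 0 := mul_ne_zero hw (by
      unfold hadRow; split_ifs <;> decide)
    apply hne
    apply sign_eq_neg_self
    simpa using k1

/-- the lower bound, from the base case `n = 4` -/
theorem lower_of_base (base : ¬ UCompletes 4 5) : ∀ n, 4 ≤ n → ∀ r, UCompletes n r → n + 2 ≤ r := by
  intro n hn
  induction n, hn using Nat.le_induction with
  | base =>
    intro r hr
    have := hr.lt
    by_contra hlt
    have : r = 5 := by omega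
    subst this
    exact base hr
  | succ n hn ih =>
    intro r hr
    have h1 := hr.lt
    by_contra hlt
    have h2 : r = (n + 1) + 1 := by omega
    subst h2
    have h3 : n + 1 ≤ 2 ^ n := Nat.lt_two_pow_self
    have := ih _ (hr.contract h3)
    omega

end Pool.Agent.OM247
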