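import Pool.Agent.OM247.Orig
import Pool.Agent.OM247.S0Data

namespace Pool.Agent.OM247.S0

open Pool.Agent.OM247

theorem o0 : okOrig t dt 0 547 = true := by decide +kernel
theorem l0 : okRange t ht F0 547 547 400 = true := by decide +kernel
theorem l1 : okRange t ht F0 547 947 204 = true := by decide +kernel
theorem last : Nat.beq (Nat.land (t.get 1150) 4095) 0 = true := by decide +kernel

end Pool.Agent.OM247.S0
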