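import Pool.Agent.OM247.Orig
import Pool.Agent.OM247.S1Data

namespace Pool.Agent.OM247.S1

open Pool.Agent.OM247

theorem o0 : okOrig t dt 0 1000 = true := by decide +kernel
theorem o1 : okOrig t dt 1000 1000 = true := by decide +kernel
theorem o2 : okOrig t dt 2000 111 = true := by decide +kernel
theorem l0 : okRange t ht F0 2111 2111 400 = true := by decide +kernel
theorem l1 : okRange t ht F0 2111 2511 400 = true := by decide +kernel
theorem l2 : okRange t ht F0 2111 2911 400 = true := by decide +kernel
theorem l3 : okRange t ht F0 2111 3311 70 = true := by decide +kernel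
theorem last : Nat.beq (Nat.land (t.get 3380) 4095) 0 = true := by decide +kernel

end Pool.Agent.OM247.S1
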