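import Pool.Agent.OM247.Block
import Pool.Agent.OM247.S1Chk0

namespace Pool.Agent.OM247.S1

open Pool.Agent.OM247

theorem F0_eq : seedF quads (rep 1) = F0 := by decide +kernel

theorem no {P : ℕ → ℕ → ℕ → ℕ → SignType} (hP : Good P) (hF : FInv (litT P) (seedF quads (rep 1))) : False := by
  rw [F0_eq] at hF
  refine table_false (litT_compl P) t ht F0 2111 3380 hF ?_ ?_ last
  · intro i hi
    apply origOK_sound hP (D := dt.get i)
    by_cases h0 : i < 1000
    · exact okOrig_spec _ _ _ _ o0 i (by omega) (by omega)
    by_cases h1 : i < 2000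
    · exact okOrig_spec _ _ _ _ o1 i (by omega) (by omega)
    exact okOrig_spec _ _ _ _ o2 i (by omega) (by omega)
  · intro i h1 h2
    by_cases h3 : i < 2511
    · exact okRange_spec _ _ _ _ _ _ l0 i (by omega) (by omega)
    by_cases h4 : i < 2911
    · exact okRange_spec _ _ _ _ _ _ l1 i (by omega) (by omega)
    by_cases h5 : i < 3311
    · exact okRange_spec _ _ _ _ _ _ l2 i (by omega) (by omega)
    exact okRange_spec _ _ _ _ _ _ l3 i (by omega) (by omega)

end Pool.Agent.OM247.S1
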