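import Pool.Agent.OM247.Orig
import Pool.Agent.OM247.S3Data

namespace Pool.Agent.OM247.S3

open Pool.Agent.OM247

theorem o0 : okOrig t dt 0 1000 = true := by decide +kernel
theorem o1 : okOrig t dt 1000 1000 = true := by decide +kernel
theorem o2 : okOrig t dt 2000 1000 = true := by decide +kernel
theorem o3 : okOrig t dt 3000 232 = true := by decide +kernel
theorem l0 : okRange t ht F0 3232 3232 400 = true := by decide +kernel
theorem l1 : okRange t ht F0 3232 3632 400 = true := by decide +kernel
theorem l2 : okRange t ht F0 3232 4032 400 = true := by decide +kernel
theorem l3 : okRange t ht F0 3232 4432 400 = true := by decide +kernel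
theorem l4 : okRange t ht F0 3232 4832 400 = true := by decide +kernel
theorem l5 : okRange t ht F0 3232 5232 198 = true := by decide +kernel
theorem last : Nat.beq (Nat.land (t.get 5429) 4095) 0 = true := by decide +kernel

end Pool.Agent.OM247.S3
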