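import Pool.Agent.OM247.Orig
import Pool.Agent.OM247.S4Data

namespace Pool.Agent.OM247.S4

open Pool.Agent.OM247

theorem o0 : okOrig t dt 0 1000 = true := by decide +kernel
theorem o2 : okOrig t dt 2000 1000 = true := by decide +kernel
theorem o4 : okOrig t dt 4000 1000 = true := by decide +kernel
theorem o6 : okOrig t dt 6000 1000 = true := by decide +kernel
theorem l0 : okRange t ht F0 7487 7487 400 = true := by decide +kernel
theorem l2 : okRange t ht F0 7487 8287 400 = true := by decide +kernel
theorem l4 : okRange t ht F0 7487 9087 400 = true := by decide +kernel
theorem l6 : okRange t ht F0 7487 9887 400 = true := by decide +kernel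
theorem l8 : okRange t ht F0 7487 10687 400 = true := by decide +kernel
theorem l10 : okRange t ht F0 7487 11487 400 = true := by decide +kernel
theorem last : Nat.beq (Nat.land (t.get 12100) 4095) 0 = true := by decide +kernel

end Pool.Agent.OM247.S4
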