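import Pool.Agent.OM247.Orig
import Pool.Agent.OM247.S4Data

namespace Pool.Agent.OM247.S4

open Pool.Agent.OM247

theorem o1 : okOrig t dt 1000 1000 = true := by decide +kernel
theorem o3 : okOrig t dt 3000 1000 = true := by decide +kernel
theorem o5 : okOrig t dt 5000 1000 = true := by decide +kernel
theorem o7 : okOrig t dt 7000 487 = true := by decide +kernel
theorem l1 : okRange t ht F0 7487 7887 400 = true := by decide +kernel
theorem l3 : okRange t ht F0 7487 8687 400 = true := by decide +kernel
theorem l5 : okRange t ht F0 7487 9487 400 = true := by decide +kernel
theorem l7 : okRange t ht F0 7487 10287 400 = true := by decide +kernel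
theorem l9 : okRange t ht F0 7487 11087 400 = true := by decide +kernel
theorem l11 : okRange t ht F0 7487 11887 214 = true := by decide +kernel

end Pool.Agent.OM247.S4
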