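import Pool.Agent.OM247.Block
import Pool.Agent.OM247.S4Chk0
import Pool.Agent.OM247.S4Chk1

namespace Pool.Agent.OM247.S4

open Pool.Agent.OM247

theorem F0_eq : seedF quads (rep 4) = F0 := by decide +kernel

theorem no {P : ℕ → ℕ → ℕ → ℕ → SignType} (hP : Good P) (hF : FInv (litT P) (seedF quads (rep 4))) : False := by
  rw [F0_eq] at hF
  refine table_false (litT_compl P) t ht F0 7487 12100 hF ?_ ?_ last
  · intro i hi
    apply origOK_sound hP (D := dt.get i)
    by_cases h0 : i < 1000
    · exact okOrig_spec _ _ _ _ o0 i (by omega) (by omega)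
    by_cases h1 : i < 2000
    · exact okOrig_spec _ _ _ _ o1 i (by omega) (by omega)
    by_cases h2 : i < 3000
    · exact okOrig_spec _ _ _ _ o2 i (by omega) (by omega)
    by_cases h3 : i < 4000
    · exact okOrig_spec _ _ _ _ o3 i (by omega) (by omega)
    by_cases h4 : i < 5000
    · exact okOrig_spec _ _ _ _ o4 i (by omega) (by omega)
    by_cases h5 : i < 6000
    · exact okOrig_spec _ _ _ _ o5 i (by omega) (by omega)
    by_cases h6 : i < 7000
    · exact okOrig_spec _ _ _ _ o6 i (by omega) (by omega)
    exact okOrig_spec _ _ _ _ o7 i (by omega) (by omega)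
  · intro i h1 h2
    by_cases h3 : i < 7887
    · exact okRange_spec _ _ _ _ _ _ l0 i (by omega) (by omega)
    by_cases h4 : i < 8287
    · exact okRange_spec _ _ _ _ _ _ l1 i (by omega) (by omega)
    by_cases h5 : i < 8687
    · exact okRange_spec _ _ _ _ _ _ l2 i (by omega) (by omega)
    by_cases h6 : i < 9087
    · exact okRange_spec _ _ _ _ _ _ l3 i (by omega) (by omega)
    by_cases h7 : i < 9487
    · exact okRange_spec _ _ _ _ _ _ l4 i (by omega) (by omega)
    by_cases h8 : i < 9887
    · exact okRange_spec _ _ _ _ _ _ l5 i (by omega) (by omega)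
    by_cases h9 : i < 10287
    · exact okRange_spec _ _ _ _ _ _ l6 i (by omega) (by omega)
    by_cases h10 : i < 10687
    · exact okRange_spec _ _ _ _ _ _ l7 i (by omega) (by omega)
    by_cases h11 : i < 11087
    · exact okRange_spec _ _ _ _ _ _ l8 i (by omega) (by omega)
    by_cases h12 : i < 11487
    · exact okRange_spec _ _ _ _ _ _ l9 i (by omega) (by omega)
    by_cases h13 : i < 11887
    · exact okRange_spec _ _ _ _ _ _ l10 i (by omega) (by omega)
    exact okRange_spec _ _ _ _ _ _ l11 i (by omega) (by omega)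

end Pool.Agent.OM247.S4
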