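import Pool.Agent.OM247.Orig
import Pool.Agent.OM247.S5Data

namespace Pool.Agent.OM247.S5

open Pool.Agent.OM247

theorem o0 : okOrig t dt 0 1000 = true := by decide +kernel
theorem o2 : okOrig t dt 2000 1000 = true := by decide +kernel
theorem o4 : okOrig t dt 4000 1000 = true := by decide +kernel
theorem o6 : okOrig t dt 6000 1000 = true := by decide +kernel
theorem l0 : okRange t ht F0 7587 7587 400 = true := by decide +kernel
theorem l2 : okRange t ht F0 7587 8387 400 = true := by decide +kernel
theorem l4 : okRange t ht F0 7587 9187 400 = true := by decide +kernel
theorem l6 : okRange t ht F0 7587 9987 400 = true := by decide +kernel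
theorem l8 : okRange t ht F0 7587 10787 400 = true := by decide +kernel
theorem l10 : okRange t ht F0 7587 11587 400 = true := by decide +kernel
theorem l12 : okRange t ht F0 7587 12387 315 = true := by decide +kernel
theorem last : Nat.beq (Nat.land (t.get 12701) 4095) 0 = true := by decide +kernel

end Pool.Agent.OM247.S5
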