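import Pool.Agent.OM247.Orig
import Pool.Agent.OM247.S6Data

namespace Pool.Agent.OM247.S6

open Pool.Agent.OM247

theorem o0 : okOrig t dt 0 1000 = true := by decide +kernel
theorem o5 : okOrig t dt 5000 1000 = true := by decide +kernel
theorem o10 : okOrig t dt 10000 1000 = true := by decide +kernel
theorem o15 : okOrig t dt 15000 1000 = true := by decide +kernel
theorem l2 : okRange t ht F0 17074 17674 300 = true := by decide +kernel
theorem l7 : okRange t ht F0 17074 19174 300 = true := by decide +kernel
theorem l12 : okRange t ht F0 17074 20674 300 = true := by decide +kernel
theorem l17 : okRange t ht F0 17074 22174 300 = true := by decide +kernel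
theorem l22 : okRange t ht F0 17074 23674 300 = true := by decide +kernel
theorem l27 : okRange t ht F0 17074 25174 196 = true := by decide +kernel
theorem last : Nat.beq (Nat.land (t.get 25369) 4095) 0 = true := by decide +kernel

end Pool.Agent.OM247.S6
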