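import Pool.Agent.OM247.Orig
import Pool.Agent.OM247.S6Data

namespace Pool.Agent.OM247.S6

open Pool.Agent.OM247

theorem o1 : okOrig t dt 1000 1000 = true := by decide +kernel
theorem o6 : okOrig t dt 6000 1000 = true := by decide +kernel
theorem o11 : okOrig t dt 11000 1000 = true := by decide +kernel
theorem o16 : okOrig t dt 16000 1000 = true := by decide +kernel
theorem l3 : okRange t ht F0 17074 17974 300 = true := by decide +kernel
theorem l8 : okRange t ht F0 17074 19474 300 = true := by decide +kernel
theorem l13 : okRange t ht F0 17074 20974 300 = true := by decide +kernel
theorem l18 : okRange t ht F0 17074 22474 300 = true := by decide +kernel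
theorem l23 : okRange t ht F0 17074 23974 300 = true := by decide +kernel

end Pool.Agent.OM247.S6
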