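import Pool.Agent.OM247.Orig
import Pool.Agent.OM247.S6Data

namespace Pool.Agent.OM247.S6

open Pool.Agent.OM247

theorem o2 : okOrig t dt 2000 1000 = true := by decide +kernel
theorem o7 : okOrig t dt 7000 1000 = true := by decide +kernel
theorem o12 : okOrig t dt 12000 1000 = true := by decide +kernel
theorem o17 : okOrig t dt 17000 74 = true := by decide +kernel
theorem l4 : okRange t ht F0 17074 18274 300 = true := by decide +kernel
theorem l9 : okRange t ht F0 17074 19774 300 = true := by decide +kernel
theorem l14 : okRange t ht F0 17074 21274 300 = true := by decide +kernel
theorem l19 : okRange t ht F0 17074 22774 300 = true := by decide +kernel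
theorem l24 : okRange t ht F0 17074 24274 300 = true := by decide +kernel

end Pool.Agent.OM247.S6
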