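import Pool.Agent.OM247.Orig
import Pool.Agent.OM247.S6Data

namespace Pool.Agent.OM247.S6

open Pool.Agent.OM247

theorem o3 : okOrig t dt 3000 1000 = true := by decide +kernel
theorem o8 : okOrig t dt 8000 1000 = true := by decide +kernel
theorem o13 : okOrig t dt 13000 1000 = true := by decide +kernel
theorem l0 : okRange t ht F0 17074 17074 300 = true := by decide +kernel
theorem l5 : okRange t ht F0 17074 18574 300 = true := by decide +kernel
theorem l10 : okRange t ht F0 17074 20074 300 = true := by decide +kernel
theorem l15 : okRange t ht F0 17074 21574 300 = true := by decide +kernel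
theorem l20 : okRange t ht F0 17074 23074 300 = true := by decide +kernel
theorem l25 : okRange t ht F0 17074 24574 300 = true := by decide +kernel

end Pool.Agent.OM247.S6
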