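import Pool.Agent.OM247.Orig
import Pool.Agent.OM247.S6Data

namespace Pool.Agent.OM247.S6

open Pool.Agent.OM247

theorem o4 : okOrig t dt 4000 1000 = true := by decide +kernel
theorem o9 : okOrig t dt 9000 1000 = true := by decide +kernel
theorem o14 : okOrig t dt 14000 1000 = true := by decide +kernel
theorem l1 : okRange t ht F0 17074 17374 300 = true := by decide +kernel
theorem l6 : okRange t ht F0 17074 18874 300 = true := by decide +kernel
theorem l11 : okRange t ht F0 17074 20374 300 = true := by decide +kernel
theorem l16 : okRange t ht F0 17074 21874 300 = true := by decide +kernel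
theorem l21 : okRange t ht F0 17074 23374 300 = true := by decide +kernel
theorem l26 : okRange t ht F0 17074 24874 300 = true := by decide +kernel

end Pool.Agent.OM247.S6
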