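import Pool.Agent.OM247.Block
import Pool.Agent.OM247.S6Chk0
import Pool.Agent.OM247.S6Chk1
import Pool.Agent.OM247.S6Chk2
import Pool.Agent.OM247.S6Chk3
import Pool.Agent.OM247.S6Chk4

namespace Pool.Agent.OM247.S6

open Pool.Agent.OM247

theorem F0_eq : seedF quads (rep 6) = F0 := by decide +kernel

theorem no {P : ℕ → ℕ → ℕ → ℕ → SignType} (hP : Good P) (hF : FInv (litT P) (seedF quads (rep 6))) : False := by
  rw [F0_eq] at hF
  refine table_false (litT_compl P) t ht F0 17074 25369 hF ?_ ?_ last
  · intro i hi
    apply origOK_sound hP (D := dt.get i)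
    by_cases h0 : i < 1000
    · exact okOrig_spec _ _ _ _ o0 i (by omega) (by omega)
    by_cases h1 : i < 2000
    · exact okOrig_spec _ _ _ _ o1 i (by omega) (by omega)
    by_cases h2 : i < 3000
    · exact okOrig_spec _ _ _ _ o2 i (by omega) (by omega)
    by_cases h3 : i < 4000
    · exact okOrig_spec _ _ _ _ o3 i (by omega) (by omega)
    by_cases h4 : i < 5000
    · exact okOrig_spec _ _ _ _ o4 i (by omega) (by omega)
    by_cases h5 : i < 6000
    · exact okOrig_spec _ _ _ _ o5 i (by omega) (by omega)
    by_cases h6 : i < 7000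
    · exact okOrig_spec _ _ _ _ o6 i (by omega) (by omega)
    by_cases h7 : i < 8000
    · exact okOrig_spec _ _ _ _ o7 i (by omega) (by omega)
    by_cases h8 : i < 9000
    · exact okOrig_spec _ _ _ _ o8 i (by omega) (by omega)
    by_cases h9 : i < 10000
    · exact okOrig_spec _ _ _ _ o9 i (by omega) (by omega)
    by_cases h10 : i < 11000
    · exact okOrig_spec _ _ _ _ o10 i (by omega) (by omega)
    by_cases h11 : i < 12000
    · exact okOrig_spec _ _ _ _ o11 i (by omega) (by omega)
    by_cases h12 : i < 13000
    · exact okOrig_spec _ _ _ _ o12 i (by omega) (by omega)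
    by_cases h13 : i < 14000
    · exact okOrig_spec _ _ _ _ o13 i (by omega) (by omega)
    by_cases h14 : i < 15000
    · exact okOrig_spec _ _ _ _ o14 i (by omega) (by omega)
    by_cases h15 : i < 16000
    · exact okOrig_spec _ _ _ _ o15 i (by omega) (by omega)
    by_cases h16 : i < 17000
    · exact okOrig_spec _ _ _ _ o16 i (by omega) (by omega)
    exact okOrig_spec _ _ _ _ o17 i (by omega) (by omega)
  · intro i h1 h2
    by_cases h3 : i < 17374
    · exact okRange_spec _ _ _ _ _ _ l0 i (by omega) (by omega)
    by_cases h4 : i < 17674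
    · exact okRange_spec _ _ _ _ _ _ l1 i (by omega) (by omega)
    by_cases h5 : i < 17974
    · exact okRange_spec _ _ _ _ _ _ l2 i (by omega) (by omega)
    by_cases h6 : i < 18274
    · exact okRange_spec _ _ _ _ _ _ l3 i (by omega) (by omega)
    by_cases h7 : i < 18574
    · exact okRange_spec _ _ _ _ _ _ l4 i (by omega) (by omega)
    by_cases h8 : i < 18874
    · exact okRange_spec _ _ _ _ _ _ l5 i (by omega) (by omega)
    by_cases h9 : i < 19174
    · exact okRange_spec _ _ _ _ _ _ l6 i (by omega) (by omega)
    by_cases h10 : i < 19474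
    · exact okRange_spec _ _ _ _ _ _ l7 i (by omega) (by omega)
    by_cases h11 : i < 19774
    · exact okRange_spec _ _ _ _ _ _ l8 i (by omega) (by omega)
    by_cases h12 : i < 20074
    · exact okRange_spec _ _ _ _ _ _ l9 i (by omega) (by omega)
    by_cases h13 : i < 20374
    · exact okRange_spec _ _ _ _ _ _ l10 i (by omega) (by omega)
    by_cases h14 : i < 20674
    · exact okRange_spec _ _ _ _ _ _ l11 i (by omega) (by omega)
    by_cases h15 : i < 20974
    · exact okRange_spec _ _ _ _ _ _ l12 i (by omega) (by omega)
    by_cases h16 : i < 21274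
    · exact okRange_spec _ _ _ _ _ _ l13 i (by omega) (by omega)
    by_cases h17 : i < 21574
    · exact okRange_spec _ _ _ _ _ _ l14 i (by omega) (by omega)
    by_cases h18 : i < 21874
    · exact okRange_spec _ _ _ _ _ _ l15 i (by omega) (by omega)
    by_cases h19 : i < 22174
    · exact okRange_spec _ _ _ _ _ _ l16 i (by omega) (by omega)
    by_cases h20 : i < 22474
    · exact okRange_spec _ _ _ _ _ _ l17 i (by omega) (by omega)
    by_cases h21 : i < 22774
    · exact okRange_spec _ _ _ _ _ _ l18 i (by omega) (by omega)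
    by_cases h22 : i < 23074
    · exact okRange_spec _ _ _ _ _ _ l19 i (by omega) (by omega)
    by_cases h23 : i < 23374
    · exact okRange_spec _ _ _ _ _ _ l20 i (by omega) (by omega)
    by_cases h24 : i < 23674
    · exact okRange_spec _ _ _ _ _ _ l21 i (by omega) (by omega)
    by_cases h25 : i < 23974
    · exact okRange_spec _ _ _ _ _ _ l22 i (by omega) (by omega)
    by_cases h26 : i < 24274
    · exact okRange_spec _ _ _ _ _ _ l23 i (by omega) (by omega)
    by_cases h27 : i < 24574
    · exact okRange_spec _ _ _ _ _ _ l24 i (by omega) (by omega)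
    by_cases h28 : i < 24874
    · exact okRange_spec _ _ _ _ _ _ l25 i (by omega) (by omega)
    by_cases h29 : i < 25174
    · exact okRange_spec _ _ _ _ _ _ l26 i (by omega) (by omega)
    exact okRange_spec _ _ _ _ _ _ l27 i (by omega) (by omega)

end Pool.Agent.OM247.S6
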