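import Pool.Agent.OM247.T1
import Pool.Agent.OM247.S0
import Pool.Agent.OM247.S1
import Pool.Agent.OM247.S2
import Pool.Agent.OM247.S3
import Pool.Agent.OM247.S4
import Pool.Agent.OM247.S5
import Pool.Agent.OM247.S6
import Pool.Agent.OM247.FromOM

/-!
There is no oriented matroid of rank 5 on `F_2^4` having all characters as topes.
-/

namespace Pool.Agent.OM247

theorem not_good {P : ℕ → ℕ → ℕ → ℕ → SignType} (hP : Good P) : False := by
  obtain ⟨P', hP', h1, h2, h3, h4⟩ := gauge hP
  refine T1.no hP' (gaugeF_inv hP'.toAlt4 h1 h2 h3 h4) ?_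
  intro P'' hP'' j hj hF
  interval_cases j
  · exact S0.no hP'' hF
  · exact S1.no hP'' hF
  · exact S2.no hP'' hF
  · exact S3.no hP'' hF
  · exact S4.no hP'' hF
  · exact S5.no hP'' hF
  · exact S6.no hP'' hF

theorem not_ucompletes_four_five : ¬ UCompletes 4 5 := by
  intro h
  obtain ⟨P, hP⟩ := good_of_ucompletes h
  exact not_good hP

/-- lower bound for all `n ≥ 4` -/
theorem completes_lower {n r : ℕ} (hn : 4 ≤ n) (h : Completes n r) : n + 2 ≤ r :=
  lower_of_base not_ucompletes_four_five n hn r h.uniform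

/-- the trivial lower bound -/
theorem completes_lt {n r : ℕ} (h : Completes n r) : n + 1 ≤ r := h.uniform.lt

end Pool.Agent.OM247
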