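import Pool.Agent.OM247.Good

namespace Pool.Agent.OM247

/-- check of an input clause (three term relation or parity clause) -/
noncomputable def origOK (D d' : ℕ) : Bool :=
  @Bool.rec (fun _ => Bool) (gpOK D d') (parOK D d') (bitb D (nat_lit 28))

theorem origOK_sound {P : ℕ → ℕ → ℕ → ℕ → SignType} (hP : Good P) {D d' : ℕ}
    (h : origOK D d' = true) : ClauseT (litT P) d' := by
  unfold origOK at h
  cases hb : bitb D 28
  · rw [hb] at h
    exact gpOK_sound hP h
  · rw [hb] at h
    exact parOK_sound hP h

/-- check the input clauses `lo, ..., lo + cnt - 1` -/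
noncomputable def okOrig (t dt : Tr) (lo cnt : ℕ) : Bool :=
  @Nat.rec (fun _ => Bool) true
    (fun k ih => @Bool.rec (fun _ => Bool) false ih
      (origOK (dt.get (Nat.add lo k)) (t.get (Nat.add lo k)))) cnt

lemma okOrig_spec (t dt : Tr) (lo : ℕ) : ∀ cnt, okOrig t dt lo cnt = true →
    ∀ i, lo ≤ i → i < lo + cnt → origOK (dt.get i) (t.get i) = true := by
  intro cnt
  induction cnt with
  | zero => intro _ i h1 h2; omega
  | succ k ih =>
    intro h i h1 h2
    have hdef : okOrig t dt lo (k + 1) =
      @Bool.rec (fun _ => Bool) false (okOrig t dt lo k)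
        (origOK (dt.get (lo + k)) (t.get (lo + k))) := rfl
    rw [hdef] at h
    by_cases h3 : origOK (dt.get (lo + k)) (t.get (lo + k)) = true
    · rw [h3] at h
      by_cases h4 : i = lo + k
      · rw [h4]; exact h3
      · exact ih h i h1 (by omega)
    · rw [Bool.not_eq_true] at h3
      rw [h3] at h
      exact absurd h (by show ¬ (false = true); decide)

end Pool.Agent.OM247
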