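import Pool.Agent.OM247.Basic

namespace Pool.Agent.OM247

open Function

variable {E : Type} [DecidableEq E] {r : ℕ}

/-- replace `e` by `f` -/
def repl (e f : E) (z : E) : E := if z = e then f else z

lemma repl_self (e f : E) : repl e f e = f := by simp [repl]
lemma repl_ne {e f z : E} (h : z ≠ e) : repl e f z = z := by simp [repl, h]

/-- perturb the element `e` in the direction `f` -/
def pert (χ : (Fin r → E) → SignType) (e f : E) (t : Fin r → E) : SignType :=
  if χ t ≠ 0 then χ t else χ (repl e f ∘ t)

lemma pert_of_ne {χ : (Fin r → E) → SignType} {e f : E} {t : Fin r → E} (h : χ t ≠ 0) :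
    pert χ e f t = χ t := by simp [pert, h]

lemma pert_of_eq {χ : (Fin r → E) → SignType} {e f : E} {t : Fin r → E} (h : χ t = 0) :
    pert χ e f t = χ (repl e f ∘ t) := by simp [pert, h]

lemma repl_comp_of_notMem {e f : E} {t : Fin r → E} (h : ∀ i, t i ≠ e) : repl e f ∘ t = t := by
  funext i; simp [repl, h i]

lemma pert_of_notMem {χ : (Fin r → E) → SignType} {e f : E} {t : Fin r → E}
    (h : ∀ i, t i ≠ e) : pert χ e f t = χ t := by
  unfold pert
  rw [repl_comp_of_notMem h]
  split_ifs with h1
  · rfl
  · rfl

lemma pert_alt {χ : (Fin r → E) → SignType} (h : Alt χ) (e f : E) : Alt (pert χ e f) := by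
  intro x i j hij
  unfold pert
  rw [h x i j hij, show repl e f ∘ x ∘ Equiv.swap i j = (repl e f ∘ x) ∘ Equiv.swap i j from rfl,
    h _ i j hij]
  by_cases h0 : χ x = 0
  · simp [h0]
  · simp [h0]

lemma repl_update (e f : E) (t : Fin r → E) (i : Fin r) (v : E) :
    repl e f ∘ update t i v = update (repl e f ∘ t) i (repl e f v) := by
  rw [comp_update]

/-- if exactly one of the two tuples contains `e` -/
lemma pert_mul_one {χ : (Fin r → E) → SignType} {e f : E} {a b : Fin r → E}
    (h : (∀ i, a i ≠ e) ∨ (∀ i, b i ≠ e)) :
    pert χ e f a * pert χ e f b =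
      if χ a * χ b ≠ 0 then χ a * χ b else χ (repl e f ∘ a) * χ (repl e f ∘ b) := by
  rcases h with h | h
  · rw [pert_of_notMem h, repl_comp_of_notMem h]
    unfold pert
    by_cases h1 : χ a = 0
    · simp [h1]
    · by_cases h2 : χ b = 0
      · simp [h2]
      · simp [h1, h2]
  · rw [pert_of_notMem h, repl_comp_of_notMem h]
    unfold pert
    by_cases h1 : χ b = 0
    · simp [h1]
    · by_cases h2 : χ a = 0
      · simp [h2]
      · simp [h1, h2]

lemma sgn_cases {s a : SignType} (hs : s ≠ 0) (ha : a ≠ 0) : a = s ∨ a = -s := by
  revert hs ha; cases s <;> cases a <;> decide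

/-- The combination step in the case that no product contains `e` twice. -/
lemma combine_one {ι : Type} {T0L T1L : SignType} {T0 T1 : ι → SignType} {s : SignType}
    (hs : s ≠ 0)
    (h0 : ∀ s', s' ≠ 0 → T0L = s' → ∃ i, T0 i = s')
    (h0b : ∀ s', s' ≠ 0 → ∀ i, T0 i = s' → T0L = s' ∨ ∃ j, T0 j = -s')
    (h1 : ∀ s', s' ≠ 0 → T1L = s' → ∃ i, T1 i = s')
    (hL : (if T0L ≠ 0 then T0L else T1L) = s) :
    ∃ i, (if T0 i ≠ 0 then T0 i else T1 i) = s := by
  by_cases hz : T0L = 0
  · simp only [hz, ne_eq, not_true_eq_false, if_false] at hL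
    obtain ⟨i, hi⟩ := h1 s hs hL
    by_cases hi0 : T0 i = 0
    · exact ⟨i, by simp [hi0, hi]⟩
    · rcases sgn_cases hs hi0 with hi1 | hi1
      · exact ⟨i, by simp [hi1, hs]⟩
      · rcases h0b (-s) (by simpa using hs) i hi1 with h | ⟨j, hj⟩
        · rw [hz] at h; exact absurd h.symm (by simpa using hs)
        · rw [neg_neg] at hj
          exact ⟨j, by simp [hj, hs]⟩
  · simp only [ne_eq, hz, not_false_eq_true, if_true] at hL
    obtain ⟨i, hi⟩ := h0 s hs hL
    exact ⟨i, by simp [hi, hs]⟩

/-- The perturbation keeps the exchange axiom. -/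
lemma pert_exchange {χ : (Fin r → E) → SignType} (h : IsChirotope χ) {e f : E}
    (x y : Fin r → E) (k : Fin r) (hxy : pert χ e f x * pert χ e f y ≠ 0) :
    ∃ i, pert χ e f (update x k (y i)) * pert χ e f (update y i (x k)) =
      pert χ e f x * pert χ e f y := by
  have halt' : Alt (pert χ e f) := pert_alt h.alternating e f
  have hxinj : Injective x := halt'.injective_of_ne (left_ne_zero_of_mul hxy)
  have hyinj : Injective y := halt'.injective_of_ne (right_ne_zero_of_mul hxy)
  -- trivial case
  by_cases hq : ∃ q, y q = x k
  · obtain ⟨q, hq⟩ := hq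
    refine ⟨q, ?_⟩
    rw [hq, update_eq_self, ← hq, update_eq_self]
  push Not at hq
  have hR0 : ∀ s', s' ≠ 0 → χ x * χ y = s' →
      ∃ i, χ (update x k (y i)) * χ (update y i (x k)) = s' := by
    intro s' hs' hh
    obtain ⟨i, hi⟩ := h.exchange x y k (by rw [hh]; exact hs')
    exact ⟨i, by rw [hi, hh]⟩
  have hR0b : ∀ s', s' ≠ 0 → ∀ i, χ (update x k (y i)) * χ (update y i (x k)) = s' →
      χ x * χ y = s' ∨ ∃ j, χ (update x k (y j)) * χ (update y j (x k)) = -s' := by
    intro s' hs' i hh
    rcases exchange_bal h x y k i hs' hh with h1 | ⟨j, _, hj⟩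
    · exact Or.inl h1
    · exact Or.inr ⟨j, hj⟩
  have hR1 : ∀ s', s' ≠ 0 → χ (repl e f ∘ x) * χ (repl e f ∘ y) = s' →
      ∃ i, χ (repl e f ∘ update x k (y i)) * χ (repl e f ∘ update y i (x k)) = s' := by
    intro s' hs' hh
    obtain ⟨i, hi⟩ := h.exchange (repl e f ∘ x) (repl e f ∘ y) k (by rw [hh]; exact hs')
    refine ⟨i, ?_⟩
    rw [repl_update, repl_update]
    rw [← hh, ← hi]; rfl
  by_cases hxe : ∃ p, p ≠ k ∧ x p = e
  · obtain ⟨p, hpk, hp⟩ := hxe
    have hxk : x k ≠ e := fun hh => hpk (hxinj (hp.trans hh.symm))
    by_cases hye : ∃ q, y q = e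
    · -- the main case: both `x` and `y` contain `e`
      obtain ⟨q, hyq⟩ := hye
      obtain ⟨s, hs⟩ : ∃ s, s = pert χ e f x * pert χ e f y := ⟨_, rfl⟩
      rw [← hs] at hxy ⊢
      have hq' : ∀ i, i ≠ q → y i ≠ e := fun i hi hh => hi (hyinj (hh.trans hyq.symm))
      -- abbreviations
      set A : Fin r → (Fin r → E) := fun i => update x k (y i) with hA
      set B : Fin r → (Fin r → E) := fun i => update y i (x k) with hB
      have hAq : χ (A q) = 0 := by
        apply (show Alt χ from h.alternating).zero_of_eq hpk
        simp only [hA]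
        rw [update_of_ne hpk, update_self, hp, hyq]
      have hAq' : χ (repl e f ∘ A q) = 0 := by
        apply (show Alt χ from h.alternating).zero_of_eq hpk
        simp only [hA, comp_apply]
        rw [update_of_ne hpk, update_self, hp, hyq]
      set σ : SignType := χ (update (repl e f ∘ x) k e) * χ (B q) with hσ
      have hH : χ (update x k f) = - χ (update (repl e f ∘ x) k e) := by
        have : update x k f = (update (repl e f ∘ x) k e) ∘ Equiv.swap k p := by
          funext j
          simp only [comp_apply]
          by_cases hjk : j = k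
          · subst hjk
            rw [update_self, Equiv.swap_apply_left, update_of_ne hpk, comp_apply, hp, repl_self]
          · by_cases hjp : j = p
            · subst hjp
              rw [update_of_ne hjk, Equiv.swap_apply_right, update_self, hp]
            · rw [Equiv.swap_apply_of_ne_of_ne hjk hjp, update_of_ne hjk, update_of_ne hjk,
                comp_apply, repl_ne]
              intro hh
              exact hjp (hxinj (hh.trans hp.symm))
        rw [this, h.alternating _ k p (Ne.symm hpk)]
      -- the relations of order one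
      have hφxk : (repl e f ∘ x) k = x k := by simp [repl, hxk]
      have hR10 : ∀ s', s' ≠ 0 → χ (repl e f ∘ x) * χ y = s' →
          (∃ i, i ≠ q ∧ χ (repl e f ∘ A i) * χ (B i) = s') ∨ σ = s' := by
        intro s' hs' hh
        obtain ⟨i, hi⟩ := h.exchange (repl e f ∘ x) y k (by rw [hh]; exact hs')
        rw [hh, hφxk] at hi
        by_cases hiq : i = q
        · subst hiq
          right
          rw [hyq] at hi
          exact hi
        · left
          refine ⟨i, hiq, ?_⟩
          rw [← hi]
          simp only [hA, hB, repl_update, repl_ne (hq' i hiq)]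
      have hR10b : ∀ s', s' ≠ 0 → σ = s' →
          χ (repl e f ∘ x) * χ y = s' ∨ ∃ i, i ≠ q ∧ χ (repl e f ∘ A i) * χ (B i) = -s' := by
        intro s' hs' hh
        rcases exchange_bal h (repl e f ∘ x) y k q hs' (by
          rw [hφxk, hyq]; exact hh) with h1 | ⟨j, hjq, hj⟩
        · exact Or.inl h1
        · right
          refine ⟨j, hjq, ?_⟩
          rw [← hj, hφxk]
          simp only [hA, hB, repl_update, repl_ne (hq' j hjq)]
      have hR10c : ∀ s', s' ≠ 0 → ∀ i, i ≠ q → χ (repl e f ∘ A i) * χ (B i) = s' →
          χ (repl e f ∘ x) * χ y = s' ∨ (∃ j, j ≠ q ∧ χ (repl e f ∘ A j) * χ (B j) = -s') ∨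
            σ = -s' := by
        intro s' hs' i hiq hh
        rcases exchange_bal h (repl e f ∘ x) y k i hs' (by
          rw [hφxk, ← hh]; simp only [hA, hB, repl_update, repl_ne (hq' i hiq)]) with
          h1 | ⟨j, _, hj⟩
        · exact Or.inl h1
        · right
          rw [hφxk] at hj
          by_cases hjq : j = q
          · subst hjq
            right
            rw [hyq] at hj
            exact hj
          · left
            refine ⟨j, hjq, ?_⟩
            rw [← hj]
            simp only [hA, hB, repl_update, repl_ne (hq' j hjq)]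
      have hφyi : ∀ i, i ≠ q → (repl e f ∘ y) i = y i := fun i hi => by
        simp [repl, hq' i hi]
      have hφyq : (repl e f ∘ y) q = f := by simp [repl, hyq]
      have hBq : update (repl e f ∘ y) q (x k) = B q := by
        funext j
        simp only [hB]
        by_cases hjq : j = q
        · subst hjq; simp
        · rw [update_of_ne hjq, update_of_ne hjq, hφyi j hjq]
      have hR01 : ∀ s', s' ≠ 0 → χ x * χ (repl e f ∘ y) = s' →
          (∃ i, i ≠ q ∧ χ (A i) * χ (repl e f ∘ B i) = s') ∨ -σ = s' := by
        intro s' hs' hh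
        obtain ⟨i, hi⟩ := h.exchange x (repl e f ∘ y) k (by rw [hh]; exact hs')
        rw [hh] at hi
        by_cases hiq : i = q
        · subst hiq
          right
          rw [hφyq, hBq, hH, neg_mul] at hi
          exact hi
        · left
          refine ⟨i, hiq, ?_⟩
          rw [← hi]
          simp only [hA, hB, repl_update, repl_ne hxk, hφyi i hiq]
      have hR01b : ∀ s', s' ≠ 0 → -σ = s' →
          χ x * χ (repl e f ∘ y) = s' ∨ ∃ i, i ≠ q ∧ χ (A i) * χ (repl e f ∘ B i) = -s' := by
        intro s' hs' hh
        rcases exchange_bal h x (repl e f ∘ y) k q hs' (by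
          rw [hφyq, hBq, hH, neg_mul]; exact hh) with h1 | ⟨j, hjq, hj⟩
        · exact Or.inl h1
        · right
          refine ⟨j, hjq, ?_⟩
          rw [← hj]
          simp only [hA, hB, repl_update, repl_ne hxk, hφyi j hjq]
      have hR01c : ∀ s', s' ≠ 0 → ∀ i, i ≠ q → χ (A i) * χ (repl e f ∘ B i) = s' →
          χ x * χ (repl e f ∘ y) = s' ∨ (∃ j, j ≠ q ∧ χ (A j) * χ (repl e f ∘ B j) = -s') ∨
            -σ = -s' := by
        intro s' hs' i hiq hh
        rcases exchange_bal h x (repl e f ∘ y) k i hs' (by
          rw [← hh]; simp only [hA, hB, repl_update, repl_ne hxk, hφyi i hiq]) with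
          h1 | ⟨j, _, hj⟩
        · exact Or.inl h1
        · right
          by_cases hjq : j = q
          · subst hjq
            right
            rw [hφyq, hBq, hH, neg_mul] at hj
            exact hj
          · left
            refine ⟨j, hjq, ?_⟩
            rw [← hj]
            simp only [hA, hB, repl_update, repl_ne hxk, hφyi j hjq]
      by_contra hcon
      push Not at hcon
      have hns : -s ≠ 0 := by simpa using hxy
      -- order zero
      have key0 : ∀ i, χ (A i) * χ (B i) ≠ s := by
        intro i hi
        apply hcon i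
        have h1 : χ (A i) ≠ 0 := fun h0 => by rw [h0, zero_mul] at hi; exact hxy hi.symm
        have h2 : χ (B i) ≠ 0 := fun h0 => by rw [h0, mul_zero] at hi; exact hxy hi.symm
        show pert χ e f (A i) * pert χ e f (B i) = s
        rw [pert_of_ne h1, pert_of_ne h2, hi]
      have hL0 : χ x * χ y = 0 := by
        by_contra hne
        have h1 : χ x ≠ 0 := left_ne_zero_of_mul hne
        have h2 : χ y ≠ 0 := right_ne_zero_of_mul hne
        rw [pert_of_ne h1, pert_of_ne h2] at hs
        obtain ⟨i, hi⟩ := hR0 s hxy hs.symm
        exact key0 i hi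
      have hT0 : ∀ i, χ (A i) * χ (B i) = 0 := by
        intro i
        by_contra hne
        rcases sgn_cases hxy hne with h1 | h1
        · exact key0 i h1
        · rcases hR0b (-s) hns i h1 with h2 | ⟨j, hj⟩
          · rw [hL0] at h2; exact hns h2.symm
          · rw [neg_neg] at hj; exact key0 j hj
      -- order one
      have key10 : ∀ i, χ (repl e f ∘ A i) * χ (B i) ≠ s := by
        intro i hi
        apply hcon i
        have h2 : χ (B i) ≠ 0 := fun h0 => by rw [h0, mul_zero] at hi; exact hxy hi.symm
        have h1 : χ (A i) = 0 := by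
          have := hT0 i
          rcases mul_eq_zero.mp this with h3 | h3
          · exact h3
          · exact absurd h3 h2
        show pert χ e f (A i) * pert χ e f (B i) = s
        rw [pert_of_eq h1, pert_of_ne h2, hi]
      have key01 : ∀ i, χ (A i) * χ (repl e f ∘ B i) ≠ s := by
        intro i hi
        apply hcon i
        have h2 : χ (A i) ≠ 0 := fun h0 => by rw [h0, zero_mul] at hi; exact hxy hi.symm
        have h1 : χ (B i) = 0 := by
          have := hT0 i
          rcases mul_eq_zero.mp this with h3 | h3
          · exact absurd h3 h2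
          · exact h3
        show pert χ e f (A i) * pert χ e f (B i) = s
        rw [pert_of_ne h2, pert_of_eq h1, hi]
      -- `σ ≠ s` and `σ ≠ -s` once the left sides of order one vanish in the right way
      have hσ1 : χ x * χ (repl e f ∘ y) = 0 → σ ≠ s := by
        intro hz hh
        rcases hR01b (-s) hns (by rw [hh]) with h2 | ⟨j, _, hj⟩
        · rw [hz] at h2; exact hns h2.symm
        · rw [neg_neg] at hj; exact key01 j hj
      have hσ2 : χ (repl e f ∘ x) * χ y = 0 → σ ≠ -s := by
        intro hz hh
        rcases hR10b (-s) hns hh with h2 | ⟨j, _, hj⟩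
        · rw [hz] at h2; exact hns h2.symm
        · rw [neg_neg] at hj; exact key10 j hj
      have hL10 : χ (repl e f ∘ x) * χ y = 0 := by
        by_contra hne
        have h2 : χ y ≠ 0 := right_ne_zero_of_mul hne
        have h1 : χ x = 0 := by
          rcases mul_eq_zero.mp hL0 with h3 | h3
          · exact h3
          · exact absurd h3 h2
        rw [pert_of_eq h1, pert_of_ne h2] at hs
        rcases hR10 s hxy hs.symm with ⟨i, _, hi⟩ | h3
        · exact key10 i hi
        · exact hσ1 (by rw [h1, zero_mul]) h3
      have hL01 : χ x * χ (repl e f ∘ y) = 0 := by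
        by_contra hne
        have h2 : χ x ≠ 0 := left_ne_zero_of_mul hne
        have h1 : χ y = 0 := by
          rcases mul_eq_zero.mp hL0 with h3 | h3
          · exact absurd h3 h2
          · exact h3
        rw [pert_of_ne h2, pert_of_eq h1] at hs
        rcases hR01 s hxy hs.symm with ⟨i, _, hi⟩ | h3
        · exact key01 i hi
        · exact hσ2 hL10 (by rw [← h3]; simp)
      have hT10 : ∀ i, i ≠ q → χ (repl e f ∘ A i) * χ (B i) = 0 := by
        intro i hiq
        by_contra hne
        rcases sgn_cases hxy hne with h1 | h1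
        · exact key10 i h1
        · rcases hR10c (-s) hns i hiq h1 with h2 | ⟨j, _, hj⟩ | h2
          · rw [hL10] at h2; exact hns h2.symm
          · rw [neg_neg] at hj; exact key10 j hj
          · rw [neg_neg] at h2; exact hσ1 hL01 h2
      have hT01 : ∀ i, i ≠ q → χ (A i) * χ (repl e f ∘ B i) = 0 := by
        intro i hiq
        by_contra hne
        rcases sgn_cases hxy hne with h1 | h1
        · exact key01 i h1
        · rcases hR01c (-s) hns i hiq h1 with h2 | ⟨j, _, hj⟩ | h2
          · rw [hL01] at h2; exact hns h2.symm
          · rw [neg_neg] at hj; exact key01 j hj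
          · rw [neg_neg] at h2; exact hσ2 hL10 (by rw [← h2]; simp)
      -- order two
      have hx0 : χ x = 0 := by
        by_contra hne
        have h1 : χ y = 0 := by
          rcases mul_eq_zero.mp hL0 with h3 | h3
          · exact absurd h3 hne
          · exact h3
        have h2 : χ (repl e f ∘ y) = 0 := by
          rcases mul_eq_zero.mp hL01 with h3 | h3
          · exact absurd h3 hne
          · exact h3
        rw [pert_of_eq h1, h2, mul_zero] at hs
        exact hxy hs
      have hy0 : χ y = 0 := by
        by_contra hne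
        have h2 : χ (repl e f ∘ x) = 0 := by
          rcases mul_eq_zero.mp hL10 with h3 | h3
          · exact h3
          · exact absurd h3 hne
        rw [pert_of_eq hx0, h2, zero_mul] at hs
        exact hxy hs
      rw [pert_of_eq hx0, pert_of_eq hy0] at hs
      obtain ⟨i, hi⟩ := hR1 s hxy hs.symm
      have hiq : i ≠ q := by
        intro hh
        subst hh
        have : χ (repl e f ∘ A i) * χ (repl e f ∘ B i) = s := hi
        rw [hAq', zero_mul] at this
        exact hxy this.symm
      have hi' : χ (repl e f ∘ A i) * χ (repl e f ∘ B i) = s := hi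
      have h1 : χ (repl e f ∘ A i) ≠ 0 := fun h0 => by
        rw [h0, zero_mul] at hi'; exact hxy hi'.symm
      have h2 : χ (repl e f ∘ B i) ≠ 0 := fun h0 => by
        rw [h0, mul_zero] at hi'; exact hxy hi'.symm
      have h3 : χ (B i) = 0 := by
        rcases mul_eq_zero.mp (hT10 i hiq) with h3 | h3
        · exact absurd h3 h1
        · exact h3
      have h4 : χ (A i) = 0 := by
        rcases mul_eq_zero.mp (hT01 i hiq) with h3 | h3
        · exact h3
        · exact absurd h3 h2
      apply hcon i
      show pert χ e f (A i) * pert χ e f (B i) = s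
      rw [pert_of_eq h4, pert_of_eq h3, hi']
    · -- `e` occurs in `x` (not at `k`) but not in `y`
      push Not at hye
      have hB : ∀ i, ∀ j, update y i (x k) j ≠ e := by
        intro i j
        by_cases hj : j = i
        · subst hj; rw [update_self]; exact hxk
        · rw [update_of_ne hj]; exact hye j
      have hL := pert_mul_one (χ := χ) (e := e) (f := f) (a := x) (b := y) (Or.inr hye)
      have hI : ∀ i, _ := fun i => pert_mul_one (χ := χ) (e := e) (f := f)
        (a := update x k (y i)) (b := update y i (x k)) (Or.inr (hB i))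
      simp only [hI]
      exact combine_one hxy hR0 hR0b hR1 hL.symm
  · push Not at hxe
    by_cases hz : x k = e
    · -- `e = x k`, so `y` does not contain `e`
      have hye : ∀ i, y i ≠ e := fun i hh => hq i (hh.trans hz.symm)
      have hA : ∀ i, ∀ j, update x k (y i) j ≠ e := by
        intro i j
        by_cases hj : j = k
        · subst hj; rw [update_self]; exact hye i
        · rw [update_of_ne hj]; exact hxe j hj
      have hL := pert_mul_one (χ := χ) (e := e) (f := f) (a := x) (b := y) (Or.inr hye)
      have hI : ∀ i, _ := fun i => pert_mul_one (χ := χ) (e := e) (f := f)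
        (a := update x k (y i)) (b := update y i (x k)) (Or.inl (hA i))
      simp only [hI]
      exact combine_one hxy hR0 hR0b hR1 hL.symm
    · have hx : ∀ j, x j ≠ e := by
        intro j
        by_cases hj : j = k
        · subst hj; exact hz
        · exact hxe j hj
      have hI : ∀ i, pert χ e f (update x k (y i)) * pert χ e f (update y i (x k)) =
          if χ (update x k (y i)) * χ (update y i (x k)) ≠ 0 then
            χ (update x k (y i)) * χ (update y i (x k)) else
            χ (repl e f ∘ update x k (y i)) * χ (repl e f ∘ update y i (x k)) := by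
        intro i
        apply pert_mul_one
        by_cases hi : y i = e
        · right
          intro j
          by_cases hj : j = i
          · subst hj; rw [update_self]; exact hz
          · rw [update_of_ne hj]
            intro hh
            exact hj (hyinj (hh.trans hi.symm))
        · left
          intro j
          by_cases hj : j = k
          · subst hj; rw [update_self]; exact hi
          · rw [update_of_ne hj]; exact hx j
      have hL := pert_mul_one (χ := χ) (e := e) (f := f) (a := x) (b := y) (Or.inl hx)
      simp only [hI]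
      exact combine_one hxy hR0 hR0b hR1 hL.symm

lemma pert_isChirotope {χ : (Fin r → E) → SignType} (h : IsChirotope χ) (e f : E) :
    IsChirotope (pert χ e f) where
  nonzero := by
    obtain ⟨x, hx⟩ := h.nonzero
    exact ⟨x, by rw [pert_of_ne hx]; exact hx⟩
  alternating := pert_alt h.alternating e f
  exchange := fun x y k hxy => pert_exchange h x y k hxy

/-- The perturbation keeps all topes. -/
lemma pert_isTope {χ : (Fin r → E) → SignType} (h : IsChirotope χ) (e f : E)
    {u : E → SignType} (hu : IsTope χ u) : IsTope (pert χ e f) u := by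
  refine ⟨hu.1, ?_⟩
  intro w g hw
  have halt' : Alt (pert χ e f) := pert_alt h.alternating e f
  have hwinj : Injective w := halt'.injective_of_ne hw
  by_cases hq : ∃ q, w q = g
  · obtain ⟨q, hq⟩ := hq
    exact ⟨q, by rw [← hq, update_eq_self]⟩
  push Not at hq
  obtain ⟨s, hs⟩ : ∃ s, s = pert χ e f w * u g := ⟨_, rfl⟩
  have hs0 : s ≠ 0 := by rw [hs]; exact mul_ne_zero hw (hu.1 g)
  have hns : -s ≠ 0 := by simpa using hs0
  rw [← hs]
  by_contra hcon
  push Not at hcon
  have key0 : ∀ i, χ (update w i g) * u (w i) ≠ s := by
    intro i hi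
    apply hcon i
    have h1 : χ (update w i g) ≠ 0 := fun h0 => by rw [h0, zero_mul] at hi; exact hs0 hi.symm
    rw [pert_of_ne h1, hi]
  have hL0 : χ w = 0 := by
    by_contra hne
    rw [pert_of_ne hne] at hs
    obtain ⟨i, hi⟩ := hu.2 w g hne
    exact key0 i (by rw [hi, hs])
  have hT0 : ∀ i, χ (update w i g) = 0 := by
    intro i
    by_contra hne
    rcases sgn_cases hs0 (mul_ne_zero hne (hu.1 (w i))) with h1 | h1
    · exact key0 i h1
    · rcases tope_bal h hu w g i hns h1 with h2 | ⟨j, _, hj⟩
      · rw [hL0, zero_mul] at h2; exact hns h2.symm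
      · rw [neg_neg] at hj; exact key0 j hj
  rw [pert_of_eq hL0] at hs
  have hne : χ (repl e f ∘ w) ≠ 0 := fun h0 => by rw [h0, zero_mul] at hs; exact hs0 hs
  -- `w` contains `e`
  have hwe : ∃ q, w q = e := by
    by_contra hno
    push Not at hno
    rw [repl_comp_of_notMem hno] at hne
    exact hne hL0
  obtain ⟨q, hwq⟩ := hwe
  have hge : g ≠ e := fun hh => hq q (hwq.trans hh.symm)
  obtain ⟨i, hi⟩ := hu.2 (repl e f ∘ w) g hne
  rw [← hs] at hi
  by_cases hiq : i = q
  · subst hiq
    have : update (repl e f ∘ w) i g = update w i g := by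
      funext j
      by_cases hj : j = i
      · subst hj; simp
      · rw [update_of_ne hj, update_of_ne hj, comp_apply, repl_ne]
        intro hh
        exact hj (hwinj (hh.trans hwq.symm))
    rw [this, hT0 i, zero_mul] at hi
    exact hs0 hi.symm
  · have hwi : w i ≠ e := fun hh => hiq (hwinj (hh.trans hwq.symm))
    apply hcon i
    rw [pert_of_eq (hT0 i), repl_update, repl_ne hge]
    rw [comp_apply, repl_ne hwi] at hi
    exact hi

end Pool.Agent.OM247
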