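import Pool.Agent.OM247.Defs

/-!
Real sign representations of the Sylvester Hadamard matrices, and the abstract data of a
configuration of 8 vectors in real 4-space (points `8, ..., 15`, the affine points of `F_2^4`).
-/

namespace Pool.Agent.OM247

/-- The Sylvester Hadamard matrix of order `2 ^ n` has a sign representation in real dimension
`r`: there are vectors `v x`, `p a` of `ℝ ^ r` whose scalar products have the signs
`(-1)^(a ⬝ x)`. -/
def SignRep (n r : ℕ) : Prop :=
  ∃ v p : (Fin n → ZMod 2) → Fin r → ℝ,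
    ∀ a x, SignType.sign (∑ i, v x i * p a i) = hadRow n a x

/-- `D` behaves like the determinants of vectors in real 4-space, nonzero on distinct points
among `8, ..., 15`. -/
structure RD (D : ℕ → ℕ → ℕ → ℕ → ℝ) : Prop where
  s01 : ∀ a b c d, D b a c d = - D a b c d
  s12 : ∀ a b c d, D a c b d = - D a b c d
  s23 : ∀ a b c d, D a b d c = - D a b c d
  gp : ∀ x y a b c d,
    D x y a b * D x y c d - D x y a c * D x y b d + D x y a d * D x y b c = 0
  nz : ∀ a b c d, 8 ≤ a → 8 ≤ b → 8 ≤ c → 8 ≤ d → a < 16 → b < 16 → c < 16 → d < 16 →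
    a ≠ b → a ≠ c → a ≠ d → b ≠ c → b ≠ d → c ≠ d → D a b c d ≠ 0

/-- parity condition on the affine planes among the points `8, ..., 15` -/
def ParA (P : ℕ → ℕ → ℕ → ℕ → SignType) : Prop :=
  ∀ a b c e, 8 ≤ a → 8 ≤ b → 8 ≤ c → 8 ≤ e → a < 16 → b < 16 → c < 16 → e < 16 →
    a ≠ b → a ≠ c → b ≠ c → e ≠ a → e ≠ b → e ≠ c → e ≠ a ^^^ b ^^^ c →
    P b c (a ^^^ b ^^^ c) e * P a c (a ^^^ b ^^^ c) e * P a b (a ^^^ b ^^^ c) e * P a b c e = -1

end Pool.Agent.OM247
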