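import Pool.Agent.OM247.GoodTrans
import Pool.Agent.OM247.OrigB
import Pool.Agent.OM247.SignRep

/-!
Rank 4 data on the affine points `8, ..., 15` of `F_2^4`: validity of the input clauses of the
table `T1` for such data, and changes of coordinates.
-/

namespace Pool.Agent.OM247

/-- signs of a real function of four points -/
noncomputable def sD (D : ℕ → ℕ → ℕ → ℕ → ℝ) : ℕ → ℕ → ℕ → ℕ → SignType :=
  fun a b c d => SignType.sign (D a b c d)

/-- the sign data needed on the affine points -/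
structure GA (P : ℕ → ℕ → ℕ → ℕ → SignType) : Prop extends Alt4 P where
  nz : ∀ a b c d, 8 ≤ a → 8 ≤ b → 8 ≤ c → 8 ≤ d → a < 16 → b < 16 → c < 16 → d < 16 →
    a ≠ b → a ≠ c → a ≠ d → b ≠ c → b ≠ d → c ≠ d → P a b c d ≠ 0
  gp : ∀ x y a b c d, 8 ≤ x → 8 ≤ y → 8 ≤ a → 8 ≤ b → 8 ≤ c → 8 ≤ d →
    x < 16 → y < 16 → a < 16 → b < 16 → c < 16 → d < 16 →
    x ≠ y → x ≠ a → x ≠ b → x ≠ c → x ≠ d → y ≠ a → y ≠ b → y ≠ c → y ≠ d →
    a ≠ b → a ≠ c → a ≠ d → b ≠ c → b ≠ d → c ≠ d →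
    ∀ s : SignType, s ≠ 0 → ¬ (P x y a b * P x y c d = s ∧ -(P x y a c * P x y b d) = s ∧
      P x y a d * P x y b c = s)

lemma sD_alt {D : ℕ → ℕ → ℕ → ℕ → ℝ} (hD : RD D) : Alt4 (sD D) := by
  constructor
  · intro a b c d; unfold sD; rw [hD.s01, Left.sign_neg]
  · intro a b c d; unfold sD; rw [hD.s12, Left.sign_neg]
  · intro a b c d; unfold sD; rw [hD.s23, Left.sign_neg]

lemma sign_ne_zero' {x : ℝ} (h : x ≠ 0) : SignType.sign x ≠ 0 := sign_ne_zero.mpr h

lemma sum_signs {u v w : ℝ} (h : u - v + w = 0) (s : SignType) (hs : s ≠ 0) :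
    ¬ (SignType.sign u = s ∧ -(SignType.sign v) = s ∧ SignType.sign w = s) := by
  rintro ⟨h1, h2, h3⟩
  cases s with
  | zero => exact hs rfl
  | neg =>
    have g1 : u < 0 := sign_eq_neg_one_iff.mp h1
    have g3 : w < 0 := sign_eq_neg_one_iff.mp h3
    have g2 : 0 < v := by
      apply sign_eq_one_iff.mp
      have : -(-(SignType.sign v)) = -(SignType.neg) := by rw [h2]
      simpa using this
    linarith
  | pos =>
    have g1 : 0 < u := sign_eq_one_iff.mp h1
    have g3 : 0 < w := sign_eq_one_iff.mp h3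
    have g2 : v < 0 := by
      apply sign_eq_neg_one_iff.mp
      have : -(-(SignType.sign v)) = -(SignType.pos) := by rw [h2]
      simpa using this
    linarith

lemma sD_ga {D : ℕ → ℕ → ℕ → ℕ → ℝ} (hD : RD D) : GA (sD D) := by
  constructor
  · exact sD_alt hD
  · intro a b c d ha hb hc hd ha' hb' hc' hd' ab ac ad bc bd cd
    exact sign_ne_zero' (hD.nz a b c d ha hb hc hd ha' hb' hc' hd' ab ac ad bc bd cd)
  · intro x y a b c d _ _ _ _ _ _ _ _ _ _ _ _ _ _ _ _ _ _ _ _ _ _ _ _ _ _ _ s hs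
    unfold sD
    rw [← sign_mul, ← sign_mul, ← sign_mul]
    exact sum_signs (hD.gp x y a b c d) s hs

/-- check of a Grassmann Plücker clause with descriptor `D` -/
noncomputable def gpOKA' (x y a b c d D d' : ℕ) : Bool :=
  an (Nat.ble (nat_lit 8) x) <| an (Nat.ble (nat_lit 8) y) <| an (Nat.ble (nat_lit 8) a) <| an (Nat.ble (nat_lit 8) b) <| an (Nat.ble (nat_lit 8) c) <|
  an (Nat.ble (nat_lit 8) d) <| an (dist x y) <| an (dist x a) <| an (dist x b) <| an (dist x c) <|
  an (dist x d) <| an (dist y a) <| an (dist y b) <| an (dist y c) <| an (dist y d) <|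
  an (dist a b) <| an (dist a c) <| an (dist a d) <| an (dist b c) <| an (dist b d) <|
  an (dist c d) <| matchToks (gpLits x y a b c d (bitb D 24) (bitb D 25) (bitb D 26)
    (bitb D 27)) d'

noncomputable def gpOKA (D d' : ℕ) : Bool :=
  gpOKA' (fld D 0) (fld D 4) (fld D 8) (fld D 12) (fld D 16) (fld D 20) D d'

/-- check of a parity clause with descriptor `D` -/
noncomputable def parOKA' (a b c d e D d' : ℕ) : Bool :=
  an (Nat.ble (nat_lit 8) a) <| an (Nat.ble (nat_lit 8) b) <| an (Nat.ble (nat_lit 8) c) <| an (Nat.ble (nat_lit 8) e) <|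
  an (dist a b) <| an (dist a c) <| an (dist b c) <| 
  an (dist e a) <| an (dist e b) <| an (dist e c) <| an (dist e d) <|
  matchToks (parLits a b c d e (bitb D 25) (bitb D 26) (bitb D 27)) d'

noncomputable def parOKA (D d' : ℕ) : Bool :=
  parOKA' (fld D 0) (fld D 4) (fld D 8) (Nat.xor (Nat.xor (fld D 0) (fld D 4)) (fld D 8))
    (fld D 12) D d'

theorem gpOKA_sound {P : ℕ → ℕ → ℕ → ℕ → SignType} (hP : GA P) {D d' : ℕ}
    (h : gpOKA D d' = true) : ClauseT (litT P) d' := by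
  have hx := fld_lt D 0
  have hy := fld_lt D 4
  have ha := fld_lt D 8
  have hb := fld_lt D 12
  have hc := fld_lt D 16
  have hd := fld_lt D 20
  unfold gpOKA at h
  generalize fld D 0 = x at h hx
  generalize fld D 4 = y at h hy
  generalize fld D 8 = a at h ha
  generalize fld D 12 = b at h hb
  generalize fld D 16 = c at h hc
  generalize fld D 20 = d at h hd
  generalize hs : bitb D 24 = s
  generalize hm0 : bitb D 25 = m0
  generalize hm1 : bitb D 26 = m1
  generalize hm2 : bitb D 27 = m2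
  unfold gpOKA' at h
  rw [hs, hm0, hm1, hm2] at h
  obtain ⟨g1, h⟩ := an_spec h
  obtain ⟨g2, h⟩ := an_spec h
  obtain ⟨g3, h⟩ := an_spec h
  obtain ⟨g4, h⟩ := an_spec h
  obtain ⟨g5, h⟩ := an_spec h
  obtain ⟨g6, h⟩ := an_spec h
  obtain ⟨g7, h⟩ := an_spec h
  obtain ⟨g8, h⟩ := an_spec h
  obtain ⟨g9, h⟩ := an_spec h
  obtain ⟨g10, h⟩ := an_spec h
  obtain ⟨g11, h⟩ := an_spec h
  obtain ⟨g12, h⟩ := an_spec h
  obtain ⟨g13, h⟩ := an_spec h
  obtain ⟨g14, h⟩ := an_spec h
  obtain ⟨g15, h⟩ := an_spec h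
  obtain ⟨g16, h⟩ := an_spec h
  obtain ⟨g17, h⟩ := an_spec h
  obtain ⟨g18, h⟩ := an_spec h
  obtain ⟨g19, h⟩ := an_spec h
  obtain ⟨g20, h⟩ := an_spec h
  obtain ⟨g21, h⟩ := an_spec h
  have xy := dist_spec g7
  have xa := dist_spec g8
  have xb := dist_spec g9
  have xc := dist_spec g10
  have xd := dist_spec g11
  have ya := dist_spec g12
  have yb := dist_spec g13
  have yc := dist_spec g14
  have yd := dist_spec g15
  have ab := dist_spec g16
  have ac := dist_spec g17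
  have ad := dist_spec g18
  have bc := dist_spec g19
  have bd := dist_spec g20
  have cd := dist_spec g21
  have px : 8 ≤ x := Nat.le_of_ble_eq_true g1
  have py : 8 ≤ y := Nat.le_of_ble_eq_true g2
  have pa : 8 ≤ a := Nat.le_of_ble_eq_true g3
  have pb : 8 ≤ b := Nat.le_of_ble_eq_true g4
  have pc : 8 ≤ c := Nat.le_of_ble_eq_true g5
  have pd : 8 ≤ d := Nat.le_of_ble_eq_true g6
  have htoks := matchToks_spec _ d' 100 (by simp [gpLits]) h
  by_contra hcon
  have hall : ∀ l ∈ gpLits x y a b c d s m0 m1 m2, ¬ litT P l := by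
    intro l hl hT
    exact hcon ⟨l, by rw [htoks]; exact hl, hT⟩
  have e1 := hall (enc x y a b (not m0)) (by simp [gpLits])
  have e2 := hall (enc x y c d (not (xor m0 s))) (by simp [gpLits])
  have e3 := hall (enc x y a c (not m1)) (by simp [gpLits])
  have e4 := hall (enc x y b d (xor m1 s)) (by simp [gpLits])
  have e5 := hall (enc x y a d (not m2)) (by simp [gpLits])
  have e6 := hall (enc x y b c (not (xor m2 s))) (by simp [gpLits])
  rw [enc_spec hP.toAlt4 xy xa ya xb yb ab hx hy ha hb] at e1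
  rw [enc_spec hP.toAlt4 xy xc yc xd yd cd hx hy hc hd] at e2
  rw [enc_spec hP.toAlt4 xy xa ya xc yc ac hx hy ha hc] at e3
  rw [enc_spec hP.toAlt4 xy xb yb xd yd bd hx hy hb hd] at e4
  rw [enc_spec hP.toAlt4 xy xa ya xd yd ad hx hy ha hd] at e5
  rw [enc_spec hP.toAlt4 xy xb yb xc yc bc hx hy hb hc] at e6
  have f1 := sg_of_ne (hP.nz x y a b px py pa pb hx hy ha hb xy xa xb ya yb ab) e1
  have f2 := sg_of_ne (hP.nz x y c d px py pc pd hx hy hc hd xy xc xd yc yd cd) e2
  have f3 := sg_of_ne (hP.nz x y a c px py pa pc hx hy ha hc xy xa xc ya yc ac) e3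
  have f4 := sg_of_ne (t := !(xor m1 s))
    (hP.nz x y b d px py pb pd hx hy hb hd xy xb xd yb yd bd) (by rw [Bool.not_not]; exact e4)
  have f5 := sg_of_ne (hP.nz x y a d px py pa pd hx hy ha hd xy xa xd ya yd ad) e5
  have f6 := sg_of_ne (hP.nz x y b c px py pb pc hx hy hb hc xy xb xc yb yc bc) e6
  apply hP.gp x y a b c d px py pa pb pc pd hx hy ha hb hc hd xy xa xb xc xd ya yb yc yd ab ac
    ad bc bd cd (sg s) (sg_ne_zero s)
  rw [f1, f2, f3, f4, f5, f6]
  refine ⟨?_, ?_, ?_⟩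
  · cases m0 <;> cases s <;> decide
  · cases m1 <;> cases s <;> decide
  · cases m2 <;> cases s <;> decide


lemma xor3_ge : ∀ a b c : Fin 16, 8 ≤ a.1 → 8 ≤ b.1 → 8 ≤ c.1 → 8 ≤ a.1 ^^^ b.1 ^^^ c.1 := by
  decide +kernel

theorem parOKA_sound {P : ℕ → ℕ → ℕ → ℕ → SignType} (hP : GA P) (hpar : ParA P) {D d' : ℕ}
    (h : parOKA D d' = true) : ClauseT (litT P) d' := by
  have ha := fld_lt D 0
  have hb := fld_lt D 4
  have hc := fld_lt D 8
  have he := fld_lt D 12
  unfold parOKA at h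
  generalize fld D 0 = a at h ha
  generalize fld D 4 = b at h hb
  generalize fld D 8 = c at h hc
  generalize fld D 12 = e at h he
  generalize hm0 : bitb D 25 = m0
  generalize hm1 : bitb D 26 = m1
  generalize hm2 : bitb D 27 = m2
  unfold parOKA' at h
  rw [hm0, hm1, hm2] at h
  obtain ⟨g1, h⟩ := an_spec h
  obtain ⟨g2, h⟩ := an_spec h
  obtain ⟨g3, h⟩ := an_spec h
  obtain ⟨g4, h⟩ := an_spec h
  obtain ⟨g5, h⟩ := an_spec h
  obtain ⟨g6, h⟩ := an_spec h
  obtain ⟨g7, h⟩ := an_spec h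
  obtain ⟨g9, h⟩ := an_spec h
  obtain ⟨g10, h⟩ := an_spec h
  obtain ⟨g11, h⟩ := an_spec h
  obtain ⟨g12, h⟩ := an_spec h
  have pa : 8 ≤ a := Nat.le_of_ble_eq_true g1
  have pb : 8 ≤ b := Nat.le_of_ble_eq_true g2
  have pc : 8 ≤ c := Nat.le_of_ble_eq_true g3
  have pe : 8 ≤ e := Nat.le_of_ble_eq_true g4
  have ab := dist_spec g5
  have ac := dist_spec g6
  have bc := dist_spec g7
  have ea := dist_spec g9
  have eb := dist_spec g10
  have ec := dist_spec g11
  have ed : e ≠ a ^^^ b ^^^ c := dist_spec g12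
  have hd' : Nat.xor (Nat.xor a b) c = a ^^^ b ^^^ c := rfl
  rw [hd'] at h
  generalize hdd : a ^^^ b ^^^ c = d at h ed
  have hd : d < 16 := by
    rw [← hdd]
    exact Nat.xor_lt_two_pow (n := 4) (Nat.xor_lt_two_pow (n := 4) ha hb) hc
  have da : d ≠ a := by rw [← hdd]; exact xor_ne_of_ne bc
  have db : d ≠ b := by
    rw [← hdd, Nat.xor_comm a b]; exact xor_ne_of_ne ac
  have dc : d ≠ c := by
    rw [← hdd, Nat.xor_comm _ c, ← Nat.xor_assoc]
    intro hh
    have := xor_ne_of_ne (a := c) ab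
    exact this hh
  have pd : 8 ≤ d := by
    rw [← hdd]
    have := xor3_ge ⟨a, ha⟩ ⟨b, hb⟩ ⟨c, hc⟩
    exact this pa pb pc
  have htoks := matchToks_spec _ d' 100 (by simp [parLits]) h
  by_contra hcon
  have hall : ∀ l ∈ parLits a b c d e m0 m1 m2, ¬ litT P l := by
    intro l hl hT
    exact hcon ⟨l, by rw [htoks]; exact hl, hT⟩
  have e1 := hall (enc b c d e (not m0)) (by simp [parLits])
  have e2 := hall (enc a c d e (not m1)) (by simp [parLits])
  have e3 := hall (enc a b d e (not m2)) (by simp [parLits])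
  have e4 := hall (enc a b c e (not (xor m0 (xor m1 m2)))) (by simp [parLits])
  rw [enc_spec hP.toAlt4 bc db.symm dc.symm eb.symm ec.symm ed.symm hb hc hd he] at e1
  rw [enc_spec hP.toAlt4 ac da.symm dc.symm ea.symm ec.symm ed.symm ha hc hd he] at e2
  rw [enc_spec hP.toAlt4 ab da.symm db.symm ea.symm eb.symm ed.symm ha hb hd he] at e3
  rw [enc_spec hP.toAlt4 ab ac bc ea.symm eb.symm ec.symm ha hb hc he] at e4
  have f1 := sg_of_ne (hP.nz b c d e pb pc pd pe hb hc hd he bc db.symm eb.symm dc.symm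
    ec.symm ed.symm) e1
  have f2 := sg_of_ne (hP.nz a c d e pa pc pd pe ha hc hd he ac da.symm ea.symm dc.symm
    ec.symm ed.symm) e2
  have f3 := sg_of_ne (hP.nz a b d e pa pb pd pe ha hb hd he ab da.symm ea.symm db.symm
    eb.symm ed.symm) e3
  have f4 := sg_of_ne (hP.nz a b c e pa pb pc pe ha hb hc he ab ac ea.symm bc
    eb.symm ec.symm) e4
  have hpar := hpar a b c e pa pb pc pe ha hb hc he ab ac bc ea eb ec
    (by rw [hdd]; exact ed)
  rw [hdd, f1, f2, f3, f4] at hpar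
  revert hpar
  cases m0 <;> cases m1 <;> cases m2 <;> decide


end Pool.Agent.OM247
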