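import Pool.Agent.OM247.RealA

/-!
Blocking clauses of the table `T1` for data on the affine points, and changes of coordinates.
-/

namespace Pool.Agent.OM247

/-- a packed quadruple of distinct points between `8` and `15` -/
def quadOKA (q : ℕ) : Bool :=
  an (dist (fld q 0) (fld q 4)) <| an (dist (fld q 0) (fld q 8)) <|
  an (dist (fld q 4) (fld q 8)) <| an (dist (fld q 0) (fld q 12)) <|
  an (dist (fld q 4) (fld q 12)) <| an (dist (fld q 8) (fld q 12)) <|
  an (Nat.ble 8 (fld q 0)) <| an (Nat.ble 8 (fld q 4)) <| an (Nat.ble 8 (fld q 8))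
    (Nat.ble 8 (fld q 12))

lemma quads_okA : ∀ q ∈ quads, quadOKA q = true := by decide +kernel

/-- affine points have affine images -/
noncomputable def affOK (c0 c1 c2 c3 : ℕ) (n : ℕ) : Bool :=
  @Nat.rec (fun _ => Bool) true
    (fun k ih => an (Nat.ble (nat_lit 8) (glin c0 c1 c2 c3 (Nat.add (nat_lit 8) k))) ih) n

lemma affOK_spec (c0 c1 c2 c3 : ℕ) : ∀ n, affOK c0 c1 c2 c3 n = true →
    ∀ x, 8 ≤ x → x < 8 + n → 8 ≤ glin c0 c1 c2 c3 x := by
  intro n
  induction n with
  | zero => intro _ x h1 h2; omega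
  | succ n ih =>
    intro h x h1 h2
    have hdef : affOK c0 c1 c2 c3 (n + 1) =
      an (Nat.ble 8 (glin c0 c1 c2 c3 (8 + n))) (affOK c0 c1 c2 c3 n) := rfl
    rw [hdef] at h
    obtain ⟨g1, g2⟩ := an_spec h
    by_cases hx : x = 8 + n
    · rw [hx]; exact Nat.le_of_ble_eq_true g1
    · exact ih g2 x h1 (by omega)

/-- check of a blocking clause with descriptor `D` -/
noncomputable def blockOKA (D d' : ℕ) : Bool :=
  an (nzOK (fld D 0) (fld D 4) (fld D 8) (fld D 12) (nat_lit 15)) <|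
  an (affOK (fld D 0) (fld D 4) (fld D 8) (fld D 12) (nat_lit 8)) <|
  an (Nat.ble (fld D 24) (nat_lit 6)) <|
  matchToks (blockLits (fld D 0) (fld D 4) (fld D 8) (fld D 12) (fld D 16) (bitb D 20) quads
    (rep (fld D 24))) d'

lemma blockLitsA_false {P : ℕ → ℕ → ℕ → ℕ → SignType} (hP : GA P) {c0 c1 c2 c3 w : ℕ}
    {s : Bool} (hlt : ∀ x, x < 16 → glin c0 c1 c2 c3 x < 16)
    (hinj : ∀ x y, x < 16 → y < 16 → x ≠ y → glin c0 c1 c2 c3 x ≠ glin c0 c1 c2 c3 y)
    (hnz : ∀ x, 8 ≤ x → x < 16 → 8 ≤ glin c0 c1 c2 c3 x) :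
    ∀ (qs : List ℕ) (R : ℕ), (∀ q ∈ qs, quadOKA q = true) →
      (∀ l ∈ blockLits c0 c1 c2 c3 w s qs R, ¬ litT P l) →
      Alt4 (trans c0 c1 c2 c3 w s P) → FInv (litT (trans c0 c1 c2 c3 w s P)) (seedF qs R) := by
  intro qs
  induction qs with
  | nil =>
    intro R _ _ _ l hl
    exfalso
    have : seedF [] R = 0 := rfl
    rw [this] at hl
    simp at hl
  | cons q qs ih =>
    intro R hq hall hT l hl
    have hdef : seedF (q :: qs) R = Nat.lor (Nat.shiftLeft 1
      (enc (fld q 0) (fld q 4) (fld q 8) (fld q 12) (not (bitb R 0))))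
        (seedF qs (Nat.shiftRight R 1)) := rfl
    have hdef2 : blockLits c0 c1 c2 c3 w s (q :: qs) R =
      enc (glin c0 c1 c2 c3 (fld q 0)) (glin c0 c1 c2 c3 (fld q 4))
        (glin c0 c1 c2 c3 (fld q 8)) (glin c0 c1 c2 c3 (fld q 12))
        (not (xor (bitb R 0) (xor s (par4 (Nat.land w
          (Nat.xor (Nat.xor (fld q 0) (fld q 4))
            (Nat.xor (fld q 8) (fld q 12)))))))) ::
      blockLits c0 c1 c2 c3 w s qs (Nat.shiftRight R 1) := rfl
    rw [hdef] at hl
    rw [hdef2] at hall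
    have hl' : (seedF qs (Nat.shiftRight R 1) ||| (1 <<< (enc (fld q 0) (fld q 4) (fld q 8)
        (fld q 12) (not (bitb R 0))))).testBit l = true := by
      rw [Nat.lor_comm]; exact hl
    rcases testBit_lor_shift _ _ _ hl' with h1 | h1
    · exact ih _ (fun q' hq' => hq q' (List.mem_cons_of_mem _ hq'))
        (fun l' hl' => hall l' (List.mem_cons_of_mem _ hl')) hT l h1
    · rw [h1]
      have hqq := hq q List.mem_cons_self
      unfold quadOKA at hqq
      obtain ⟨g1, hqq⟩ := an_spec hqq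
      obtain ⟨g2, hqq⟩ := an_spec hqq
      obtain ⟨g3, hqq⟩ := an_spec hqq
      obtain ⟨g4, hqq⟩ := an_spec hqq
      obtain ⟨g5, hqq⟩ := an_spec hqq
      obtain ⟨g6, hqq⟩ := an_spec hqq
      obtain ⟨g7, hqq⟩ := an_spec hqq
      obtain ⟨g8, hqq⟩ := an_spec hqq
      obtain ⟨g9, g10⟩ := an_spec hqq
      have ab := dist_spec g1
      have ac := dist_spec g2
      have bc := dist_spec g3
      have ad := dist_spec g4
      have bd := dist_spec g5
      have cd := dist_spec g6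
      have a0 : 8 ≤ fld q 0 := Nat.le_of_ble_eq_true g7
      have b0 : 8 ≤ fld q 4 := Nat.le_of_ble_eq_true g8
      have c0' : 8 ≤ fld q 8 := Nat.le_of_ble_eq_true g9
      have d0 : 8 ≤ fld q 12 := Nat.le_of_ble_eq_true g10
      have ha := fld_lt q 0
      have hb := fld_lt q 4
      have hc := fld_lt q 8
      have hd := fld_lt q 12
      rw [enc_spec hT ab ac bc ad bd cd ha hb hc hd]
      have h2 := hall _ List.mem_cons_self
      rw [enc_spec hP.toAlt4 (hinj _ _ ha hb ab) (hinj _ _ ha hc ac) (hinj _ _ hb hc bc)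
        (hinj _ _ ha hd ad) (hinj _ _ hb hd bd) (hinj _ _ hc hd cd) (hlt _ ha) (hlt _ hb)
        (hlt _ hc) (hlt _ hd)] at h2
      have hne : P (glin c0 c1 c2 c3 (fld q 0)) (glin c0 c1 c2 c3 (fld q 4))
        (glin c0 c1 c2 c3 (fld q 8)) (glin c0 c1 c2 c3 (fld q 12)) ≠ 0 := by
        apply hP.nz
        · exact hnz _ a0 ha
        · exact hnz _ b0 hb
        · exact hnz _ c0' hc
        · exact hnz _ d0 hd
        · exact hlt _ ha
        · exact hlt _ hb
        · exact hlt _ hc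
        · exact hlt _ hd
        · exact hinj _ _ ha hb ab
        · exact hinj _ _ ha hc ac
        · exact hinj _ _ ha hd ad
        · exact hinj _ _ hb hc bc
        · exact hinj _ _ hb hd bd
        · exact hinj _ _ hc hd cd
      have h3 := sg_of_ne hne h2
      unfold trans
      rw [h3, sg_mul]
      generalize par4 (Nat.land w (Nat.xor (Nat.xor (fld q 0) (fld q 4))
        (Nat.xor (fld q 8) (fld q 12)))) = t
      generalize bitb R 0 = r
      cases s <;> cases t <;> cases r <;> decide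


/-- the sign of a Boolean, as a real number -/
def sgR (s : Bool) : ℝ := if s then -1 else 1

/-- the character with mask `w`, as a real number -/
def chrR (w x : ℕ) : ℝ := sgR (par4 (Nat.land w x))

lemma sign_sgR (s : Bool) : SignType.sign (sgR s) = sg s := by
  cases s
  · show SignType.sign (1 : ℝ) = 1
    simp
  · show SignType.sign (-1 : ℝ) = -1
    simp

lemma sign_chrR (w x : ℕ) : SignType.sign (chrR w x) = chr w x := sign_sgR _

lemma sgR_ne (s : Bool) : sgR s ≠ 0 := by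
  cases s
  · show (1 : ℝ) ≠ 0
    norm_num
  · show (-1 : ℝ) ≠ 0
    norm_num

/-- change of coordinates and reorientation of a real function of four points -/
noncomputable def transD (c0 c1 c2 c3 w : ℕ) (s : Bool) (D : ℕ → ℕ → ℕ → ℕ → ℝ) :
    ℕ → ℕ → ℕ → ℕ → ℝ := fun a b c d =>
  sgR s * (chrR w a * chrR w b * (chrR w c * chrR w d)) *
    D (glin c0 c1 c2 c3 a) (glin c0 c1 c2 c3 b) (glin c0 c1 c2 c3 c) (glin c0 c1 c2 c3 d)

lemma sD_transD {w : ℕ} (hw : w < 16) (c0 c1 c2 c3 : ℕ) (s : Bool)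
    (D : ℕ → ℕ → ℕ → ℕ → ℝ) :
    sD (transD c0 c1 c2 c3 w s D) = trans c0 c1 c2 c3 w s (sD D) := by
  funext a b c d
  rw [trans_eq hw]
  unfold sD transD
  simp only [sign_mul, sign_sgR, sign_chrR]

lemma rd_transD {D : ℕ → ℕ → ℕ → ℕ → ℝ} (hD : RD D) {c0 c1 c2 c3 w : ℕ}
    (h0 : c0 < 16) (h1 : c1 < 16) (h2 : c2 < 16) (h3 : c3 < 16) (s : Bool)
    (hnz : ∀ x, 0 < x → x < 16 → glin c0 c1 c2 c3 x ≠ 0)
    (haff : ∀ x, 8 ≤ x → x < 16 → 8 ≤ glin c0 c1 c2 c3 x) :
    RD (transD c0 c1 c2 c3 w s D) := by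
  have hlt : ∀ x, glin c0 c1 c2 c3 x < 16 := glin_lt' h0 h1 h2 h3
  have hinj : ∀ {x y : ℕ}, x < 16 → y < 16 → x ≠ y → glin c0 c1 c2 c3 x ≠ glin c0 c1 c2 c3 y :=
    fun hx hy hxy => glin_inj' hnz hx hy hxy
  constructor
  · intro a b c d
    unfold transD
    rw [hD.s01]; ring
  · intro a b c d
    unfold transD
    rw [hD.s12]; ring
  · intro a b c d
    unfold transD
    rw [hD.s23]; ring
  · intro x y a b c d
    unfold transD
    have h := hD.gp (glin c0 c1 c2 c3 x) (glin c0 c1 c2 c3 y) (glin c0 c1 c2 c3 a)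
      (glin c0 c1 c2 c3 b) (glin c0 c1 c2 c3 c) (glin c0 c1 c2 c3 d)
    have e : ∀ k ex ey ea eb ec ed p p' q q' r r' : ℝ,
        k * (ex * ey * (ea * eb)) * p * (k * (ex * ey * (ec * ed)) * p') -
        k * (ex * ey * (ea * ec)) * q * (k * (ex * ey * (eb * ed)) * q') +
        k * (ex * ey * (ea * ed)) * r * (k * (ex * ey * (eb * ec)) * r') =
        (k ^ 2 * ex ^ 2 * ey ^ 2 * ea * eb * ec * ed) * (p * p' - q * q' + r * r') := by
      intros; ring
    rw [e, h, mul_zero]
  · intro a b c d ha hb hc hd ha' hb' hc' hd' ab ac ad bc bd cd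
    unfold transD
    refine mul_ne_zero (mul_ne_zero (sgR_ne _) (mul_ne_zero (mul_ne_zero (sgR_ne _) (sgR_ne _))
      (mul_ne_zero (sgR_ne _) (sgR_ne _)))) ?_
    exact hD.nz _ _ _ _ (haff _ ha ha') (haff _ hb hb') (haff _ hc hc') (haff _ hd hd') (hlt _)
      (hlt _) (hlt _) (hlt _) (hinj ha' hb' ab) (hinj ha' hc' ac) (hinj ha' hd' ad)
      (hinj hb' hc' bc) (hinj hb' hd' bd) (hinj hc' hd' cd)

lemma blockLits_length' (c0 c1 c2 c3 w : ℕ) (s : Bool) : ∀ (qs : List ℕ) (R : ℕ),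
    (blockLits c0 c1 c2 c3 w s qs R).length = qs.length := by
  intro qs
  induction qs with
  | nil => intro R; rfl
  | cons q qs ih =>
    intro R
    have h : blockLits c0 c1 c2 c3 w s (q :: qs) R =
      enc (glin c0 c1 c2 c3 (fld q 0)) (glin c0 c1 c2 c3 (fld q 4))
        (glin c0 c1 c2 c3 (fld q 8)) (glin c0 c1 c2 c3 (fld q 12))
        (not (xor (bitb R 0) (xor s (par4 (Nat.land w
          (Nat.xor (Nat.xor (fld q 0) (fld q 4))
            (Nat.xor (fld q 8) (fld q 12)))))))) ::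
      blockLits c0 c1 c2 c3 w s qs (Nat.shiftRight R 1) := rfl
    rw [h, List.length_cons, List.length_cons, ih]

lemma quads_length' : quads.length = 70 := by decide +kernel

theorem blockOKA_sound {D : ℕ → ℕ → ℕ → ℕ → ℝ} (hD : RD D)
    (H : ∀ D', RD D' → ∀ j, j ≤ 6 → ¬ FInv (litT (sD D')) (seedF quads (rep j))) {d d' : ℕ}
    (h : blockOKA d d' = true) : ClauseT (litT (sD D)) d' := by
  unfold blockOKA at h
  obtain ⟨g1, h⟩ := an_spec h
  obtain ⟨g3, h⟩ := an_spec h
  obtain ⟨g2, h⟩ := an_spec h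
  have hnz : ∀ x, 0 < x → x < 16 → glin (fld d 0) (fld d 4) (fld d 8) (fld d 12) x ≠ 0 :=
    fun x h1 h2 => nzOK_spec _ _ _ _ 15 g1 x h1 (by omega)
  have haff : ∀ x, 8 ≤ x → x < 16 → 8 ≤ glin (fld d 0) (fld d 4) (fld d 8) (fld d 12) x :=
    fun x h1 h2 => affOK_spec _ _ _ _ 8 g3 x h1 (by omega)
  have hR := rd_transD hD (w := fld d 16) (fld_lt d 0) (fld_lt d 4) (fld_lt d 8) (fld_lt d 12)
    (bitb d 20) hnz haff
  by_contra hcon
  apply H _ hR (fld d 24) (Nat.le_of_ble_eq_true g2)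
  rw [sD_transD (fld_lt d 16)]
  have hG := sD_ga hR
  rw [sD_transD (fld_lt d 16)] at hG
  apply blockLitsA_false (sD_ga hD) (fun x _ => glin_lt' (fld_lt d 0) (fld_lt d 4) (fld_lt d 8)
    (fld_lt d 12) x) (fun x y hx hy hxy => glin_inj' hnz hx hy hxy) haff quads _ quads_okA ?_
    hG.toAlt4
  intro l hl hT
  apply hcon
  refine ⟨l, ?_, hT⟩
  rw [matchToks_spec _ d' 100 (by rw [blockLits_length', quads_length']; decide) h]
  exact hl

/-- check of an input clause of the classification, on the affine points -/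
noncomputable def origOKA (D d' : ℕ) : Bool :=
  @Bool.rec (fun _ => Bool) (@Bool.rec (fun _ => Bool) (gpOKA D d') (parOKA D d')
    (bitb D (nat_lit 28))) (blockOKA D d') (bitb D (nat_lit 29))

theorem origOKA_sound {D : ℕ → ℕ → ℕ → ℕ → ℝ} (hD : RD D) (hpar : ParA (sD D))
    (H : ∀ D', RD D' → ∀ j, j ≤ 6 → ¬ FInv (litT (sD D')) (seedF quads (rep j))) {d d' : ℕ}
    (h : origOKA d d' = true) : ClauseT (litT (sD D)) d' := by
  unfold origOKA at h
  cases hb : bitb d 29
  · rw [hb] at h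
    cases hc : bitb d 28
    · rw [hc] at h
      exact gpOKA_sound (sD_ga hD) h
    · rw [hc] at h
      exact parOKA_sound (sD_ga hD) hpar h
  · rw [hb] at h
    exact blockOKA_sound hD H h

/-- check the input clauses `lo, ..., lo + cnt - 1` -/
noncomputable def okOrigA (t dt : Tr) (lo cnt : ℕ) : Bool :=
  @Nat.rec (fun _ => Bool) true
    (fun k ih => @Bool.rec (fun _ => Bool) false ih
      (origOKA (dt.get (Nat.add lo k)) (t.get (Nat.add lo k)))) cnt

lemma okOrigA_spec (t dt : Tr) (lo : ℕ) : ∀ cnt, okOrigA t dt lo cnt = true →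
    ∀ i, lo ≤ i → i < lo + cnt → origOKA (dt.get i) (t.get i) = true := by
  intro cnt
  induction cnt with
  | zero => intro _ i h1 h2; omega
  | succ k ih =>
    intro h i h1 h2
    have hdef : okOrigA t dt lo (k + 1) =
      @Bool.rec (fun _ => Bool) false (okOrigA t dt lo k)
        (origOKA (dt.get (lo + k)) (t.get (lo + k))) := rfl
    rw [hdef] at h
    by_cases h3 : origOKA (dt.get (lo + k)) (t.get (lo + k)) = true
    · rw [h3] at h
      by_cases h4 : i = lo + k
      · rw [h4]; exact h3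
      · exact ih h i h1 (by omega)
    · rw [Bool.not_eq_true] at h3
      rw [h3] at h
      exact absurd h (by show ¬ (false = true); decide)

end Pool.Agent.OM247
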