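import Pool.Agent.OM247.Realize

/-!
Explicit sign representations of the Sylvester Hadamard matrices of orders 2, 4, 8, 16 in
dimensions 2, 3, 5, 7, and the resulting upper bound for the completion rank, for all orders.
-/

namespace Pool.Agent.OM247

open Realize

/-- Number of a point. -/
def pcd {n : ℕ} (x : Fin n → ZMod 2) : ℕ := ((finFunctionFinEquiv (m := 2) x : Fin (2 ^ n)) : ℕ)

/-- Table lookup. -/
def tv (r : ℕ) (L : List (List ℤ)) (k : ℕ) (i : Fin r) : ℤ := (L.getD k []).getD i 0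

/-- The point with a given number. -/
def pdec (n : ℕ) (k : ℕ) : Fin n → ZMod 2 := fun i => if k.testBit i then 1 else 0

theorem sRep_of_tables {n r : ℕ} (V P : List (List ℤ)) (W : List ℕ) (B : List (List ℤ)) (d : ℤ)
    (hd : d ≠ 0)
    (h1 : ∀ a x : Fin n → ZMod 2,
      (if hadRow n a x = 1 then 0 < ∑ i, tv r V (pcd x) i * tv r P (pcd a) i
        else ∑ i, tv r V (pcd x) i * tv r P (pcd a) i < 0))
    (h2 : ∀ i j : Fin r, ∑ k, tv r V (pcd (pdec n (W.getD i 0))) k * tv r B k j =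
      if i = j then d else 0) :
    SRep n r := by
  refine ⟨fun x => tv r V (pcd x), fun x => tv r P (pcd x), ?_, fun i => pdec n (W.getD i 0), ?_⟩
  · intro a x
    have := h1 a x
    by_cases h : hadRow n a x = 1
    · rw [if_pos h] at this
      rw [sign_pos this, h]
    · rw [if_neg h] at this
      rw [sign_neg this]
      unfold hadRow at h ⊢
      split_ifs at h ⊢ with h'
      · exact absurd rfl h
      · rfl
  · intro h0
    have h3 : cfg (fun x => tv r V (pcd x)) (fun i : Fin r => pdec n (W.getD i 0)) *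
        (Matrix.of fun (k j : Fin r) => tv r B k j) = d • (1 : Matrix (Fin r) (Fin r) ℤ) := by
      ext i j
      rw [Matrix.mul_apply, Matrix.smul_apply, Matrix.one_apply]
      simp only [cfg, Matrix.of_apply]
      rw [h2]
      split_ifs <;> simp
    have h4 := congrArg Matrix.det h3
    rw [Matrix.det_mul, h0, zero_mul, Matrix.det_smul, Matrix.det_one, mul_one] at h4
    exact pow_ne_zero _ hd h4.symm

theorem sRep_1 : SRep 1 2 :=
  sRep_of_tables
    [[1, 0], [0, 1]]
    [[1, 1], [1, -1]]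
    [0, 1]
    [[1, 0], [0, 1]]
    1 (by decide) (by decide +kernel) (by decide +kernel)

theorem sRep_2 : SRep 2 3 :=
  sRep_of_tables
    [[-2, -2, 2], [2, -2, -2], [-2, -2, -2], [-2, 2, -2]]
    [[-2, -2, -2], [-2, -2, 2], [2, -2, 2], [-2, 2, 2]]
    [0, 1, 2]
    [[0, 1, -1], [-1, -1, 0], [1, 0, -1]]
    4 (by decide) (by decide +kernel) (by decide +kernel)

theorem sRep_3 : SRep 3 5 :=
  sRep_of_tables
    [[4, 3, 3, 0, 3], [0, -2, -6, -1, 3], [-4, 0, 4, -3, 3], [1, 2, 1, 6, 4], [-4, 1, -3, 3, 4], [-3, 5, 0, 3, -3], [-4, -4, 3, 3, -2], [3, -4, 3, 3, 2]]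
    [[-3, 1, 0, 4, 5], [-4, 0, 4, -3, 3], [1, 5, -4, -3, 1], [3, 1, 2, 4, 4], [4, 4, 0, -3, 4], [3, 2, 5, -1, -2], [4, -5, 1, -1, 0], [0, 4, 3, 3, -4]]
    [0, 1, 2, 3, 4]
    [[136, 189, -93, 144, -318], [642, -471, -379, -692, 848], [-128, -75, 259, 276, -318], [-270, -58, -64, 400, -106], [82, 294, 244, 224, -106]]
    2332 (by decide) (by decide +kernel) (by decide +kernel)

theorem sRep_4 : SRep 4 7 :=
  sRep_of_tables
    [[-9, -3, -6, -10, -12, -9, -11], [11, 12, 9, -3, 2, -10, -10], [-10, 8, -10, 8, -10, 7, -10], [-9, 9, -10, -4, 11, -11, 7], [13, 3, -11, 7, -12, -5, 7], [-2, 11, 9, 4, 11, -11, -12], [-6, 12, 12, 3, -5, 5, 14], [-6, 1, 11, 10, -10, -10, 10], [12, 6, 11, 11, 3, 4, -12], [1, 2, -4, -14, 9, -11, 14], [-2, 15, -14, -3, 5, 11, -4], [13, -11, -3, -12, 2, 10, -4], [11, 12, -3, -9, -12, -9, -2], [3, 5, 9, -12, -12, 12, 5], [-11, -11, 1, -11, -6, -9, -10], [9, -9, -12, 11, 0, -12, -2]]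
    [[11, 12, -3, -9, -12, -9, -2], [-10, 8, -10, 8, -10, 7, -10], [11, 12, 9, -3, 2, -10, -10], [9, -9, -12, 11, 0, -12, -2], [6, -1, -11, -10, 10, 10, -10], [-1, -2, 4, 14, -9, 11, -14], [2, -15, 14, 3, -5, -11, 4], [-13, -3, 11, -7, 12, 5, -7], [-13, 11, 3, 12, -2, -10, 4], [2, -11, -9, -4, -11, 11, 12], [6, -12, -12, -3, 5, -5, -14], [-12, -6, -11, -11, -3, -4, 12], [-9, -3, -6, -10, -12, -9, -11], [-11, -11, 1, -11, -6, -9, -10], [3, 5, 9, -12, -12, 12, 5], [-9, 9, -10, -4, 11, -11, 7]]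
    [0, 1, 2, 3, 4, 5, 6]
    [[-30936099, 55236085, -3798852, -5688628, 12892115, -38463150, -24136212], [-22210777, 72882250, 44275014, 37041026, -14673925, -41380075, 19580249], [15834128, -14365190, -32552851, -40128649, -7055095, 39105550, 36039129], [-12936431, -88272070, -570833, -36774837, 57620830, 102965390, 4209497], [-43150491, 5240090, -1229718, 28594313, -29212960, 777810, -30063388], [-47832818, 49874880, 49111271, 818444, -53317220, -79619210, -8874184], [-3348277, -23510425, -29532251, 18008826, 20411410, -7885405, 30980339]]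
    1364549065 (by decide) (by decide +kernel) (by decide +kernel)

theorem sRep_0 : SRep 0 1 :=
  sRep_of_tables [[1]] [[1]] [0] [[1]] 1 (by decide) (by decide +kernel) (by decide +kernel)

theorem sRep_four_mul : ∀ q : ℕ, SRep (4 * q) (7 ^ q)
  | 0 => sRep_0
  | q + 1 => by
    have h := (sRep_four_mul q).mul sRep_4
    rw [pow_succ]
    exact h

/-- The dimensions 1, 2, 3, 5. -/
def smallRank : ℕ → ℕ
  | 0 => 1
  | 1 => 2
  | 2 => 3
  | _ => 5

theorem sRep_all (n : ℕ) : SRep n (7 ^ (n / 4) * smallRank (n % 4)) := by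
  have h1 := sRep_four_mul (n / 4)
  have h2 : SRep (n % 4) (smallRank (n % 4)) := by
    have h3 : n % 4 < 4 := Nat.mod_lt _ (by norm_num)
    generalize n % 4 = m at h3
    interval_cases m
    · exact sRep_0
    · exact sRep_1
    · exact sRep_2
    · exact sRep_3
  have h4 := h1.mul h2
  rw [Nat.div_add_mod] at h4
  exact h4

theorem completes_upper (n : ℕ) : Completes n (7 ^ (n / 4) * smallRank (n % 4)) :=
  (sRep_all n).completes

end Pool.Agent.OM247
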