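import Pool.Agent.OM247.SignRep
import Pool.Agent.OM247.Upper

namespace Pool.Agent.OM247

theorem signRep_of_sRep {n r : ℕ} (h : SRep n r) : SignRep n r := by
  obtain ⟨v, p, h1, _⟩ := h
  refine ⟨fun x i => (v x i : ℝ), fun a i => (p a i : ℝ), fun a x => ?_⟩
  rw [← h1 a x]
  have h2 : (∑ i, (v x i : ℝ) * (p a i : ℝ)) = ((∑ i, v x i * p a i : ℤ) : ℝ) := by
    push_cast; rfl
  rw [h2]
  rcases lt_trichotomy (∑ i, v x i * p a i) 0 with h3 | h3 | h3
  · rw [sign_neg h3, sign_neg (by exact_mod_cast h3)]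
  · rw [h3]; simp
  · rw [sign_pos h3, sign_pos (by exact_mod_cast h3)]

theorem signRep_three_five : SignRep 3 5 := signRep_of_sRep sRep_3

end Pool.Agent.OM247
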