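import Pool.Agent.OM247.RealGP
import Pool.Agent.OM247.SignRep

/-!
From a sign representation of the Sylvester matrix of order 8 in real dimension at most 4 to
abstract determinants on the points `8, ..., 15` with the parity condition.
-/

namespace Pool.Agent.OM247

/-- the point of `F_2^3` given by the last three bits -/
def q3 (a : ℕ) : Fin 3 → ZMod 2 := fun i => if a.testBit i then 1 else 0

/-- parity of the common bits of `u < 8` and `a` -/
def hb3 (u a : ℕ) : Bool := Nat.testBit 27030 (u &&& a)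

/-- sign of a Boolean, `true` for negative -/
def sb (t : Bool) : SignType := if t then -1 else 1

lemma sb_ne (t : Bool) : sb t ≠ 0 := by cases t <;> decide

lemma sb_mul (s t : Bool) : sb s * sb t = sb (xor s t) := by cases s <;> cases t <;> decide

lemma sb_neg (t : Bool) : -sb t = sb (!t) := by cases t <;> decide

lemma exists_sb {v : SignType} (h : v ≠ 0) : ∃ t : Bool, v = sb t := by
  cases v
  · exact absurd rfl h
  · exact ⟨true, rfl⟩
  · exact ⟨false, rfl⟩

lemma hb3_spec : ∀ (u : Fin 8) (a : Fin 16), hadRow 3 (q3 u) (q3 a) = sb (hb3 u a) := by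
  decide +kernel

lemma q3_inj : ∀ a b : Fin 16, 8 ≤ a.val → 8 ≤ b.val → a ≠ b → q3 a ≠ q3 b := by
  decide +kernel

lemma xor_range : ∀ a b c : Fin 16, 8 ≤ a.val → 8 ≤ b.val → 8 ≤ c.val → a ≠ b → a ≠ c →
    b ≠ c → 8 ≤ a.val ^^^ b.val ^^^ c.val ∧ a.val ^^^ b.val ^^^ c.val < 16 ∧
      a.val ^^^ b.val ^^^ c.val ≠ a.val ∧ a.val ^^^ b.val ^^^ c.val ≠ b.val ∧
      a.val ^^^ b.val ^^^ c.val ≠ c.val := by
  decide +kernel

lemma affine_check : ∀ a b c e : Fin 16, 8 ≤ a.val → 8 ≤ b.val → 8 ≤ c.val → 8 ≤ e.val →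
    a ≠ b → a ≠ c → b ≠ c → e ≠ a → e ≠ b → e ≠ c → e.val ≠ a.val ^^^ b.val ^^^ c.val →
    ∀ sa sb' sc se : Bool, ∃ (t : Bool) (u : Fin 8), xor t (hb3 u a) = sa ∧
      xor t (hb3 u b) = sb' ∧ xor t (hb3 u c) = sc ∧ xor t (hb3 u e) = se ∧
      xor t (hb3 u (a.val ^^^ b.val ^^^ c.val)) = xor (xor sa sb') sc := by
  decide +kernel

lemma five_same {T1 T2 T3 T4 T5 : ℝ} {s : SignType} (hs : s ≠ 0) (h1 : SignType.sign T1 = s)
    (h2 : SignType.sign T2 = s) (h3 : SignType.sign T3 = s) (h4 : SignType.sign T4 = s)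
    (h5 : SignType.sign T5 = s) : T1 + T2 + T3 + T4 + T5 ≠ 0 := by
  rcases lt_or_gt_of_ne hs with h | h
  · have hneg : s = -1 := by revert h; cases s <;> decide
    subst hneg
    rw [sign_eq_neg_one_iff] at h1 h2 h3 h4 h5
    linarith
  · have hpos : s = 1 := by revert h; cases s <;> decide
    subst hpos
    rw [sign_eq_one_iff] at h1 h2 h3 h4 h5
    linarith

/-- padding a sign representation to dimension 4 -/
lemma pad_four {n r : ℕ} (hr : r ≤ 4) (h : SignRep n r) : SignRep n 4 := by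
  obtain ⟨v, p, hvp⟩ := h
  refine ⟨fun x i => if hi : i.val < r then v x ⟨i, hi⟩ else 0,
    fun a i => if hi : i.val < r then p a ⟨i, hi⟩ else 0, ?_⟩
  intro a x
  rw [← hvp a x]
  congr 1
  refine (Fintype.sum_of_injective (Fin.castLE hr) (Fin.castLE_injective hr) _ _ ?_ ?_).symm
  · intro i hi
    have : ¬ i.val < r := by
      intro hlt
      exact hi ⟨⟨i.val, hlt⟩, by ext; simp⟩
    simp [this]
  · intro i
    simp

theorem rd_of_signRep {r : ℕ} (hr : r ≤ 4) (h : SignRep 3 r) :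
    ∃ D : ℕ → ℕ → ℕ → ℕ → ℝ, RD D ∧ ParA (fun a b c d => SignType.sign (D a b c d)) := by
  obtain ⟨v, p, hvp⟩ := pad_four hr h
  have hne : ∀ x a, ∑ i, v x i * p a i ≠ 0 := by
    intro x a h0
    have h1 := hvp a x
    rw [h0, sign_zero] at h1
    have h2 : hadRow 3 a x ≠ 0 := by
      unfold hadRow
      split_ifs <;> decide
    exact h2 h1.symm
  obtain ⟨v', hv', hgen⟩ := exists_generic v p hne
  let D : ℕ → ℕ → ℕ → ℕ → ℝ := fun a b c d =>
    det4 (v' (q3 a)) (v' (q3 b)) (v' (q3 c)) (v' (q3 d))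
  have hq : ∀ a b : ℕ, 8 ≤ a → a < 16 → 8 ≤ b → b < 16 → a ≠ b → q3 a ≠ q3 b := by
    intro a b ha ha' hb hb' hab
    exact q3_inj ⟨a, ha'⟩ ⟨b, hb'⟩ ha hb (fun h => hab (congrArg Fin.val h))
  have hRD : RD D := by
    refine
      { s01 := fun a b c d => det4_s01 _ _ _ _
        s12 := fun a b c d => det4_s12 _ _ _ _
        s23 := fun a b c d => det4_s23 _ _ _ _
        gp := fun x y a b c d => det4_gp _ _ _ _ _ _
        nz := ?_ }
    intro a b c d ha hb hc hd ha' hb' hc' hd' ab ac ad bc bd cd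
    exact hgen _ _ _ _ (hq a b ha ha' hb hb' ab) (hq a c ha ha' hc hc' ac)
      (hq a d ha ha' hd hd' ad) (hq b c hb hb' hc hc' bc) (hq b d hb hb' hd hd' bd)
      (hq c d hc hc' hd hd' cd)
  refine ⟨D, hRD, ?_⟩
  intro a b c e ha hb hc he ha' hb' hc' he' ab ac bc ea eb ec ed
  obtain ⟨d8, d16, da, db, dc⟩ := xor_range ⟨a, ha'⟩ ⟨b, hb'⟩ ⟨c, hc'⟩ ha hb hc
    (fun h => ab (congrArg Fin.val h)) (fun h => ac (congrArg Fin.val h))
    (fun h => bc (congrArg Fin.val h))
  have hchk := affine_check ⟨a, ha'⟩ ⟨b, hb'⟩ ⟨c, hc'⟩ ⟨e, he'⟩ ha hb hc he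
    (fun h => ab (congrArg Fin.val h)) (fun h => ac (congrArg Fin.val h))
    (fun h => bc (congrArg Fin.val h)) (fun h => ea (congrArg Fin.val h))
    (fun h => eb (congrArg Fin.val h)) (fun h => ec (congrArg Fin.val h)) ed
  simp only at d8 d16 da db dc hchk
  generalize hd : a ^^^ b ^^^ c = d at *
  have n1 := hRD.nz b c d e hb hc d8 he hb' hc' d16 he' bc db.symm eb.symm dc.symm ec.symm
    ed.symm
  have n2 := hRD.nz a c d e ha hc d8 he ha' hc' d16 he' ac da.symm ea.symm dc.symm ec.symm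
    ed.symm
  have n3 := hRD.nz a b d e ha hb d8 he ha' hb' d16 he' ab da.symm ea.symm db.symm eb.symm
    ed.symm
  have n4 := hRD.nz a b c e ha hb hc he ha' hb' hc' he' ab ac ea.symm bc eb.symm ec.symm
  have n5 := hRD.nz a b c d ha hb hc d8 ha' hb' hc' d16 ab ac da.symm bc db.symm dc.symm
  obtain ⟨x1, hx1⟩ := exists_sb (sign_ne_zero.mpr n1)
  obtain ⟨x2, hx2⟩ := exists_sb (sign_ne_zero.mpr n2)
  obtain ⟨x3, hx3⟩ := exists_sb (sign_ne_zero.mpr n3)
  obtain ⟨x4, hx4⟩ := exists_sb (sign_ne_zero.mpr n4)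
  obtain ⟨x5, hx5⟩ := exists_sb (sign_ne_zero.mpr n5)
  by_contra hcon
  have hprod : xor (xor x1 x2) (xor x3 x4) = false := by
    by_contra h1
    apply hcon
    show SignType.sign (D b c d e) * SignType.sign (D a c d e) * SignType.sign (D a b d e) *
      SignType.sign (D a b c e) = -1
    rw [hx1, hx2, hx3, hx4]
    revert h1
    cases x1 <;> cases x2 <;> cases x3 <;> cases x4 <;> decide
  obtain ⟨t, u, e1, e2, e3, e5, e4⟩ := hchk x1 (!x2) x3 x5
  have hs : ∀ y : ℕ, y < 16 →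
      SignType.sign (∑ i, v' (q3 y) i * p (q3 u.val) i) = sb (hb3 u y) := by
    intro y hy
    rw [hv', hvp, ← hb3_spec u ⟨y, hy⟩]
  have cr : ∀ i : Fin 4, D b c d e * v' (q3 a) i - D a c d e * v' (q3 b) i
      + D a b d e * v' (q3 c) i - D a b c e * v' (q3 d) i + D a b c d * v' (q3 e) i = 0 :=
    fun i => det4_cramer _ _ _ _ _ i
  have hsum : D b c d e * (∑ i, v' (q3 a) i * p (q3 u.val) i)
      + -(D a c d e * (∑ i, v' (q3 b) i * p (q3 u.val) i))
      + D a b d e * (∑ i, v' (q3 c) i * p (q3 u.val) i)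
      + -(D a b c e * (∑ i, v' (q3 d) i * p (q3 u.val) i))
      + D a b c d * (∑ i, v' (q3 e) i * p (q3 u.val) i) = 0 := by
    simp only [Fin.sum_univ_four]
    linear_combination (p (q3 u.val) 0) * cr 0 + (p (q3 u.val) 1) * cr 1
      + (p (q3 u.val) 2) * cr 2 + (p (q3 u.val) 3) * cr 3
  refine five_same (sb_ne t) ?_ ?_ ?_ ?_ ?_ hsum
  · rw [sign_mul, hx1, hs a ha', sb_mul]
    congr 1
    revert e1; cases t <;> cases x1 <;> cases hb3 u a <;> decide
  · rw [Left.sign_neg, sign_mul, hx2, hs b hb', sb_mul, sb_neg]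
    congr 1
    revert e2; cases t <;> cases x2 <;> cases hb3 u b <;> decide
  · rw [sign_mul, hx3, hs c hc', sb_mul]
    congr 1
    revert e3; cases t <;> cases x3 <;> cases hb3 u c <;> decide
  · rw [Left.sign_neg, sign_mul, hx4, hs d d16, sb_mul, sb_neg]
    congr 1
    revert e4 hprod
    cases t <;> cases x1 <;> cases x2 <;> cases x3 <;> cases x4 <;> cases hb3 u d <;> decide
  · rw [sign_mul, hx5, hs e he', sb_mul]
    congr 1
    revert e5; cases t <;> cases x5 <;> cases hb3 u e <;> decide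

end Pool.Agent.OM247
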