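import Mathlib
import Pool.Agent.OM247.Defs

/-!
Determinants of four vectors in real 4-space: alternation, the three term Grassmann Plücker
relation, Cramer's rule, and genericity.
-/

namespace Pool.Agent.OM247

open Matrix Polynomial

/-- determinant of four vectors -/
noncomputable def det4 (a b c d : Fin 4 → ℝ) : ℝ := Matrix.det (Matrix.of ![a, b, c, d])

lemma det4_eq (a b c d : Fin 4 → ℝ) :
    det4 a b c d =
      a 0 * (b 1 * c 2 * d 3 - b 1 * c 3 * d 2 - b 2 * c 1 * d 3 + b 2 * c 3 * d 1
        + b 3 * c 1 * d 2 - b 3 * c 2 * d 1)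
      - a 1 * (b 0 * c 2 * d 3 - b 0 * c 3 * d 2 - b 2 * c 0 * d 3 + b 2 * c 3 * d 0
        + b 3 * c 0 * d 2 - b 3 * c 2 * d 0)
      + a 2 * (b 0 * c 1 * d 3 - b 0 * c 3 * d 1 - b 1 * c 0 * d 3 + b 1 * c 3 * d 0
        + b 3 * c 0 * d 1 - b 3 * c 1 * d 0)
      - a 3 * (b 0 * c 1 * d 2 - b 0 * c 2 * d 1 - b 1 * c 0 * d 2 + b 1 * c 2 * d 0
        + b 2 * c 0 * d 1 - b 2 * c 1 * d 0) := by
  unfold det4
  rw [Matrix.det_succ_row_zero]
  simp only [Fin.sum_univ_four, Matrix.det_fin_three, Matrix.submatrix_apply, Matrix.of_apply]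
  simp [Fin.succAbove, Fin.lt_def]
  ring

lemma det4_s01 (a b c d : Fin 4 → ℝ) : det4 b a c d = - det4 a b c d := by
  simp only [det4_eq]; ring

lemma det4_s12 (a b c d : Fin 4 → ℝ) : det4 a c b d = - det4 a b c d := by
  simp only [det4_eq]; ring

lemma det4_s23 (a b c d : Fin 4 → ℝ) : det4 a b d c = - det4 a b c d := by
  simp only [det4_eq]; ring

/-- three term Grassmann Plücker relation -/
theorem det4_gp (t u a b c d : Fin 4 → ℝ) :
    det4 t u a b * det4 t u c d - det4 t u a c * det4 t u b d
      + det4 t u a d * det4 t u b c = 0 := by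
  simp only [det4_eq]; ring

/-- Cramer's rule -/
theorem det4_cramer (a b c d e : Fin 4 → ℝ) (i : Fin 4) :
    det4 b c d e * a i - det4 a c d e * b i + det4 a b d e * c i - det4 a b c e * d i
      + det4 a b c d * e i = 0 := by
  fin_cases i
  · simp only [Fin.zero_eta, det4_eq]; ring
  · simp only [Fin.mk_one, det4_eq]; ring
  · simp only [Fin.reduceFinMk, det4_eq]; ring
  · simp only [Fin.reduceFinMk, det4_eq]; ring

lemma sign_eventually (s t : ℝ) (hs : s ≠ 0) :
    ∀ᶠ δ : ℝ in Filter.atTop, SignType.sign (δ * s + t) = SignType.sign s := by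
  filter_upwards [Filter.eventually_gt_atTop (|t| / |s|), Filter.eventually_gt_atTop 0]
    with δ hδ h0
  have hs' : 0 < |s| := abs_pos.mpr hs
  have h1 : |t| < δ * |s| := by
    rw [div_lt_iff₀ hs'] at hδ; exact hδ
  rcases lt_or_gt_of_ne hs with h | h
  · rw [sign_neg h]
    have h2 : δ * s + t < 0 := by
      rw [abs_of_neg h] at h1
      have := le_abs_self t
      linarith
    exact sign_neg h2
  · rw [sign_pos h]
    have h2 : 0 < δ * s + t := by
      rw [abs_of_pos h] at h1
      have := neg_abs_le t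
      linarith
    exact sign_pos h2

/-- Vectors can be moved into general position without changing the signs of nonzero scalar
products with finitely many given vectors. -/
theorem exists_generic {E A : Type} [Finite E] [Finite A] (v : E → Fin 4 → ℝ)
    (p : A → Fin 4 → ℝ) (h : ∀ x a, ∑ i, v x i * p a i ≠ 0) :
    ∃ v' : E → Fin 4 → ℝ,
      (∀ x a, SignType.sign (∑ i, v' x i * p a i) = SignType.sign (∑ i, v x i * p a i)) ∧
      ∀ a b c d : E, a ≠ b → a ≠ c → a ≠ d → b ≠ c → b ≠ d → c ≠ d →
        det4 (v' a) (v' b) (v' c) (v' d) ≠ 0 := by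
  classical
  have := Fintype.ofFinite E
  have := Fintype.ofFinite A
  let τ : E → ℝ := fun x => ((Fintype.equivFin E x).val : ℝ)
  have hτ : Function.Injective τ := by
    intro x y hxy
    have h0 : (((Fintype.equivFin E x).val : ℕ) : ℝ) = ((Fintype.equivFin E y).val : ℕ) := hxy
    have h1 : (Fintype.equivFin E x).val = (Fintype.equivFin E y).val := Nat.cast_injective h0
    exact (Fintype.equivFin E).injective (Fin.ext h1)
  let m : E → Fin 4 → ℝ := fun x i => τ x ^ (i : ℕ)
  let M : (Fin 4 → E) → Matrix (Fin 4) (Fin 4) ℝ[X] := fun w =>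
    Matrix.of fun i j => X * C (v (w i) j) + C (m (w i) j)
  have heval : ∀ (w : Fin 4 → E) (δ : ℝ),
      (M w).det.eval δ = (Matrix.of fun i j => δ * v (w i) j + m (w i) j).det := by
    intro w δ
    have h1 := RingHom.map_det (Polynomial.evalRingHom δ) (M w)
    rw [Polynomial.coe_evalRingHom] at h1
    rw [h1]
    congr 1
    ext i j
    simp only [M, RingHom.mapMatrix_apply, Matrix.map_apply, Matrix.of_apply,
      Polynomial.coe_evalRingHom]
    rw [Polynomial.eval_add, Polynomial.eval_mul, Polynomial.eval_X, Polynomial.eval_C,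
      Polynomial.eval_C]
  have hne : ∀ w : Fin 4 → E, Function.Injective w → (M w).det ≠ 0 := by
    intro w hw h0
    have h1 := heval w 0
    rw [h0, Polynomial.eval_zero] at h1
    have h2 : (Matrix.of fun i j => (0 : ℝ) * v (w i) j + m (w i) j) =
        Matrix.vandermonde (fun i => τ (w i)) := by
      ext i j
      simp [m, Matrix.vandermonde_apply]
    rw [h2] at h1
    exact Matrix.det_vandermonde_ne_zero_iff.mpr (hτ.comp hw) h1.symm
  have ev1 : ∀ᶠ δ : ℝ in Filter.atTop, ∀ xa : E × A,
      SignType.sign (δ * (∑ i, v xa.1 i * p xa.2 i) + ∑ i, m xa.1 i * p xa.2 i) =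
        SignType.sign (∑ i, v xa.1 i * p xa.2 i) := by
    rw [Filter.eventually_all]
    intro xa
    exact sign_eventually _ _ (h xa.1 xa.2)
  have ev2 : ∀ᶠ δ : ℝ in Filter.atTop, ∀ w : {w : Fin 4 → E // Function.Injective w},
      ¬ (M w.1).det.IsRoot δ := by
    rw [Filter.eventually_all]
    intro w
    exact Polynomial.eventually_atTop_not_isRoot _ (hne w.1 w.2)
  obtain ⟨δ, h1, h2⟩ := (ev1.and ev2).exists
  refine ⟨fun x i => δ * v x i + m x i, ?_, ?_⟩
  · intro x a
    have h3 := h1 (x, a)
    rw [← h3]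
    congr 1
    rw [Finset.mul_sum, ← Finset.sum_add_distrib]
    refine Finset.sum_congr rfl fun i _ => ?_
    ring
  · intro a b c d hab hac had hbc hbd hcd h0
    have hw : Function.Injective ![a, b, c, d] := by
      intro i j hij
      fin_cases i <;> fin_cases j <;> simp_all
    apply h2 ⟨![a, b, c, d], hw⟩
    show (M ![a, b, c, d]).det.eval δ = 0
    rw [heval, ← h0]
    unfold det4
    congr 1
    ext i j
    fin_cases i <;> simp

end Pool.Agent.OM247
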