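import Pool.Agent.OM247.T1R
import Pool.Agent.OM247.BfpData
import Pool.Agent.OM247.RealFrom

/-!
The Sylvester Hadamard matrix of order 8 has no sign representation in real dimension 4.
-/

namespace Pool.Agent.OM247

theorem not_rd {D : ℕ → ℕ → ℕ → ℕ → ℝ} (hD : RD D) (hp : ParA (sD D)) : False := by
  obtain ⟨D', hD', hp', h1, h2, h3, h4⟩ := gaugeA hD hp
  exact T1.noR hD' hp' (gaugeF_inv (sD_alt hD') h1 h2 h3 h4)
    (fun D'' hD'' j hj => nonreal hD'' j hj)

theorem signRep_three_ge {r : ℕ} (h : SignRep 3 r) : 5 ≤ r := by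
  by_contra hr
  obtain ⟨D, hD, hp⟩ := rd_of_signRep (by omega) h
  exact not_rd hD hp

end Pool.Agent.OM247
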