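import Pool.Agent.OM247.RealBlock

namespace Pool.Agent.OM247

lemma glin_id : ∀ x, x < 16 → glin 1 2 4 8 x = x := by
  intro x hx
  have : ∀ x : Fin 16, glin 1 2 4 8 x.1 = x.1 := by decide +kernel
  exact this ⟨x, hx⟩

lemma parA_trans {P : ℕ → ℕ → ℕ → ℕ → SignType} (hP : ParA P) {w : ℕ} (hw : w < 16)
    (s : Bool) : ParA (trans 1 2 4 8 w s P) := by
  intro a b c e pa pb pc pe ha hb hc he ab ac bc ea eb ec ed
  have hd16 : a ^^^ b ^^^ c < 16 :=
    Nat.xor_lt_two_pow (n := 4) (Nat.xor_lt_two_pow (n := 4) ha hb) hc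
  have hchr : chr w (a ^^^ b ^^^ c) = chr w a * chr w b * chr w c := by
    rw [chr_xor hw, chr_xor hw]
  have key := hP a b c e pa pb pc pe ha hb hc he ab ac bc ea eb ec ed
  rw [trans_eq hw, trans_eq hw, trans_eq hw, trans_eq hw, glin_id a ha, glin_id b hb,
    glin_id c hc, glin_id e he, glin_id _ hd16, hchr, ← key]
  exact par_aux (sg s) (chr w a) (chr w b) (chr w c) (chr w e) _ _ _ _ (sg_ne_zero s)
    (chr_ne w a) (chr_ne w b) (chr_ne w c) (chr_ne w e)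

/-- normalisation of four values -/
theorem gaugeA {D : ℕ → ℕ → ℕ → ℕ → ℝ} (hD : RD D) (hp : ParA (sD D)) :
    ∃ D', RD D' ∧ ParA (sD D') ∧ sD D' 8 9 10 11 = 1 ∧ sD D' 8 9 10 12 = 1 ∧
      sD D' 8 9 11 12 = 1 ∧ sD D' 8 10 11 12 = 1 := by
  have hP := sD_ga hD
  have hR : ∀ (w : ℕ) (s : Bool), RD (transD 1 2 4 8 w s D) := fun w s =>
    rd_transD hD (by decide) (by decide) (by decide) (by decide) s
      (fun x h1 h2 => by rw [glin_id x h2]; omega) (fun x h1 h2 => by rw [glin_id x h2]; exact h1)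
  obtain ⟨v1, hv1⟩ : ∃ v, v = sD D 8 9 10 11 := ⟨_, rfl⟩
  obtain ⟨v2, hv2⟩ : ∃ v, v = sD D 8 9 10 12 := ⟨_, rfl⟩
  obtain ⟨v3, hv3⟩ : ∃ v, v = sD D 8 9 11 12 := ⟨_, rfl⟩
  obtain ⟨v4, hv4⟩ : ∃ v, v = sD D 8 10 11 12 := ⟨_, rfl⟩
  have n1 : v1 ≠ 0 := by
    rw [hv1]; apply hP.nz <;> decide
  have n2 : v2 ≠ 0 := by
    rw [hv2]; apply hP.nz <;> decide
  have n3 : v3 ≠ 0 := by
    rw [hv3]; apply hP.nz <;> decide
  have n4 : v4 ≠ 0 := by
    rw [hv4]; apply hP.nz <;> decide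
  have hex : ∀ v1 v2 v3 v4 : SignType, v1 ≠ 0 → v2 ≠ 0 → v3 ≠ 0 → v4 ≠ 0 →
      ∃ w : Fin 16, ∃ s : Bool,
        sg (xor s (par4 (Nat.land w.1 (Nat.xor (Nat.xor 8 9) (Nat.xor 10 11))))) * v1 = 1 ∧
        sg (xor s (par4 (Nat.land w.1 (Nat.xor (Nat.xor 8 9) (Nat.xor 10 12))))) * v2 = 1 ∧
        sg (xor s (par4 (Nat.land w.1 (Nat.xor (Nat.xor 8 9) (Nat.xor 11 12))))) * v3 = 1 ∧
        sg (xor s (par4 (Nat.land w.1 (Nat.xor (Nat.xor 8 10) (Nat.xor 11 12))))) * v4 = 1 := by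
    decide +kernel
  obtain ⟨w, s, e1, e2, e3, e4⟩ := hex v1 v2 v3 v4 n1 n2 n3 n4
  refine ⟨transD 1 2 4 8 w.1 s D, hR w.1 s, ?_, ?_, ?_, ?_, ?_⟩
  · rw [sD_transD w.2]; exact parA_trans hp w.2 s
  · rw [sD_transD w.2]; unfold trans
    rw [glin_id 8 (by decide), glin_id 9 (by decide), glin_id 10 (by decide),
      glin_id 11 (by decide), ← hv1]
    exact e1
  · rw [sD_transD w.2]; unfold trans
    rw [glin_id 8 (by decide), glin_id 9 (by decide), glin_id 10 (by decide),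
      glin_id 12 (by decide), ← hv2]
    exact e2
  · rw [sD_transD w.2]; unfold trans
    rw [glin_id 8 (by decide), glin_id 9 (by decide), glin_id 11 (by decide),
      glin_id 12 (by decide), ← hv3]
    exact e3
  · rw [sD_transD w.2]; unfold trans
    rw [glin_id 8 (by decide), glin_id 10 (by decide), glin_id 11 (by decide),
      glin_id 12 (by decide), ← hv4]
    exact e4

end Pool.Agent.OM247
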