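import Pool.Agent.OM247.Defs

/-!
Realizable completions: real (integer) vectors give chirotopes and topes, and realizable
completions multiply under tensor products.
-/

namespace Pool.Agent.OM247.Realize

open Finset Matrix

variable {E : Type} {r : ℕ}

/-- The matrix with rows `v (w i)`. -/
def cfg (v : E → Fin r → ℤ) (w : Fin r → E) : Matrix (Fin r) (Fin r) ℤ := fun i => v (w i)

/-- The chirotope of a vector configuration. -/
noncomputable def chiv (v : E → Fin r → ℤ) (w : Fin r → E) : SignType := SignType.sign (cfg v w).det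

theorem cfg_update (v : E → Fin r → ℤ) (w : Fin r → E) (i : Fin r) (e : E) :
    cfg v (Function.update w i e) = (cfg v w).updateRow i (v e) := by
  funext k
  by_cases hk : k = i
  · subst hk; simp [cfg]
  · simp [cfg, Function.update_of_ne hk, Matrix.updateRow_ne hk]

theorem exists_sign_eq {ι : Type} [Fintype ι] (t : ι → ℤ) (D : ℤ) (hD : D ≠ 0)
    (h : D = ∑ i, t i) : ∃ i, SignType.sign (t i) = SignType.sign D := by
  by_contra hcon
  push Not at hcon
  have h1 : ∀ i, t i * D ≤ 0 := by
    intro i
    by_contra hlt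
    push Not at hlt
    apply hcon i
    rcases lt_or_gt_of_ne hD with hD' | hD'
    · have : t i < 0 := neg_of_mul_pos_left hlt hD'.le
      rw [sign_neg this, sign_neg hD']
    · have : 0 < t i := pos_of_mul_pos_left hlt hD'.le
      rw [sign_pos this, sign_pos hD']
  have h2 : D * D = ∑ i, t i * D := by
    rw [← sum_mul, ← h]
  have h3 : D * D ≤ 0 := by
    rw [h2]; exact sum_nonpos (fun i _ => h1 i)
  have h4 : 0 < D * D := mul_self_pos.2 hD
  omega

theorem cramer_id (Y : Matrix (Fin r) (Fin r) ℤ) (b : Fin r → ℤ) :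
    Y.det • b = ∑ i, (Y.updateRow i b).det • Y i := by
  have h := Matrix.mulVec_cramer Yᵀ b
  rw [Matrix.det_transpose] at h
  rw [← h]
  funext j
  rw [Matrix.mulVec, dotProduct, Finset.sum_apply]
  apply Finset.sum_congr rfl
  intro i _
  rw [Matrix.cramer_transpose_apply, Pi.smul_apply, smul_eq_mul, Matrix.transpose_apply]
  ring

theorem gp (X Y : Matrix (Fin r) (Fin r) ℤ) (k : Fin r) :
    X.det * Y.det = ∑ i, (X.updateRow k (Y i)).det * (Y.updateRow i (X k)).det := by
  have h1 : (X.updateRow k (Y.det • X k)).det = X.det * Y.det := by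
    rw [Matrix.det_updateRow_smul, Matrix.updateRow_eq_self]; ring
  rw [← h1, cramer_id Y (X k), ← Matrix.cramer_transpose_apply, map_sum, Finset.sum_apply]
  apply Finset.sum_congr rfl
  intro i _
  rw [map_smul, Pi.smul_apply, Matrix.cramer_transpose_apply, smul_eq_mul]
  ring

theorem isChirotope (v : E → Fin r → ℤ) (h : ∃ w, (cfg v w).det ≠ 0) :
    IsChirotope (chiv v) where
  nonzero := by
    obtain ⟨w, hw⟩ := h
    exact ⟨w, fun h0 => hw (sign_eq_zero_iff.1 h0)⟩
  alternating := by
    intro x i j hij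
    have h1 : cfg v (x ∘ Equiv.swap i j) = (cfg v x).submatrix (Equiv.swap i j) id := rfl
    unfold chiv
    rw [h1, Matrix.det_permute, Equiv.Perm.sign_swap hij]
    simp [Left.sign_neg]
  exchange := by
    intro x y k hxy
    have hD : (cfg v x).det * (cfg v y).det ≠ 0 := by
      intro h0
      apply hxy
      unfold chiv
      rw [← sign_mul, h0, sign_zero]
    obtain ⟨i, hi⟩ := exists_sign_eq _ _ hD (gp (cfg v x) (cfg v y) k)
    refine ⟨i, ?_⟩
    unfold chiv
    rw [cfg_update, cfg_update, ← sign_mul, ← sign_mul]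
    exact hi

theorem isTope (v : E → Fin r → ℤ) (p : Fin r → ℤ) (u : E → SignType)
    (hu : ∀ e, SignType.sign (∑ i, v e i * p i) = u e) (hu0 : ∀ e, u e ≠ 0) :
    IsTope (chiv v) u := by
  refine ⟨hu0, ?_⟩
  intro w e hw
  have hD : (cfg v w).det * (∑ i, v e i * p i) ≠ 0 := by
    intro h0
    have h1 : SignType.sign ((cfg v w).det * (∑ i, v e i * p i)) = 0 := by rw [h0, sign_zero]
    rw [sign_mul, hu] at h1
    exact mul_ne_zero hw (hu0 e) h1
  have h2 : (cfg v w).det * (∑ i, v e i * p i) =
      ∑ i, ((cfg v w).updateRow i (v e)).det * (∑ j, v (w i) j * p j) := by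
    have h3 := congrArg (fun q : Fin r → ℤ => ∑ j, q j * p j) (cramer_id (cfg v w) (v e))
    simp only [Pi.smul_apply, smul_eq_mul, Finset.sum_apply] at h3
    rw [mul_sum]
    simp only [mul_assoc] at h3
    rw [h3]
    simp only [sum_mul]
    rw [sum_comm]
    apply sum_congr rfl
    intro i _
    rw [mul_sum]
    apply sum_congr rfl
    intro j _
    simp only [cfg]
    ring
  obtain ⟨i, hi⟩ := exists_sign_eq _ _ hD h2
  refine ⟨i, ?_⟩
  rw [sign_mul, sign_mul, hu, hu] at hi
  unfold chiv
  rw [cfg_update]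
  exact hi

end Realize

open Realize in
/-- A sign representation of the Sylvester Hadamard matrix of order `2 ^ n` in dimension `r` by
integer vectors spanning the space. -/
def SRep (n r : ℕ) : Prop :=
  ∃ v p : (Fin n → ZMod 2) → Fin r → ℤ,
    (∀ a x, SignType.sign (∑ i, v x i * p a i) = hadRow n a x) ∧
    ∃ w : Fin r → (Fin n → ZMod 2), (cfg v w).det ≠ 0

theorem hadRow_ne {n : ℕ} (a x : Fin n → ZMod 2) : hadRow n a x ≠ 0 := by
  unfold hadRow; split_ifs <;> decide

theorem SRep.completes {n r : ℕ} (h : SRep n r) : Completes n r := by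
  obtain ⟨v, p, h1, h2⟩ := h
  exact ⟨Realize.chiv v, Realize.isChirotope v h2,
    fun a => Realize.isTope v (p a) _ (h1 a) (hadRow_ne a)⟩

theorem hadRow_append {n m : ℕ} (a x : Fin (n + m) → ZMod 2) :
    hadRow (n + m) a x =
      hadRow n (fun i => a (Fin.castAdd m i)) (fun i => x (Fin.castAdd m i)) *
      hadRow m (fun i => a (Fin.natAdd n i)) (fun i => x (Fin.natAdd n i)) := by
  unfold hadRow
  rw [Fin.sum_univ_add]
  generalize (∑ i : Fin n, a (Fin.castAdd m i) * x (Fin.castAdd m i)) = s
  generalize (∑ i : Fin m, a (Fin.natAdd n i) * x (Fin.natAdd n i)) = t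
  revert s t
  decide

open Realize in
theorem SRep.mul {n m r s : ℕ} (h : SRep n r) (h' : SRep m s) : SRep (n + m) (r * s) := by
  obtain ⟨v, p, h1, w, h2⟩ := h
  obtain ⟨v', p', h1', w', h2'⟩ := h'
  refine ⟨fun x k => v (fun i => x (Fin.castAdd m i)) (finProdFinEquiv.symm k).1 *
      v' (fun i => x (Fin.natAdd n i)) (finProdFinEquiv.symm k).2,
    fun x k => p (fun i => x (Fin.castAdd m i)) (finProdFinEquiv.symm k).1 *
      p' (fun i => x (Fin.natAdd n i)) (finProdFinEquiv.symm k).2, ?_,
    fun k => Fin.append (w (finProdFinEquiv.symm k).1) (w' (finProdFinEquiv.symm k).2), ?_⟩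
  · intro a x
    rw [hadRow_append, ← h1, ← h1', ← sign_mul]
    congr 1
    rw [Fintype.sum_mul_sum, ← Fintype.sum_prod_type']
    rw [← Equiv.sum_comp finProdFinEquiv]
    apply Finset.sum_congr rfl
    rintro ⟨i, j⟩ _
    simp only [Equiv.symm_apply_apply]
    ring
  · have h3 : (cfg (fun x (k : Fin (r * s)) => v (fun i => x (Fin.castAdd m i)) (finProdFinEquiv.symm k).1 *
      v' (fun i => x (Fin.natAdd n i)) (finProdFinEquiv.symm k).2)
        (fun k => Fin.append (w (finProdFinEquiv.symm k).1) (w' (finProdFinEquiv.symm k).2))) =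
        (Matrix.kroneckerMap (· * ·) (cfg v w) (cfg v' w')).submatrix finProdFinEquiv.symm
          finProdFinEquiv.symm := by
      funext k l
      simp only [cfg, Matrix.submatrix_apply, Matrix.kroneckerMap_apply]
      simp only [Fin.append_left, Fin.append_right]
    rw [h3, Matrix.det_submatrix_equiv_self, Matrix.det_kronecker]
    exact mul_ne_zero (pow_ne_zero _ h2) (pow_ne_zero _ h2')

end Pool.Agent.OM247
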