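import Pool.Agent.OM247.Check

/-!
Soundness of the clausal checker, for an arbitrary predicate `T` on literals such that a literal
and its complement are not both true.
-/

namespace Pool.Agent.OM247

section

variable (T : ℕ → Prop)

/-- the clause `d` has a true literal -/
def ClauseT (d : ℕ) : Prop := ∃ l ∈ toks 100 d, T l

lemma toks_zero (d : ℕ) : toks 0 d = [] := rfl

lemma toks_succ_zero (k d : ℕ) (h : Nat.beq (Nat.land d 4095) 0 = true) : toks (k + 1) d = [] := by
  show @Bool.rec (fun _ => List ℕ) _ [] (Nat.beq (Nat.land d 4095) 0) = []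
  rw [h]

lemma toks_succ (k d : ℕ) (h : Nat.beq (Nat.land d 4095) 0 = false) :
    toks (k + 1) d = (Nat.land d 4095 - 1) :: toks k (Nat.shiftRight d 12) := by
  show @Bool.rec (fun _ => List ℕ) _ [] (Nat.beq (Nat.land d 4095) 0) = _
  rw [h]; rfl

lemma scan_zero (d F acc : ℕ) : scan 0 d F acc = 1 := rfl

lemma scan_end (k d F acc : ℕ) (h : Nat.beq (Nat.land d 4095) 0 = true) :
    scan (k + 1) d F acc = acc := by
  show @Bool.rec (fun _ => ℕ) _ acc (Nat.beq (Nat.land d 4095) 0) = acc
  rw [h]

lemma scan_skip (k d F acc : ℕ) (h : Nat.beq (Nat.land d 4095) 0 = false)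
    (h2 : Nat.beq (Nat.land (Nat.shiftRight F (Nat.land d 4095 - 1)) 1) 0 = false) :
    scan (k + 1) d F acc = scan k (Nat.shiftRight d 12) F acc := by
  show @Bool.rec (fun _ => ℕ) (@Bool.rec (fun _ => ℕ) _ _
    (Nat.beq (Nat.land (Nat.shiftRight F (Nat.land d 4095 - 1)) 1) 0)) acc
    (Nat.beq (Nat.land d 4095) 0) = _
  rw [h, h2]; rfl

lemma scan_new (k d F acc : ℕ) (h : Nat.beq (Nat.land d 4095) 0 = false)
    (h2 : Nat.beq (Nat.land (Nat.shiftRight F (Nat.land d 4095 - 1)) 1) 0 = true) :
    scan (k + 1) d F acc = @Bool.rec (fun _ => ℕ) 1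
      (scan k (Nat.shiftRight d 12) F (Nat.succ (Nat.land d 4095))) (Nat.beq acc 0) := by
  show @Bool.rec (fun _ => ℕ) (@Bool.rec (fun _ => ℕ) _ _
    (Nat.beq (Nat.land (Nat.shiftRight F (Nat.land d 4095 - 1)) 1) 0)) acc
    (Nat.beq (Nat.land d 4095) 0) = _
  rw [h, h2]; rfl

lemma testBit_of_beq_false {F l : ℕ}
    (h : Nat.beq (Nat.land (Nat.shiftRight F l) 1) 0 = false) : F.testBit l = true := by
  have h1 : Nat.land (Nat.shiftRight F l) 1 ≠ 0 := by
    intro h0
    rw [h0] at h
    exact absurd h (by decide)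
  have h2 : (F >>> l) &&& 1 ≠ 0 := h1
  rw [Nat.testBit, Nat.land_comm]
  simpa using h2

/-- all literals in `F` are false -/
def FInv (F : ℕ) : Prop := ∀ l, F.testBit l = true → ¬ T l

variable {T}

lemma scan_spec {F : ℕ} (hF : FInv T F) : ∀ (k d acc : ℕ),
    (scan k d F acc = 0 → acc = 0 ∧ ∀ l ∈ toks k d, ¬ T l) ∧
    (∀ m, scan k d F acc = m + 2 →
      (acc = 0 → (∃ l ∈ toks k d, T l) → T m) ∧
      (acc ≠ 0 → acc = m + 2 ∧ ∀ l ∈ toks k d, ¬ T l)) := by
  intro k
  induction k with
  | zero =>
    intro d acc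
    rw [scan_zero]
    refine ⟨fun h => absurd h (by decide), fun m h => ?_⟩
    omega
  | succ k ih =>
    intro d acc
    by_cases h : Nat.beq (Nat.land d 4095) 0 = true
    · rw [scan_end k d F acc h, toks_succ_zero k d h]
      refine ⟨fun h0 => ⟨h0, by simp⟩, fun m hm => ⟨fun h0 => ?_, fun _ => ⟨hm, by simp⟩⟩⟩
      omega
    · rw [Bool.not_eq_true] at h
      rw [toks_succ k d h]
      by_cases h2 : Nat.beq (Nat.land (Nat.shiftRight F (Nat.land d 4095 - 1)) 1) 0 = true
      · rw [scan_new k d F acc h h2]
        by_cases h3 : Nat.beq acc 0 = true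
        · rw [h3]
          have hacc : acc = 0 := Nat.eq_of_beq_eq_true h3
          obtain ⟨i1, i2⟩ := ih (Nat.shiftRight d 12) (Nat.succ (Nat.land d 4095))
          refine ⟨fun h0 => ?_, fun m hm => ⟨fun _ hex => ?_, fun hne => absurd hacc hne⟩⟩
          · have := (i1 h0).1
            omega
          · obtain ⟨_, i4⟩ := i2 m hm
            obtain ⟨h5, h6⟩ := i4 (Nat.succ_ne_zero _)
            have hne0 : Nat.land d 4095 ≠ 0 := by
              intro h0
              rw [h0] at h
              exact absurd h (by decide)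
            have hm' : m = Nat.land d 4095 - 1 := by omega
            obtain ⟨l, hl, hT⟩ := hex
            rcases List.mem_cons.mp hl with h7 | h7
            · rw [hm', ← h7]; exact hT
            · exact absurd hT (h6 l h7)
        · rw [Bool.not_eq_true] at h3
          rw [h3]
          refine ⟨fun h0 => absurd (show (1 : ℕ) = 0 from h0) (by decide), fun m hm => ?_⟩
          exfalso
          have : (1 : ℕ) = m + 2 := hm
          omega
      · rw [Bool.not_eq_true] at h2
        rw [scan_skip k d F acc h h2]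
        obtain ⟨i1, i2⟩ := ih (Nat.shiftRight d 12) acc
        have hfalse : ¬ T (Nat.land d 4095 - 1) := hF _ (testBit_of_beq_false h2)
        refine ⟨fun h0 => ⟨(i1 h0).1, ?_⟩, fun m hm => ⟨fun h0 hex => ?_, fun h0 => ?_⟩⟩
        · intro l hl
          rcases List.mem_cons.mp hl with h7 | h7
          · rw [h7]; exact hfalse
          · exact (i1 h0).2 l h7
        · obtain ⟨l, hl, hT⟩ := hex
          rcases List.mem_cons.mp hl with h7 | h7
          · rw [h7] at hT; exact absurd hT hfalse
          · exact (i2 m hm).1 h0 ⟨l, h7, hT⟩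
        · obtain ⟨h5, h6⟩ := (i2 m hm).2 h0
          refine ⟨h5, ?_⟩
          intro l hl
          rcases List.mem_cons.mp hl with h7 | h7
          · rw [h7]; exact hfalse
          · exact h6 l h7

lemma testBit_lor_shift (F m l : ℕ)
    (h : (Nat.lor F (Nat.shiftLeft 1 m)).testBit l = true) : F.testBit l = true ∨ l = m := by
  have h1 : (F ||| (1 <<< m)).testBit l = true := h
  rw [Nat.testBit_or, Nat.testBit_shiftLeft] at h1
  rw [Bool.or_eq_true] at h1
  rcases h1 with h1 | h1
  · exact Or.inl h1
  · right
    rw [Bool.and_eq_true] at h1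
    obtain ⟨h2, h3⟩ := h1
    have h4 : m ≤ l := of_decide_eq_true h2
    rw [Nat.testBit_one_eq_true_iff_self_eq_zero] at h3
    omega

lemma addNeg_spec (k : ℕ) : ∀ (d F : ℕ), FInv T F → (∀ l ∈ toks k d, ¬ T l) →
    FInv T (addNeg k d F) := by
  induction k with
  | zero => intro d F hF _; exact hF
  | succ k ih =>
    intro d F hF hd
    by_cases h : Nat.beq (Nat.land d 4095) 0 = true
    · have : addNeg (k + 1) d F = F := by
        show @Bool.rec (fun _ => ℕ) _ F (Nat.beq (Nat.land d 4095) 0) = F
        rw [h]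
      rw [this]; exact hF
    · rw [Bool.not_eq_true] at h
      have : addNeg (k + 1) d F = addNeg k (Nat.shiftRight d 12)
          (Nat.lor F (Nat.shiftLeft 1 (Nat.land d 4095 - 1))) := by
        show @Bool.rec (fun _ => ℕ) _ F (Nat.beq (Nat.land d 4095) 0) = _
        rw [h]; rfl
      rw [this]
      rw [toks_succ k d h] at hd
      apply ih
      · intro l hl
        rcases testBit_lor_shift _ _ _ hl with h1 | h1
        · exact hF l h1
        · rw [h1]; exact hd _ List.mem_cons_self
      · intro l hl
        exact hd l (List.mem_cons_of_mem _ hl)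

lemma loop_spec (hcompl : ∀ l, T l → ¬ T (Nat.xor l 1)) (t : Tr) (i : ℕ)
    (hprev : ∀ j < i, ClauseT T (t.get j)) :
    ∀ (k H F : ℕ), FInv T F → loop t i k H F = true → False := by
  intro k
  induction k with
  | zero => intro H F _ h; exact absurd h (by show ¬ (false = true); decide)
  | succ k ih =>
    intro H F hF h
    have hdef : loop t i (k + 1) H F =
      @Bool.rec (fun _ => Bool)
        (@Bool.rec (fun _ => Bool) false
          (@Nat.rec (fun _ => Bool) true
            (fun m _ => @Nat.rec (fun _ => Bool) false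
              (fun l _ => loop t i k (Nat.shiftRight H 16)
                (Nat.lor F (Nat.shiftLeft 1 (Nat.xor l 1)))) m)
            (scan 100 (t.get (Nat.land H 65535 - 1)) F 0))
          (Nat.ble (Nat.land H 65535) i))
        false (Nat.beq (Nat.land H 65535) 0) := rfl
    rw [hdef] at h
    by_cases h1 : Nat.beq (Nat.land H 65535) 0 = true
    · rw [h1] at h; exact absurd h (by show ¬ (false = true); decide)
    · rw [Bool.not_eq_true] at h1
      rw [h1] at h
      by_cases h2 : Nat.ble (Nat.land H 65535) i = true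
      · rw [h2] at h
        have hne0 : Nat.land H 65535 ≠ 0 := by
          intro h0
          rw [h0] at h1
          exact absurd h1 (by decide)
        have hle : Nat.land H 65535 ≤ i := Nat.le_of_ble_eq_true h2
        have hcl := hprev (Nat.land H 65535 - 1) (by omega)
        obtain ⟨s1, s2⟩ := scan_spec hF 100 (t.get (Nat.land H 65535 - 1)) 0
        obtain ⟨v, hv⟩ : ∃ v, v = scan 100 (t.get (Nat.land H 65535 - 1)) F 0 := ⟨_, rfl⟩
        rw [← hv] at h s1 s2
        match v, h, s1, s2 with
        | 0, _, s1, _ =>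
          obtain ⟨l, hl, hT⟩ := hcl
          exact (s1 rfl).2 l hl hT
        | 1, h, _, _ => exact absurd h (by show ¬ (false = true); decide)
        | m + 2, h, _, s2 =>
          have hm : T m := (s2 m rfl).1 rfl hcl
          refine ih (Nat.shiftRight H 16) (Nat.lor F (Nat.shiftLeft 1 (Nat.xor m 1))) ?_ h
          intro l hl
          rcases testBit_lor_shift _ _ _ hl with h3 | h3
          · exact hF l h3
          · rw [h3]; exact hcompl m hm
      · rw [Bool.not_eq_true] at h2
        rw [h2] at h
        exact absurd h (by show ¬ (false = true); decide)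

lemma okRange_spec (t ht : Tr) (F0 n0 lo : ℕ) : ∀ cnt, okRange t ht F0 n0 lo cnt = true →
    ∀ i, lo ≤ i → i < lo + cnt → checkLemma t ht F0 n0 i = true := by
  intro cnt
  induction cnt with
  | zero => intro _ i h1 h2; omega
  | succ k ih =>
    intro h i h1 h2
    have hdef : okRange t ht F0 n0 lo (k + 1) =
      @Bool.rec (fun _ => Bool) false (okRange t ht F0 n0 lo k)
        (checkLemma t ht F0 n0 (lo + k)) := rfl
    rw [hdef] at h
    by_cases h3 : checkLemma t ht F0 n0 (lo + k) = true
    · rw [h3] at h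
      by_cases h4 : i = lo + k
      · rw [h4]; exact h3
      · exact ih h i h1 (by omega)
    · rw [Bool.not_eq_true] at h3
      rw [h3] at h
      exact absurd h (by show ¬ (false = true); decide)

/-- Soundness of the whole table. -/
theorem table_sound (hcompl : ∀ l, T l → ¬ T (Nat.xor l 1)) (t ht : Tr) (F0 n0 n : ℕ)
    (hF0 : FInv T F0) (horig : ∀ i < n0, ClauseT T (t.get i))
    (hlem : ∀ i, n0 ≤ i → i < n → checkLemma t ht F0 n0 i = true) :
    ∀ i < n, ClauseT T (t.get i) := by
  intro i
  induction i using Nat.strong_induction_on with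
  | _ i ih =>
    intro hi
    by_cases h : i < n0
    · exact horig i h
    · by_contra hcon
      have hcheck := hlem i (by omega) hi
      have hneg : ∀ l ∈ toks 100 (t.get i), ¬ T l := by
        intro l hl hT
        exact hcon ⟨l, hl, hT⟩
      exact loop_spec hcompl t i (fun j hj => ih j hj (by omega)) 3000 _ _
        (addNeg_spec 100 _ _ hF0 hneg) hcheck

/-- The last entry is the empty clause: contradiction. -/
theorem table_false (hcompl : ∀ l, T l → ¬ T (Nat.xor l 1)) (t ht : Tr) (F0 n0 n : ℕ)
    (hF0 : FInv T F0) (horig : ∀ i < n0, ClauseT T (t.get i))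
    (hlem : ∀ i, n0 ≤ i → i < n + 1 → checkLemma t ht F0 n0 i = true)
    (hlast : Nat.beq (Nat.land (t.get n) 4095) 0 = true) : False := by
  obtain ⟨l, hl, _⟩ := table_sound hcompl t ht F0 n0 (n + 1) hF0 horig hlem n (by omega)
  rw [toks_succ_zero 99 _ hlast] at hl
  simp at hl

end

end Pool.Agent.OM247
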