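import Pool.Agent.OM247.OrigB
import Pool.Agent.OM247.T1Data

namespace Pool.Agent.OM247.T1

open Pool.Agent.OM247

theorem o0 : okOrigB t dt 0 800 = true := by decide +kernel
theorem o4 : okOrigB t dt 3200 787 = true := by decide +kernel
theorem o8 : okOrigB t dt 4437 150 = true := by decide +kernel
theorem o12 : okOrigB t dt 5037 150 = true := by decide +kernel
theorem o16 : okOrigB t dt 5637 86 = true := by decide +kernel
theorem l3 : okRange t ht F0 5723 6173 150 = true := by decide +kernel
theorem l7 : okRange t ht F0 5723 6773 150 = true := by decide +kernel
theorem l11 : okRange t ht F0 5723 7373 150 = true := by decide +kernel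
theorem l15 : okRange t ht F0 5723 7973 150 = true := by decide +kernel
theorem l19 : okRange t ht F0 5723 8573 150 = true := by decide +kernel
theorem l23 : okRange t ht F0 5723 9173 150 = true := by decide +kernel
theorem l27 : okRange t ht F0 5723 9773 150 = true := by decide +kernel
theorem last : Nat.beq (Nat.land (t.get 10031) 4095) 0 = true := by decide +kernel

end Pool.Agent.OM247.T1
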