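import Pool.Agent.OM247.OrigB
import Pool.Agent.OM247.T1Data

namespace Pool.Agent.OM247.T1

open Pool.Agent.OM247

theorem o1 : okOrigB t dt 800 800 = true := by decide +kernel
theorem o5 : okOrigB t dt 3987 150 = true := by decide +kernel
theorem o9 : okOrigB t dt 4587 150 = true := by decide +kernel
theorem o13 : okOrigB t dt 5187 150 = true := by decide +kernel
theorem l0 : okRange t ht F0 5723 5723 150 = true := by decide +kernel
theorem l4 : okRange t ht F0 5723 6323 150 = true := by decide +kernel
theorem l8 : okRange t ht F0 5723 6923 150 = true := by decide +kernel
theorem l12 : okRange t ht F0 5723 7523 150 = true := by decide +kernel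
theorem l16 : okRange t ht F0 5723 8123 150 = true := by decide +kernel
theorem l20 : okRange t ht F0 5723 8723 150 = true := by decide +kernel
theorem l24 : okRange t ht F0 5723 9323 150 = true := by decide +kernel
theorem l28 : okRange t ht F0 5723 9923 109 = true := by decide +kernel

end Pool.Agent.OM247.T1
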