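import Pool.Agent.OM247.OrigB
import Pool.Agent.OM247.T1Data

namespace Pool.Agent.OM247.T1

open Pool.Agent.OM247

theorem o2 : okOrigB t dt 1600 800 = true := by decide +kernel
theorem o6 : okOrigB t dt 4137 150 = true := by decide +kernel
theorem o10 : okOrigB t dt 4737 150 = true := by decide +kernel
theorem o14 : okOrigB t dt 5337 150 = true := by decide +kernel
theorem l1 : okRange t ht F0 5723 5873 150 = true := by decide +kernel
theorem l5 : okRange t ht F0 5723 6473 150 = true := by decide +kernel
theorem l9 : okRange t ht F0 5723 7073 150 = true := by decide +kernel
theorem l13 : okRange t ht F0 5723 7673 150 = true := by decide +kernel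
theorem l17 : okRange t ht F0 5723 8273 150 = true := by decide +kernel
theorem l21 : okRange t ht F0 5723 8873 150 = true := by decide +kernel
theorem l25 : okRange t ht F0 5723 9473 150 = true := by decide +kernel

end Pool.Agent.OM247.T1
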