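import Pool.Agent.OM247.OrigB
import Pool.Agent.OM247.T1Data

namespace Pool.Agent.OM247.T1

open Pool.Agent.OM247

theorem o3 : okOrigB t dt 2400 800 = true := by decide +kernel
theorem o7 : okOrigB t dt 4287 150 = true := by decide +kernel
theorem o11 : okOrigB t dt 4887 150 = true := by decide +kernel
theorem o15 : okOrigB t dt 5487 150 = true := by decide +kernel
theorem l2 : okRange t ht F0 5723 6023 150 = true := by decide +kernel
theorem l6 : okRange t ht F0 5723 6623 150 = true := by decide +kernel
theorem l10 : okRange t ht F0 5723 7223 150 = true := by decide +kernel
theorem l14 : okRange t ht F0 5723 7823 150 = true := by decide +kernel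
theorem l18 : okRange t ht F0 5723 8423 150 = true := by decide +kernel
theorem l22 : okRange t ht F0 5723 9023 150 = true := by decide +kernel
theorem l26 : okRange t ht F0 5723 9623 150 = true := by decide +kernel

end Pool.Agent.OM247.T1
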