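import Pool.Agent.OM247.BlockSound
import Pool.Agent.OM247.T1Chk0
import Pool.Agent.OM247.T1Chk1
import Pool.Agent.OM247.T1Chk2
import Pool.Agent.OM247.T1Chk3

namespace Pool.Agent.OM247.T1

open Pool.Agent.OM247

theorem F0_eq : gaugeF = F0 := by decide +kernel

/-- every normalised `P` is a transform of one of the seven references -/
theorem no {P : ℕ → ℕ → ℕ → ℕ → SignType} (hP : Good P) (hF : FInv (litT P) gaugeF)
    (H : ∀ P', Good P' → ∀ j, j ≤ 6 → ¬ FInv (litT P') (seedF quads (rep j))) : False := by
  rw [F0_eq] at hF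
  refine table_false (litT_compl P) t ht F0 5723 10031 hF ?_ ?_ last
  · intro i hi
    apply origOKB_sound hP H (D := dt.get i)
    by_cases h0 : i < 800
    · exact okOrigB_spec _ _ _ _ o0 i (by omega) (by omega)
    by_cases h1 : i < 1600
    · exact okOrigB_spec _ _ _ _ o1 i (by omega) (by omega)
    by_cases h2 : i < 2400
    · exact okOrigB_spec _ _ _ _ o2 i (by omega) (by omega)
    by_cases h3 : i < 3200
    · exact okOrigB_spec _ _ _ _ o3 i (by omega) (by omega)
    by_cases h4 : i < 3987
    · exact okOrigB_spec _ _ _ _ o4 i (by omega) (by omega)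
    by_cases h5 : i < 4137
    · exact okOrigB_spec _ _ _ _ o5 i (by omega) (by omega)
    by_cases h6 : i < 4287
    · exact okOrigB_spec _ _ _ _ o6 i (by omega) (by omega)
    by_cases h7 : i < 4437
    · exact okOrigB_spec _ _ _ _ o7 i (by omega) (by omega)
    by_cases h8 : i < 4587
    · exact okOrigB_spec _ _ _ _ o8 i (by omega) (by omega)
    by_cases h9 : i < 4737
    · exact okOrigB_spec _ _ _ _ o9 i (by omega) (by omega)
    by_cases h10 : i < 4887
    · exact okOrigB_spec _ _ _ _ o10 i (by omega) (by omega)
    by_cases h11 : i < 5037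
    · exact okOrigB_spec _ _ _ _ o11 i (by omega) (by omega)
    by_cases h12 : i < 5187
    · exact okOrigB_spec _ _ _ _ o12 i (by omega) (by omega)
    by_cases h13 : i < 5337
    · exact okOrigB_spec _ _ _ _ o13 i (by omega) (by omega)
    by_cases h14 : i < 5487
    · exact okOrigB_spec _ _ _ _ o14 i (by omega) (by omega)
    by_cases h15 : i < 5637
    · exact okOrigB_spec _ _ _ _ o15 i (by omega) (by omega)
    exact okOrigB_spec _ _ _ _ o16 i (by omega) (by omega)
  · intro i h1 h2
    by_cases h3 : i < 5873
    · exact okRange_spec _ _ _ _ _ _ l0 i (by omega) (by omega)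
    by_cases h4 : i < 6023
    · exact okRange_spec _ _ _ _ _ _ l1 i (by omega) (by omega)
    by_cases h5 : i < 6173
    · exact okRange_spec _ _ _ _ _ _ l2 i (by omega) (by omega)
    by_cases h6 : i < 6323
    · exact okRange_spec _ _ _ _ _ _ l3 i (by omega) (by omega)
    by_cases h7 : i < 6473
    · exact okRange_spec _ _ _ _ _ _ l4 i (by omega) (by omega)
    by_cases h8 : i < 6623
    · exact okRange_spec _ _ _ _ _ _ l5 i (by omega) (by omega)
    by_cases h9 : i < 6773
    · exact okRange_spec _ _ _ _ _ _ l6 i (by omega) (by omega)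
    by_cases h10 : i < 6923
    · exact okRange_spec _ _ _ _ _ _ l7 i (by omega) (by omega)
    by_cases h11 : i < 7073
    · exact okRange_spec _ _ _ _ _ _ l8 i (by omega) (by omega)
    by_cases h12 : i < 7223
    · exact okRange_spec _ _ _ _ _ _ l9 i (by omega) (by omega)
    by_cases h13 : i < 7373
    · exact okRange_spec _ _ _ _ _ _ l10 i (by omega) (by omega)
    by_cases h14 : i < 7523
    · exact okRange_spec _ _ _ _ _ _ l11 i (by omega) (by omega)
    by_cases h15 : i < 7673
    · exact okRange_spec _ _ _ _ _ _ l12 i (by omega) (by omega)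
    by_cases h16 : i < 7823
    · exact okRange_spec _ _ _ _ _ _ l13 i (by omega) (by omega)
    by_cases h17 : i < 7973
    · exact okRange_spec _ _ _ _ _ _ l14 i (by omega) (by omega)
    by_cases h18 : i < 8123
    · exact okRange_spec _ _ _ _ _ _ l15 i (by omega) (by omega)
    by_cases h19 : i < 8273
    · exact okRange_spec _ _ _ _ _ _ l16 i (by omega) (by omega)
    by_cases h20 : i < 8423
    · exact okRange_spec _ _ _ _ _ _ l17 i (by omega) (by omega)
    by_cases h21 : i < 8573
    · exact okRange_spec _ _ _ _ _ _ l18 i (by omega) (by omega)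
    by_cases h22 : i < 8723
    · exact okRange_spec _ _ _ _ _ _ l19 i (by omega) (by omega)
    by_cases h23 : i < 8873
    · exact okRange_spec _ _ _ _ _ _ l20 i (by omega) (by omega)
    by_cases h24 : i < 9023
    · exact okRange_spec _ _ _ _ _ _ l21 i (by omega) (by omega)
    by_cases h25 : i < 9173
    · exact okRange_spec _ _ _ _ _ _ l22 i (by omega) (by omega)
    by_cases h26 : i < 9323
    · exact okRange_spec _ _ _ _ _ _ l23 i (by omega) (by omega)
    by_cases h27 : i < 9473
    · exact okRange_spec _ _ _ _ _ _ l24 i (by omega) (by omega)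
    by_cases h28 : i < 9623
    · exact okRange_spec _ _ _ _ _ _ l25 i (by omega) (by omega)
    by_cases h29 : i < 9773
    · exact okRange_spec _ _ _ _ _ _ l26 i (by omega) (by omega)
    by_cases h30 : i < 9923
    · exact okRange_spec _ _ _ _ _ _ l27 i (by omega) (by omega)
    exact okRange_spec _ _ _ _ _ _ l28 i (by omega) (by omega)

end Pool.Agent.OM247.T1
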