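import Pool.Agent.OM247.RealBlock
import Pool.Agent.OM247.T1Data

namespace Pool.Agent.OM247.T1

open Pool.Agent.OM247

theorem r0 : okOrigA t dt 0 800 = true := by decide +kernel
theorem r3 : okOrigA t dt 2400 800 = true := by decide +kernel
theorem r6 : okOrigA t dt 4137 150 = true := by decide +kernel
theorem r9 : okOrigA t dt 4587 150 = true := by decide +kernel
theorem r12 : okOrigA t dt 5037 150 = true := by decide +kernel
theorem r15 : okOrigA t dt 5487 150 = true := by decide +kernel

end Pool.Agent.OM247.T1
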