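import Pool.Agent.OM247.RealBlock
import Pool.Agent.OM247.T1Data

namespace Pool.Agent.OM247.T1

open Pool.Agent.OM247

theorem r1 : okOrigA t dt 800 800 = true := by decide +kernel
theorem r4 : okOrigA t dt 3200 787 = true := by decide +kernel
theorem r7 : okOrigA t dt 4287 150 = true := by decide +kernel
theorem r10 : okOrigA t dt 4737 150 = true := by decide +kernel
theorem r13 : okOrigA t dt 5187 150 = true := by decide +kernel
theorem r16 : okOrigA t dt 5637 86 = true := by decide +kernel

end Pool.Agent.OM247.T1
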