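import Pool.Agent.OM247.RealBlock
import Pool.Agent.OM247.T1Data

namespace Pool.Agent.OM247.T1

open Pool.Agent.OM247

theorem r2 : okOrigA t dt 1600 800 = true := by decide +kernel
theorem r5 : okOrigA t dt 3987 150 = true := by decide +kernel
theorem r8 : okOrigA t dt 4437 150 = true := by decide +kernel
theorem r11 : okOrigA t dt 4887 150 = true := by decide +kernel
theorem r14 : okOrigA t dt 5337 150 = true := by decide +kernel

end Pool.Agent.OM247.T1
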