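import Pool.Agent.OM247.Good

/-!
Linear changes of coordinates and reorientations of rank 4 data.
-/

namespace Pool.Agent.OM247

/-- `c` if `b`, else `0` -/
def sel (b : Bool) (c : ℕ) : ℕ := @Bool.rec (fun _ => ℕ) (nat_lit 0) c b

/-- the linear map of `F_2^4` with columns `c0, c1, c2, c3` -/
def glin (c0 c1 c2 c3 x : ℕ) : ℕ :=
  Nat.xor (Nat.xor (sel (bitb x (nat_lit 0)) c0) (sel (bitb x (nat_lit 1)) c1))
    (Nat.xor (sel (bitb x (nat_lit 2)) c2) (sel (bitb x (nat_lit 3)) c3))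

/-- parity of the number of ones of `n < 16` -/
def par4 (n : ℕ) : Bool := bitb (nat_lit 27030) n

/-- change of coordinates and reorientation -/
def trans (c0 c1 c2 c3 w : ℕ) (s : Bool) (P : ℕ → ℕ → ℕ → ℕ → SignType) :
    ℕ → ℕ → ℕ → ℕ → SignType := fun a b c d =>
  sg (xor s (par4 (Nat.land w (Nat.xor (Nat.xor a b) (Nat.xor c d))))) *
    P (glin c0 c1 c2 c3 a) (glin c0 c1 c2 c3 b) (glin c0 c1 c2 c3 c) (glin c0 c1 c2 c3 d)

end Pool.Agent.OM247
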