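import Pool.Agent.OM247.Perturb

namespace Pool.Agent.OM247

open Function

variable {E : Type} {r : ℕ}

/-- two injective tuples with the same range differ by a permutation -/
lemma exists_perm_of_image_eq {t b : Fin r → E} (ht : Injective t)
    (h : ∀ i, ∃ j, b j = t i) : ∃ σ : Equiv.Perm (Fin r), t = b ∘ σ := by
  choose g hg using h
  have hginj : Injective g := by
    intro i j hij
    apply ht
    rw [← hg i, ← hg j, hij]
  have hgb : Bijective g := Finite.injective_iff_bijective.mp hginj
  refine ⟨Equiv.ofBijective g hgb, ?_⟩
  funext i
  simp [hg i]

variable [Fintype E] [DecidableEq E]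

/-- If the chirotope is not uniform, some perturbation makes more tuples nonzero. -/
lemma exists_step {χ : (Fin r → E) → SignType} (h : IsChirotope χ) (b : Fin r → E)
    (hb : χ b ≠ 0) : ∀ (m : ℕ) (t : Fin r → E), Injective t → χ t = 0 →
      (Finset.univ.filter fun i => ∀ j, b j ≠ t i).card ≤ m →
      ∃ (e f : E) (t' : Fin r → E), χ t' = 0 ∧ χ (repl e f ∘ t') ≠ 0 := by
  have hbinj : Injective b := (show Alt χ from h.alternating).injective_of_ne hb
  intro m
  induction m with
  | zero =>
    intro t ht ht0 hcard
    exfalso
    have hempty : (Finset.univ.filter fun i => ∀ j, b j ≠ t i) = ∅ :=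
      Finset.card_eq_zero.mp (Nat.le_zero.mp hcard)
    have hall : ∀ i, ∃ j, b j = t i := by
      intro i
      by_contra hno
      push Not at hno
      have : i ∈ (Finset.univ.filter fun i => ∀ j, b j ≠ t i) := by simp [hno]
      rw [hempty] at this
      simp at this
    obtain ⟨σ, hσ⟩ := exists_perm_of_image_eq ht hall
    rcases (show Alt χ from h.alternating).perm σ b with h1 | h1
    · rw [← hσ, ht0] at h1; exact hb h1.symm
    · rw [← hσ, ht0] at h1
      exact hb (by simpa using h1.symm)
  | succ m ih =>
    intro t ht ht0 hcard
    by_cases hex : ∃ i, ∀ j, b j ≠ t i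
    · obtain ⟨i, hi⟩ := hex
      -- some `b j` is not in the range of `t`
      have hex2 : ∃ j, ∀ i', t i' ≠ b j := by
        by_contra hno
        push Not at hno
        obtain ⟨σ, hσ⟩ := exists_perm_of_image_eq hbinj hno
        apply hi (σ.symm i)
        rw [hσ]; simp
      obtain ⟨j, hj⟩ := hex2
      set t' : Fin r → E := repl (t i) (b j) ∘ t with ht'
      have ht'i : t' i = b j := by simp [ht', repl]
      have ht'ne : ∀ i', i' ≠ i → t' i' = t i' := by
        intro i' hi'
        have : t i' ≠ t i := fun hh => hi' (ht hh)
        simp [ht', repl, this]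
      by_cases h0 : χ t' = 0
      · have ht'inj : Injective t' := by
          intro p q hpq
          by_cases hp : p = i
          · by_cases hq : q = i
            · rw [hp, hq]
            · exfalso
              rw [hp, ht'i, ht'ne q hq] at hpq
              exact hj q hpq.symm
          · by_cases hq : q = i
            · exfalso
              rw [hq, ht'i, ht'ne p hp] at hpq
              exact hj p hpq
            · rw [ht'ne p hp, ht'ne q hq] at hpq
              exact ht hpq
        apply ih t' ht'inj h0
        have hlt : (Finset.univ.filter fun i => ∀ j, b j ≠ t' i).card <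
            (Finset.univ.filter fun i => ∀ j, b j ≠ t i).card := by
          apply Finset.card_lt_card
          refine Finset.ssubset_iff_subset_ne.mpr ⟨?_, ?_⟩
          · intro p hp
            simp only [Finset.mem_filter, Finset.mem_univ, true_and] at hp ⊢
            by_cases hpi : p = i
            · subst hpi; exact absurd ht'i.symm (hp j)
            · rw [ht'ne p hpi] at hp; exact hp
          · intro heq
            have : i ∈ (Finset.univ.filter fun i => ∀ j, b j ≠ t i) := by simpa using hi
            rw [← heq] at this
            simp only [Finset.mem_filter, Finset.mem_univ, true_and] at this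
            exact this j ht'i.symm
        omega
      · exact ⟨t i, b j, t, ht0, h0⟩
    · push Not at hex
      obtain ⟨σ, hσ⟩ := exists_perm_of_image_eq ht hex
      exfalso
      rcases (show Alt χ from h.alternating).perm σ b with h1 | h1
      · rw [← hσ, ht0] at h1; exact hb h1.symm
      · rw [← hσ, ht0] at h1
        exact hb (by simpa using h1.symm)

/-- Every oriented matroid can be perturbed to a uniform one, keeping all its topes. -/
theorem exists_uniform {χ : (Fin r → E) → SignType} (h : IsChirotope χ)
    (U : Set (E → SignType)) (hU : ∀ u ∈ U, IsTope χ u) :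
    ∃ χ' : (Fin r → E) → SignType, IsChirotope χ' ∧ (∀ u ∈ U, IsTope χ' u) ∧
      ∀ t, Injective t → χ' t ≠ 0 := by
  classical
  obtain ⟨m, hm⟩ : ∃ m, m = (Finset.univ.filter fun t : Fin r → E => χ t = 0).card := ⟨_, rfl⟩
  induction m using Nat.strong_induction_on generalizing χ with
  | _ m ih =>
    by_cases hun : ∀ t, Injective t → χ t ≠ 0
    · exact ⟨χ, h, hU, hun⟩
    · push Not at hun
      obtain ⟨t, ht, ht0⟩ := hun
      obtain ⟨b, hb⟩ := h.nonzero
      obtain ⟨e, f, t', ht'0, ht'1⟩ := exists_step h b hb _ t ht ht0 le_rfl
      refine ih _ ?_ (pert_isChirotope h e f) (fun u hu => pert_isTope h e f (hU u hu)) rfl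
      rw [hm]
      apply Finset.card_lt_card
      refine Finset.ssubset_iff_subset_ne.mpr ⟨?_, ?_⟩
      · intro p hp
        simp only [Finset.mem_filter, Finset.mem_univ, true_and] at hp ⊢
        by_contra hne
        rw [pert_of_ne hne] at hp
        exact hne hp
      · intro heq
        have : t' ∈ (Finset.univ.filter fun t : Fin r → E => χ t = 0) := by simpa using ht'0
        rw [← heq] at this
        simp only [Finset.mem_filter, Finset.mem_univ, true_and] at this
        rw [pert_of_eq ht'0] at this
        exact ht'1 this

end Pool.Agent.OM247
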